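import Mathlib

set_option autoImplicit false
set_option linter.unusedSectionVars false

/-!
General lemmas for the tube inequality tested on products.
-/

open MeasureTheory Set Filter Topology ENNReal NNReal Metric

namespace Pool.Agent.Helper37.Pt

/-- The space `ℝ^n`. -/
abbrev E (n : ℕ) : Type := EuclideanSpace ℝ (Fin n)

theorem step_rpow {θ : ℝ} (hθ0 : 0 ≤ θ) (hθ : θ < 1) {D : ℝ} (hD : 0 ≤ D) {c : ℕ} (hc : 1 ≤ c) :
    D * (c:ℝ) ^ (-θ) + D / (1 - θ) * ((c:ℝ) - 1) ^ (1 - θ) ≤ D / (1 - θ) * (c:ℝ) ^ (1 - θ) := by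
  have hc1 : (1:ℝ) ≤ c := by exact_mod_cast hc
  have hc0 : (0:ℝ) < c := by linarith
  have h1 : (1 + (-(1 / (c:ℝ)))) ^ (1 - θ) ≤ 1 + (1 - θ) * (-(1 / (c:ℝ))) := by
    apply rpow_one_add_le_one_add_mul_self
    · rw [neg_le_neg_iff, div_le_one hc0]; exact hc1
    · linarith
    · linarith
  have h2 : (c:ℝ) - 1 = c * (1 + (-(1 / (c:ℝ)))) := by
    field_simp
    ring
  have h3 : (0:ℝ) ≤ 1 + (-(1 / (c:ℝ))) := by
    have : 1 / (c:ℝ) ≤ 1 := by rw [div_le_one hc0]; exact hc1
    linarith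
  have h4 : ((c:ℝ) - 1) ^ (1 - θ) = (c:ℝ) ^ (1 - θ) * (1 + (-(1 / (c:ℝ)))) ^ (1 - θ) := by
    rw [h2, Real.mul_rpow hc0.le h3]
  have h5 : (c:ℝ) ^ (-θ) = (c:ℝ) ^ (1 - θ) * (1 / c) := by
    rw [Real.rpow_sub hc0, Real.rpow_one, Real.rpow_neg hc0.le]
    field_simp
  have hθ' : 0 < 1 - θ := by linarith
  have h6 : D / (1 - θ) * ((c:ℝ) - 1) ^ (1 - θ) ≤
      D / (1 - θ) * ((c:ℝ) ^ (1 - θ) * (1 + (1 - θ) * (-(1 / (c:ℝ))))) := by
    rw [h4]
    gcongr
  rw [h5]
  have h7 : D / (1 - θ) * ((c:ℝ) ^ (1 - θ) * (1 + (1 - θ) * (-(1 / (c:ℝ))))) =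
      D / (1 - θ) * (c:ℝ) ^ (1 - θ) - D * ((c:ℝ) ^ (1 - θ) * (1 / c)) := by
    field_simp
    ring
  linarith

/-- Summation of a sequence whose decreasing rearrangement decays like `j ^ (-θ)`. -/
theorem slem {ι : Type} {μ : ι → ℝ} {θ D : ℝ} (hθ0 : 0 ≤ θ) (hθ : θ < 1)
    (hD : 0 ≤ D) (s : Finset ι)
    (h : ∀ S ⊆ s, S.Nonempty → ∃ i ∈ S, μ i ≤ D * (S.card : ℝ) ^ (-θ)) :
    ∑ i ∈ s, μ i ≤ D / (1 - θ) * (s.card : ℝ) ^ (1 - θ) := by
  classical
  suffices H : ∀ n : ℕ, ∀ T ⊆ s, T.card = n → ∑ i ∈ T, μ i ≤ D / (1 - θ) * (T.card : ℝ) ^ (1 - θ) from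
    H _ s (Finset.Subset.refl s) rfl
  intro n
  induction n with
  | zero =>
    intro T hT hn
    rw [Finset.card_eq_zero] at hn
    subst hn
    simp only [Finset.sum_empty, Finset.card_empty, Nat.cast_zero]
    have : 0 < 1 - θ := by linarith
    positivity
  | succ n ih =>
    intro T hT hn
    have hne : T.Nonempty := by
      rw [← Finset.card_pos]; omega
    obtain ⟨i, hi, hμi⟩ := h T hT hne
    have h1 := ih (T.erase i) ((Finset.erase_subset _ _).trans hT)
      (by rw [Finset.card_erase_of_mem hi]; omega)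
    rw [← Finset.add_sum_erase T μ hi]
    have h2 := step_rpow hθ0 hθ hD (c := T.card) (by omega)
    rw [Finset.card_erase_of_mem hi, Nat.cast_sub (by omega), Nat.cast_one] at h1
    linarith

theorem geom_le {r : ℝ} (h0 : 0 < r) (h1 : r < 1) (n : ℕ) :
    ∑ l ∈ Finset.range n, r ^ l ≤ 1 / (1 - r) := by
  rw [one_div, ← tsum_geometric_of_lt_one h0.le h1]
  exact (summable_geometric_of_lt_one h0.le h1).sum_le_tsum _ (fun i _ => by positivity)

theorem geom_up {a : ℝ} (ha : 0 < a) (L : ℕ) : ∀ x : ℝ, 0 < x →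
    ∑ l ∈ (Finset.range L).filter (fun l : ℕ => 1 ≤ 2 ^ l * x), ((2:ℝ) ^ l * x) ^ (-a) ≤
      1 / (1 - 2 ^ (-a)) := by
  have hr0 : (0:ℝ) < 2 ^ (-a) := by positivity
  have hr1 : (2:ℝ) ^ (-a) < 1 := Real.rpow_lt_one_of_one_lt_of_neg (by norm_num) (by linarith)
  have hpos : 0 < 1 / (1 - (2:ℝ) ^ (-a)) := by
    have : 0 < 1 - (2:ℝ) ^ (-a) := by linarith
    positivity
  induction L with
  | zero =>
    intro x hx
    simpa using hpos.le
  | succ L ih =>
    intro x hx
    by_cases h : 1 ≤ x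
    · calc ∑ l ∈ (Finset.range (L + 1)).filter (fun l : ℕ => 1 ≤ 2 ^ l * x), ((2:ℝ) ^ l * x) ^ (-a)
          ≤ ∑ l ∈ Finset.range (L + 1), ((2:ℝ) ^ l * x) ^ (-a) :=
            Finset.sum_le_sum_of_subset_of_nonneg (Finset.filter_subset _ _)
              (fun l _ _ => by positivity)
        _ ≤ ∑ l ∈ Finset.range (L + 1), ((2:ℝ) ^ (-a)) ^ l := by
            apply Finset.sum_le_sum
            intro l _
            rw [Real.mul_rpow (by positivity) hx.le, ← Real.rpow_natCast, ← Real.rpow_mul (by norm_num),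
              ← Real.rpow_natCast, ← Real.rpow_mul (by norm_num), mul_comm (l:ℝ) (-a)]
            apply mul_le_of_le_one_right (by positivity)
            exact Real.rpow_le_one_of_one_le_of_nonpos h (by linarith)
        _ ≤ _ := geom_le hr0 hr1 _
    · have h1 := ih (2 * x) (by positivity)
      refine le_trans (le_of_eq ?_) h1
      rw [Finset.sum_filter, Finset.sum_filter, Finset.sum_range_succ']
      have h2 : ¬ (1 ≤ (2:ℝ) ^ 0 * x) := by simpa using h
      rw [if_neg h2, add_zero]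
      apply Finset.sum_congr rfl
      intro l _
      have e1 : (2:ℝ) ^ (l + 1) * x = 2 ^ l * (2 * x) := by ring
      rw [e1]

theorem geom_down {b : ℝ} (hb : 0 < b) {x : ℝ} (hx : 0 < x) (L : ℕ) :
    ∑ l ∈ (Finset.range L).filter (fun l : ℕ => (2:ℝ) ^ l * x < 1), ((2:ℝ) ^ l * x) ^ b ≤
      1 / (1 - 2 ^ (-b)) := by
  have hr0 : (0:ℝ) < 2 ^ (-b) := by positivity
  have hr1 : (2:ℝ) ^ (-b) < 1 := Real.rpow_lt_one_of_one_lt_of_neg (by norm_num) (by linarith)
  have hpos : 0 < 1 / (1 - (2:ℝ) ^ (-b)) := by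
    have : 0 < 1 - (2:ℝ) ^ (-b) := by linarith
    positivity
  induction L with
  | zero => simpa using hpos.le
  | succ L ih =>
    by_cases h : (2:ℝ) ^ L * x < 1
    · calc ∑ l ∈ (Finset.range (L + 1)).filter (fun l : ℕ => (2:ℝ) ^ l * x < 1), ((2:ℝ) ^ l * x) ^ b
          ≤ ∑ l ∈ Finset.range (L + 1), ((2:ℝ) ^ l * x) ^ b :=
            Finset.sum_le_sum_of_subset_of_nonneg (Finset.filter_subset _ _)
              (fun l _ _ => by positivity)
        _ = ∑ l ∈ Finset.range (L + 1), ((2:ℝ) ^ (L - l) * x) ^ b := by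
            rw [← Finset.sum_range_reflect]
            apply Finset.sum_congr rfl
            intro l hl
            rw [Finset.mem_range] at hl
            congr 3
        _ ≤ ∑ l ∈ Finset.range (L + 1), ((2:ℝ) ^ (-b)) ^ l := by
            apply Finset.sum_le_sum
            intro l hl
            rw [Finset.mem_range] at hl
            have e1 : (2:ℝ) ^ (L - l) * x = (2 ^ L * x) * (2:ℝ)⁻¹ ^ l := by
              have : (2:ℝ) ^ L = 2 ^ (L - l) * 2 ^ l := by
                rw [← pow_add]; congr 1; omega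
              rw [this, inv_pow]
              field_simp
            rw [e1, Real.mul_rpow (by positivity) (by positivity)]
            have e2 : ((2:ℝ)⁻¹ ^ l) ^ b = ((2:ℝ) ^ (-b)) ^ l := by
              rw [← Real.rpow_natCast, ← Real.rpow_natCast, ← Real.rpow_mul (by positivity),
                ← Real.rpow_mul (by positivity), Real.inv_rpow (by positivity),
                ← Real.rpow_neg (by positivity)]
              congr 1
              ring
            rw [e2]
            apply mul_le_of_le_one_left (by positivity)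
            exact Real.rpow_le_one (by positivity) h.le hb.le
        _ ≤ _ := geom_le hr0 hr1 _
    · rw [Finset.sum_filter, Finset.sum_range_succ, if_neg h, add_zero, ← Finset.sum_filter]
      exact ih

/-- A two-sided geometric sum. -/
theorem geom_sum {a b : ℝ} (ha : 0 < a) (hb : 0 < b) : ∃ C : ℝ, 0 < C ∧ ∀ (L : ℕ) (x : ℝ), 0 < x →
    ∑ l ∈ Finset.range L, min (((2:ℝ) ^ l * x) ^ (-a)) (((2:ℝ) ^ l * x) ^ b) ≤ C := by
  have hr1 : (2:ℝ) ^ (-a) < 1 := Real.rpow_lt_one_of_one_lt_of_neg (by norm_num) (by linarith)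
  have hr2 : (2:ℝ) ^ (-b) < 1 := Real.rpow_lt_one_of_one_lt_of_neg (by norm_num) (by linarith)
  have h1 : 0 < 1 - (2:ℝ) ^ (-a) := by linarith
  have h2 : 0 < 1 - (2:ℝ) ^ (-b) := by linarith
  refine ⟨1 / (1 - 2 ^ (-a)) + 1 / (1 - 2 ^ (-b)), by positivity, ?_⟩
  intro L x hx
  rw [← Finset.sum_filter_add_sum_filter_not (Finset.range L) (fun l : ℕ => 1 ≤ (2:ℝ) ^ l * x)]
  apply add_le_add
  · refine le_trans (Finset.sum_le_sum fun l _ => min_le_left _ _) (geom_up ha L x hx)
  · simp only [not_le]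
    refine le_trans (Finset.sum_le_sum fun l _ => min_le_right _ _) (geom_down hb hx L)

/-- A maximal separated subset. -/
theorem exists_sep {ι X : Type} [Fintype ι] [PseudoMetricSpace X] (f : ι → X) {r : ℝ}
    (hr : 0 ≤ r) : ∃ S : Finset ι, (∀ i ∈ S, ∀ j ∈ S, i ≠ j → r < dist (f i) (f j)) ∧
      ∀ i, ∃ s ∈ S, dist (f i) (f s) ≤ r := by
  classical
  set P : Finset (Finset ι) := (Finset.univ : Finset (Finset ι)).filter
    (fun S => ∀ i ∈ S, ∀ j ∈ S, i ≠ j → r < dist (f i) (f j)) with hP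
  have hPne : P.Nonempty := ⟨∅, by simp [hP]⟩
  obtain ⟨S, hS, hmax⟩ := P.exists_max_image Finset.card hPne
  have hS' := (Finset.mem_filter.1 hS).2
  refine ⟨S, hS', ?_⟩
  intro i
  by_contra hcon
  push Not at hcon
  have hi : i ∉ S := by
    intro hi
    have := hcon i hi
    rw [dist_self] at this
    linarith
  have h1 : insert i S ∈ P := by
    rw [hP, Finset.mem_filter]
    refine ⟨Finset.mem_univ _, ?_⟩
    intro a ha b hb hab
    rw [Finset.mem_insert] at ha hb
    rcases ha with rfl | ha <;> rcases hb with rfl | hb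
    · exact absurd rfl hab
    · exact hcon b hb
    · rw [dist_comm]; exact hcon a ha
    · exact hS' a ha b hb hab
  have h2 := hmax _ h1
  rw [Finset.card_insert_of_notMem hi] at h2
  omega

/-- Separated points in a ball. -/
theorem card_sep_le {d : ℕ} {ι : Type} (s : Finset ι) (f : ι → E d) {r R : ℝ} (hr : 0 < r)
    (hR : 0 ≤ R) (hsep : ∀ i ∈ s, ∀ j ∈ s, i ≠ j → r ≤ ‖f i - f j‖) (hf : ∀ i ∈ s, ‖f i‖ ≤ R) :
    (s.card : ℝ) ≤ (1 + 2 * R / r) ^ d := by
  have hdisj : Set.PairwiseDisjoint (s : Set ι) (fun i => ball (f i) (r / 2)) := by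
    intro i hi j hj hij
    apply ball_disjoint_ball
    rw [dist_eq_norm]
    have := hsep i hi j hj hij
    linarith
  have hsub : ∀ i ∈ s, ball (f i) (r / 2) ⊆ ball 0 (R + r / 2) := by
    intro i hi
    apply ball_subset_ball'
    rw [dist_zero_right]
    linarith [hf i hi]
  have hv : ∀ (x : E d) (ρ : ℝ), 0 < ρ →
      volume (ball x ρ) = ENNReal.ofReal (ρ ^ d) * volume (ball (0 : E d) 1) := by
    intro x ρ hρ
    have := Measure.addHaar_ball_of_pos (volume : Measure (E d)) x hρ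
    rwa [finrank_euclideanSpace_fin] at this
  have hpos : volume (ball (0 : E d) 1) ≠ 0 := (measure_ball_pos _ _ one_pos).ne'
  have hfin : volume (ball (0 : E d) 1) ≠ ∞ := measure_ball_lt_top.ne
  have h1 : (s.card : ℝ≥0∞) * (ENNReal.ofReal ((r / 2) ^ d) * volume (ball (0 : E d) 1))
      ≤ ENNReal.ofReal ((R + r / 2) ^ d) * volume (ball (0 : E d) 1) := by
    calc (s.card : ℝ≥0∞) * (ENNReal.ofReal ((r / 2) ^ d) * volume (ball (0 : E d) 1))
        = ∑ i ∈ s, volume (ball (f i) (r / 2)) := by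
          rw [Finset.sum_congr rfl (fun i _ => hv (f i) (r / 2) (by positivity)),
            Finset.sum_const, nsmul_eq_mul]
      _ = volume (⋃ i ∈ s, ball (f i) (r / 2)) :=
          (measure_biUnion_finset hdisj (fun i _ => measurableSet_ball)).symm
      _ ≤ volume (ball (0 : E d) (R + r / 2)) := measure_mono (iUnion₂_subset hsub)
      _ = _ := hv _ _ (by positivity)
  rw [← mul_assoc, ENNReal.mul_le_mul_iff_left hpos hfin] at h1
  have e1 : (s.card : ℝ≥0∞) = ENNReal.ofReal (s.card : ℝ) := by simp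
  rw [e1, ← ENNReal.ofReal_mul (by positivity), ENNReal.ofReal_le_ofReal_iff (by positivity)] at h1
  have h2 : (s.card : ℝ) ≤ (R + r / 2) ^ d / (r / 2) ^ d := by
    rw [le_div_iff₀ (by positivity)]
    exact h1
  refine h2.trans (le_of_eq ?_)
  rw [← div_pow]
  congr 1
  field_simp
  ring

end Pool.Agent.Helper37.Pt
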