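import Pool.Agent.Helper37.Pt.Factor

set_option autoImplicit false
set_option linter.unusedSectionVars false

/-!
The estimate in a product, for one class of segments.
-/

open MeasureTheory Set Filter Topology ENNReal NNReal Metric
open scoped Pointwise

namespace Pool.Agent.Helper37.Pt

/-- The estimate in the factor in which the segments are long. -/
theorem apex {d : ℕ} (hd : 1 ≤ d) {κ CP : ℝ} (hCP : 0 < CP)
    (hP : PP d κ CP) {η b : ℝ} (hη : 0 < η) (hη1 : η ≤ 1) (hb : 0 < b) :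
    ∃ C : ℝ, 0 < C ∧ ∀ δ : ℝ, 0 < δ → δ < 1 → ∀ (ι : Type) [Fintype ι] [Nonempty ι]
      (a f : ι → E d), (∀ i, b ≤ ‖f i‖) → (∀ i, ‖f i‖ ≤ 1) →
      (∀ i j, i ≠ j → η * δ < ‖‖f i‖⁻¹ • f i - ‖f j‖⁻¹ • f j‖) →
      ∀ A : Set (E d), MeasurableSet A → ∀ lam : ℝ, 0 < lam →
      (∀ i, ENNReal.ofReal lam ≤ volume (tset A (a i) (f i))) →
      ∀ v : ℝ, volume (thickening δ A) ≤ ENNReal.ofReal v →
      (Fintype.card ι : ℝ) ^ κ * lam ^ (κ * d) * (lam ^ (1 - κ) * δ⁻¹) ≤ C * (v / δ ^ d) := by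
  have hd1 : (1:ℝ) ≤ d := by exact_mod_cast hd
  refine ⟨CP / (b ^ (1 + κ * ((d:ℝ) - 1)) * η ^ ((d:ℝ) - 1)), by positivity, ?_⟩
  intro δ hδ hδ1 ι _ _ a f hf1 hf2 hsep A hA lam hlam hden v hv
  have hfpos : ∀ i, 0 < ‖f i‖ := fun i => lt_of_lt_of_le hb (hf1 i)
  have hpre : (fun x : E d => (1:ℝ) • x) ⁻¹' A = A := by
    simp only [one_smul, preimage_id']
  have h1 := hP (η * δ) (by positivity) (by nlinarith) ι a (fun i => ‖f i‖⁻¹ • f i)
    (fun i => by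
      rw [norm_smul, norm_inv, norm_norm, inv_mul_cancel₀ (hfpos i).ne'])
    (fun i j hij => (hsep i j hij).le) A hA (b * lam) (by positivity) (by
      intro i
      have h2 := tset_scale (A := A) (a := a i) (f := f i) (ω := ‖f i‖⁻¹ • f i) (ρ := 1)
        (r := ‖f i‖) one_pos (hfpos i) (hf2 i) (by
          rw [one_mul, smul_smul, mul_inv_cancel₀ (hfpos i).ne', one_smul])
      rw [hpre, inv_one, one_smul] at h2
      refine le_trans ?_ h2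
      rw [ENNReal.ofReal_mul hb.le]
      exact mul_le_mul' (ENNReal.ofReal_le_ofReal (hf1 i)) (hden i)) v
    ((measure_mono (thickening_mono (by nlinarith) A)).trans hv)
  rw [Real.mul_rpow hb.le hlam.le, Real.mul_rpow hη.le hδ.le] at h1
  have e1 : lam ^ (1 + κ * ((d:ℝ) - 1)) = lam ^ (κ * d) * lam ^ (1 - κ) := by
    rw [← Real.rpow_add hlam]
    congr 1
    ring
  have e2 : δ ^ ((d:ℝ) - 1) = δ ^ d * δ⁻¹ := by
    rw [Real.rpow_sub hδ, Real.rpow_natCast, Real.rpow_one, div_eq_mul_inv]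
  rw [e1, e2] at h1
  have hB : 0 < b ^ (1 + κ * ((d:ℝ) - 1)) := by positivity
  have hH : 0 < η ^ ((d:ℝ) - 1) := by positivity
  set B : ℝ := b ^ (1 + κ * ((d:ℝ) - 1))
  set H : ℝ := η ^ ((d:ℝ) - 1)
  calc (Fintype.card ι : ℝ) ^ κ * lam ^ (κ * d) * (lam ^ (1 - κ) * δ⁻¹)
      = ((Fintype.card ι : ℝ) ^ κ * (B * (lam ^ (κ * d) * lam ^ (1 - κ))) * (H * (δ ^ d * δ⁻¹))) *
        (1 / (B * H * δ ^ d)) := by field_simp
    _ ≤ (CP * v) * (1 / (B * H * δ ^ d)) := by gcongr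
    _ = _ := by field_simp

section cls

variable {m : ℕ} {d : Fin m → ℕ}

/-- The geometric part: the codes determine the direction. -/
theorem code_inj {η δ : ℝ} (hm : 1 ≤ m) (hη : η = 1 / (8 * (m:ℝ) ^ 3)) (hδ : 0 < δ)
    {e e' : PiLp 2 (fun j : Fin m => E (d j))} (he : ‖e‖ = 1) (he' : ‖e'‖ = 1) (j0 : Fin m)
    (hj : 1 ≤ m * ‖e j0‖) (hj' : 1 ≤ m * ‖e' j0‖)
    (h1 : ∀ j, j ≠ j0 → ‖e j - e' j‖ ≤ 2 * (η * δ))
    (h2 : ‖‖e j0‖⁻¹ • e j0 - ‖e' j0‖⁻¹ • e' j0‖ ≤ 2 * (η * δ)) : ‖e - e'‖ < δ := by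
  have hm1 : (1:ℝ) ≤ m := by exact_mod_cast hm
  have hm0 : (0:ℝ) < m := by linarith
  have hη0 : 0 < η := by rw [hη]; positivity
  have hsq : ‖e‖ ^ 2 = ∑ j, ‖e j‖ ^ 2 := PiLp.norm_sq_eq_of_L2 _ _
  have hsq' : ‖e'‖ ^ 2 = ∑ j, ‖e' j‖ ^ 2 := PiLp.norm_sq_eq_of_L2 _ _
  rw [he] at hsq
  rw [he'] at hsq'
  have hle : ∀ j, ‖e j‖ ≤ 1 := by
    intro j
    have := PiLp.norm_apply_le e j
    rwa [he] at this
  have hle' : ∀ j, ‖e' j‖ ≤ 1 := by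
    intro j
    have := PiLp.norm_apply_le e' j
    rwa [he'] at this
  have hpos : 0 < ‖e j0‖ := by
    by_contra hc
    have : m * ‖e j0‖ ≤ 0 := mul_nonpos_of_nonneg_of_nonpos hm0.le (not_lt.1 hc)
    linarith
  have hpos' : 0 < ‖e' j0‖ := by
    by_contra hc
    have : m * ‖e' j0‖ ≤ 0 := mul_nonpos_of_nonneg_of_nonpos hm0.le (not_lt.1 hc)
    linarith
  -- the difference of the norms
  have h3 : |‖e j0‖ - ‖e' j0‖| ≤ 2 * (m:ℝ) ^ 2 * (η * δ) := by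
    have h4 : |‖e j0‖ ^ 2 - ‖e' j0‖ ^ 2| ≤ m * (4 * (η * δ)) := by
      have e1 : ‖e j0‖ ^ 2 - ‖e' j0‖ ^ 2 =
          -∑ j ∈ Finset.univ.erase j0, (‖e j‖ ^ 2 - ‖e' j‖ ^ 2) := by
        rw [Finset.sum_sub_distrib]
        rw [← Finset.add_sum_erase _ _ (Finset.mem_univ j0)] at hsq hsq'
        linarith
      rw [e1, abs_neg]
      calc |∑ j ∈ Finset.univ.erase j0, (‖e j‖ ^ 2 - ‖e' j‖ ^ 2)|
          ≤ ∑ j ∈ Finset.univ.erase j0, |‖e j‖ ^ 2 - ‖e' j‖ ^ 2| := Finset.abs_sum_le_sum_abs _ _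
        _ ≤ ∑ j ∈ Finset.univ.erase j0, (4 * (η * δ)) := by
            apply Finset.sum_le_sum
            intro j hj
            have h5 := h1 j (Finset.mem_erase.1 hj).1
            have h6 : |‖e j‖ - ‖e' j‖| ≤ 2 * (η * δ) := (abs_norm_sub_norm_le _ _).trans h5
            have e2 : ‖e j‖ ^ 2 - ‖e' j‖ ^ 2 = (‖e j‖ - ‖e' j‖) * (‖e j‖ + ‖e' j‖) := by ring
            rw [e2, abs_mul, abs_of_nonneg (by positivity : 0 ≤ ‖e j‖ + ‖e' j‖)]
            have h7 := hle j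
            have h8 := hle' j
            calc |‖e j‖ - ‖e' j‖| * (‖e j‖ + ‖e' j‖) ≤ 2 * (η * δ) * 2 := by
                  apply mul_le_mul h6 (by linarith) (by positivity) (by positivity)
              _ = _ := by ring
        _ ≤ m * (4 * (η * δ)) := by
            rw [Finset.sum_const, nsmul_eq_mul]
            apply mul_le_mul_of_nonneg_right _ (by positivity)
            have : (Finset.univ.erase j0).card ≤ m := by
              refine (Finset.card_le_card (Finset.erase_subset _ _)).trans ?_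
              rw [Finset.card_univ, Fintype.card_fin]
            exact_mod_cast this
    have e3 : ‖e j0‖ ^ 2 - ‖e' j0‖ ^ 2 = (‖e j0‖ - ‖e' j0‖) * (‖e j0‖ + ‖e' j0‖) := by ring
    rw [e3, abs_mul, abs_of_pos (by linarith : 0 < ‖e j0‖ + ‖e' j0‖)] at h4
    have h9 : 2 ≤ m * (‖e j0‖ + ‖e' j0‖) := by linarith
    have h10 : |‖e j0‖ - ‖e' j0‖| * 2 ≤ m * (m * (4 * (η * δ))) := by
      calc |‖e j0‖ - ‖e' j0‖| * 2 ≤ |‖e j0‖ - ‖e' j0‖| * (m * (‖e j0‖ + ‖e' j0‖)) := by gcongr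
        _ = m * (|‖e j0‖ - ‖e' j0‖| * (‖e j0‖ + ‖e' j0‖)) := by ring
        _ ≤ _ := by gcongr
    nlinarith
  have h11 : ‖e j0 - e' j0‖ ≤ (2 * (m:ℝ) ^ 2 + 2) * (η * δ) := by
    have e4 : e j0 - e' j0 = (‖e j0‖ - ‖e' j0‖) • (‖e j0‖⁻¹ • e j0) +
        ‖e' j0‖ • (‖e j0‖⁻¹ • e j0 - ‖e' j0‖⁻¹ • e' j0) := by
      rw [sub_smul, smul_sub, smul_smul, smul_smul, smul_smul, mul_inv_cancel₀ hpos.ne',
        mul_inv_cancel₀ hpos'.ne', one_smul, one_smul]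
      abel
    rw [e4]
    refine (norm_add_le _ _).trans ?_
    have n1 : ‖‖e j0‖⁻¹ • e j0‖ = 1 := by
      rw [norm_smul, norm_inv, norm_norm, inv_mul_cancel₀ hpos.ne']
    rw [norm_smul (‖e j0‖ - ‖e' j0‖), n1, mul_one, Real.norm_eq_abs,
      norm_smul ‖e' j0‖ (‖e j0‖⁻¹ • e j0 - ‖e' j0‖⁻¹ • e' j0), norm_norm]
    have h12 : ‖e' j0‖ * ‖‖e j0‖⁻¹ • e j0 - ‖e' j0‖⁻¹ • e' j0‖ ≤ 1 * (2 * (η * δ)) := by
      apply mul_le_mul (hle' j0) h2 (norm_nonneg _) zero_le_one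
    linarith
  have hall : ∀ j, ‖(e - e') j‖ ≤ (2 * (m:ℝ) ^ 2 + 2) * (η * δ) := by
    intro j
    rw [PiLp.sub_apply]
    by_cases hjj : j = j0
    · subst hjj; exact h11
    · refine (h1 j hjj).trans ?_
      apply mul_le_mul_of_nonneg_right _ (by positivity)
      nlinarith
  have hfin : ‖e - e'‖ ^ 2 ≤ (δ / 2) ^ 2 := by
    rw [PiLp.norm_sq_eq_of_L2]
    calc ∑ j, ‖(e - e') j‖ ^ 2 ≤ ∑ j : Fin m, ((2 * (m:ℝ) ^ 2 + 2) * (η * δ)) ^ 2 :=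
          Finset.sum_le_sum (fun j _ => pow_le_pow_left₀ (norm_nonneg _) (hall j) 2)
      _ = m * ((2 * (m:ℝ) ^ 2 + 2) * (η * δ)) ^ 2 := by
          rw [Finset.sum_const, Finset.card_univ, Fintype.card_fin, nsmul_eq_mul]
      _ ≤ (m:ℝ) ^ 2 * ((4 * (m:ℝ) ^ 2) * (η * δ)) ^ 2 := by
          have h13 : (m:ℝ) ≤ (m:ℝ) ^ 2 := by nlinarith
          have h14 : 2 * (m:ℝ) ^ 2 + 2 ≤ 4 * (m:ℝ) ^ 2 := by nlinarith
          gcongr
      _ = (δ / 2) ^ 2 := by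
          rw [hη]
          field_simp
          ring
  have := le_of_sq_le_sq hfin (by positivity)
  linarith

end cls

end Pool.Agent.Helper37.Pt
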