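import Pool.Agent.Helper37.Pt.Core

set_option autoImplicit false
set_option linter.unusedSectionVars false

/-!
The estimate in a product, for one class of segments, continued.
-/

open MeasureTheory Set Filter Topology ENNReal NNReal Metric
open scoped Pointwise

namespace Pool.Agent.Helper37.Pt

/-- The estimate for one class of segments. -/
theorem class_bound {m : ℕ} {d : Fin m → ℕ} (hm : 1 ≤ m) (hd : ∀ j, 1 ≤ d j) {κ : ℝ}
    (hκ0 : 0 < κ) (hκ1 : κ < 1) (hP : ∀ j, ∃ C : ℝ, 0 < C ∧ PP (d j) κ C) :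
    ∃ C : ℝ, 0 < C ∧ ∀ δ : ℝ, 0 < δ → δ < 1 → ∀ (ι : Type) [Fintype ι] [Nonempty ι]
      (a e : ι → PiLp 2 (fun j : Fin m => E (d j))), (∀ i, ‖e i‖ = 1) →
      (∀ i i', i ≠ i' → δ ≤ ‖e i - e i'‖) → ∀ (j0 : Fin m) (l : Fin m → ℕ),
      (∀ i, 1 ≤ m * ‖e i j0‖) → (∀ i j, j ≠ j0 → ‖e i j‖ ≤ 2 ^ l j * δ) →
      (∀ j, j ≠ j0 → (l j = 0 ∨ ∀ i, 2 ^ l j * δ < 2 * ‖e i j‖)) →
      ∀ A : ∀ j, Set (E (d j)), (∀ j, MeasurableSet (A j)) → ∀ lam : ℝ, 0 < lam →
      (∀ i j, ENNReal.ofReal lam ≤ volume (tset (A j) (a i j) (e i j))) →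
      ∀ v : Fin m → ℝ, (∀ j, volume (thickening δ (A j)) ≤ ENNReal.ofReal (v j)) →
      (Fintype.card ι : ℝ) ^ κ * (∏ j, lam ^ (κ * d j)) * (lam ^ (1 - κ) * δ⁻¹) ≤
        C * (∏ j, v j / δ ^ d j) * ∏ j ∈ Finset.univ.erase j0,
          min ((2 ^ l j * lam) ^ (-(1 - κ))) ((2 ^ l j * lam) ^ (κ * d j)) := by
  have hm1 : (1:ℝ) ≤ m := by exact_mod_cast hm
  have hm0 : (0:ℝ) < m := by linarith
  set η : ℝ := 1 / (8 * (m:ℝ) ^ 3) with hη
  have hη0 : 0 < η := by positivity
  have hη1 : η ≤ 1 := by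
    rw [hη, div_le_one (by positivity)]
    have : (1:ℝ) ≤ (m:ℝ) ^ 3 := one_le_pow₀ hm1
    linarith
  choose CP hCP hP using hP
  choose C1 hC1 h1 using fun j => factor (hd j) hκ0 hκ1 (hCP j) (hP j) hη0 hη1
  choose C2 hC2 h2 using fun j => apex (hd j) (hCP j) (hP j) hη0 hη1
    (b := 1 / m) (by positivity)
  refine ⟨∏ j, (C1 j + C2 j), Finset.prod_pos fun j _ => add_pos (hC1 j) (hC2 j), ?_⟩
  intro δ hδ hδ1 ι _ _ a e he hsep j0 l hj0 hl1 hl2 A hA lam hlam hden v hv
  classical
  obtain ⟨i0⟩ := ‹Nonempty ι›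
  set g : ∀ j, ι → E (d j) := fun j i =>
    if j = j0 then ‖e i j‖⁻¹ • e i j else e i j with hg
  choose S hS1 hS2 using fun j => exists_sep (g j) (r := η * δ) (by positivity)
  choose s hs1 hs2 using hS2
  -- the codes
  have hcard : Fintype.card ι ≤ ∏ j, (S j).card := by
    rw [← Fintype.card_piFinset, ← Finset.card_univ]
    apply Finset.card_le_card_of_injOn (fun i j => s j i)
    · intro i _
      simp only [Finset.mem_coe, Fintype.mem_piFinset]
      exact fun j => hs1 j i
    · intro i _ i' _ hii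
      by_contra hne
      have h3 : ∀ j, ‖g j i - g j i'‖ ≤ 2 * (η * δ) := by
        intro j
        have h4 := hs2 j i
        have h5 := hs2 j i'
        have h6 : s j i = s j i' := congrFun hii j
        rw [h6] at h4
        rw [← dist_eq_norm]
        refine (dist_triangle_right _ _ (g j (s j i'))).trans ?_
        linarith
      have h7 := code_inj hm hη hδ (he i) (he i') j0 (hj0 i) (hj0 i') (by
        intro j hj
        have := h3 j
        simp only [hg, if_neg hj] at this
        exact this) (by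
        have := h3 j0
        simp only [hg, if_pos] at this
        exact this)
      have := hsep i i' hne
      linarith
  have hne : ∀ j, Nonempty (S j) := fun j => ⟨⟨s j i0, hs1 j i0⟩⟩
  have hnorm : ∀ i j, ‖e i j‖ ≤ 1 := by
    intro i j
    have := PiLp.norm_apply_le (e i) j
    rwa [he i] at this
  have hv0 : ∀ j, 0 < v j / δ ^ d j := by
    intro j
    obtain ⟨t, ht⟩ := tset_nonempty hlam (hden i0 j)
    exact lt_of_lt_of_le (vb_pos _) (vol_thick_ge ht.2 hδ (hv j))
  -- one factor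
  set mm : Fin m → ℝ := fun j =>
    min ((2 ^ l j * lam) ^ (-(1 - κ))) ((2 ^ l j * lam) ^ (κ * d j)) with hmm
  have hmm0 : ∀ j, 0 < mm j := fun j => by rw [hmm]; positivity
  have hfac : ∀ j ∈ Finset.univ.erase j0, ((S j).card : ℝ) ^ κ * lam ^ (κ * d j) ≤
      (C1 j + C2 j) * (v j / δ ^ d j) * mm j := by
    intro j hj
    have hj' : j ≠ j0 := (Finset.mem_erase.1 hj).1
    have h3 := h1 j δ hδ (l j) (S j) (fun i => a i j) (fun i => e i j) (fun i => hl1 i j hj')
      (by
        rcases hl2 j hj' with h | h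
        · exact Or.inl h
        · exact Or.inr fun i => h i)
      (fun i i' hii => by
        have := hS1 j i i.2 i' i'.2 (fun h => hii (Subtype.ext h))
        simp only [hg, if_neg hj', dist_eq_norm] at this
        exact this) (A j) (hA j) lam hlam (fun i => hden i j) (v j) (hv j)
    rw [Fintype.card_coe] at h3
    refine h3.trans ?_
    have h4 := hv0 j
    have h5 := hmm0 j
    have h6 : C1 j * mm j * (v j / δ ^ d j) ≤ (C1 j + C2 j) * mm j * (v j / δ ^ d j) := by
      have := hC2 j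
      gcongr
      linarith
    refine h6.trans (le_of_eq (by ring))
  have hap : ((S j0).card : ℝ) ^ κ * lam ^ (κ * d j0) * (lam ^ (1 - κ) * δ⁻¹) ≤
      (C1 j0 + C2 j0) * (v j0 / δ ^ d j0) := by
    have h3 := h2 j0 δ hδ hδ1 (S j0) (fun i => a i j0) (fun i => e i j0)
      (fun i => by
        rw [div_le_iff₀ hm0]
        have := hj0 i
        linarith) (fun i => hnorm i j0)
      (fun i i' hii => by
        have := hS1 j0 i i.2 i' i'.2 (fun h => hii (Subtype.ext h))
        simp only [hg, if_pos, dist_eq_norm] at this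
        exact this) (A j0) (hA j0) lam hlam (fun i => hden i j0) (v j0) (hv j0)
    rw [Fintype.card_coe] at h3
    refine h3.trans ?_
    have h4 := hv0 j0
    have h5 := hC1 j0
    gcongr
    linarith
  -- the product
  have hN : (Fintype.card ι : ℝ) ^ κ ≤ ∏ j, ((S j).card : ℝ) ^ κ := by
    rw [Real.finsetProd_rpow _ _ (fun j _ => Nat.cast_nonneg _)]
    apply Real.rpow_le_rpow (by positivity) _ hκ0.le
    exact_mod_cast hcard
  have hl0 : 0 < lam ^ (1 - κ) * δ⁻¹ := by positivity
  calc (Fintype.card ι : ℝ) ^ κ * (∏ j, lam ^ (κ * d j)) * (lam ^ (1 - κ) * δ⁻¹)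
      ≤ (∏ j, ((S j).card : ℝ) ^ κ) * (∏ j, lam ^ (κ * d j)) * (lam ^ (1 - κ) * δ⁻¹) := by
        apply mul_le_mul_of_nonneg_right _ hl0.le
        apply mul_le_mul_of_nonneg_right hN
        exact Finset.prod_nonneg fun j _ => by positivity
    _ = (((S j0).card : ℝ) ^ κ * lam ^ (κ * d j0) * (lam ^ (1 - κ) * δ⁻¹)) *
          ∏ j ∈ Finset.univ.erase j0, (((S j).card : ℝ) ^ κ * lam ^ (κ * d j)) := by
        rw [← Finset.prod_mul_distrib, ← Finset.mul_prod_erase _ _ (Finset.mem_univ j0)]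
        ring
    _ ≤ ((C1 j0 + C2 j0) * (v j0 / δ ^ d j0)) *
          ∏ j ∈ Finset.univ.erase j0, ((C1 j + C2 j) * (v j / δ ^ d j) * mm j) := by
        apply mul_le_mul hap
        · apply Finset.prod_le_prod
          · intro j _; positivity
          · exact hfac
        · exact Finset.prod_nonneg fun j _ => by positivity
        · have := hC1 j0
          have := hC2 j0
          have := hv0 j0
          positivity
    _ = _ := by
        rw [Finset.prod_mul_distrib, Finset.prod_mul_distrib,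
          ← Finset.mul_prod_erase _ (fun j => C1 j + C2 j) (Finset.mem_univ j0),
          ← Finset.mul_prod_erase _ (fun j => v j / δ ^ d j) (Finset.mem_univ j0)]
        ring

end Pool.Agent.Helper37.Pt
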