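import Pool.Agent.Helper37.Pt.Core2

set_option autoImplicit false
set_option linter.unusedSectionVars false

/-!
The number of segments with a large intersection with a product.
-/

open MeasureTheory Set Filter Topology ENNReal NNReal Metric
open scoped Pointwise

namespace Pool.Agent.Helper37.Pt

theorem exists_dyadic {δ : ℝ} (hδ : 0 < δ) (x : ℝ) :
    ∃ l : ℕ, x ≤ 2 ^ l * δ ∧ (l = 0 ∨ 2 ^ l * δ < 2 * x) := by
  classical
  have hex : ∃ l : ℕ, x ≤ 2 ^ l * δ := by
    obtain ⟨l, hl⟩ := pow_unbounded_of_one_lt (x / δ) (by norm_num : (1:ℝ) < 2)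
    exact ⟨l, by rw [← div_le_iff₀ hδ]; exact hl.le⟩
  refine ⟨Nat.find hex, Nat.find_spec hex, ?_⟩
  rcases Nat.eq_zero_or_pos (Nat.find hex) with h | h
  · exact Or.inl h
  · right
    have h1 := Nat.find_min hex (m := Nat.find hex - 1) (by omega)
    rw [not_le] at h1
    have e1 : (2:ℝ) ^ Nat.find hex = 2 * 2 ^ (Nat.find hex - 1) := by
      rw [← pow_succ']
      congr 1
      omega
    rw [e1]
    linarith

theorem min_rpow' {x κ D : ℝ} (hx : 0 < x) (hκ : 0 < κ) :
    (min (x ^ (-(1 - κ))) (x ^ (κ * D))) ^ (1 / κ) =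
      min (x ^ (-((1 - κ) / κ))) (x ^ D) := by
  have h1 : ∀ a b : ℝ, 0 ≤ a → 0 ≤ b → (min a b) ^ (1 / κ) = min (a ^ (1 / κ)) (b ^ (1 / κ)) := by
    intro a b ha hb
    rcases le_total a b with h | h
    · rw [min_eq_left h, min_eq_left (Real.rpow_le_rpow ha h (by positivity))]
    · rw [min_eq_right h, min_eq_right (Real.rpow_le_rpow hb h (by positivity))]
  rw [h1 _ _ (by positivity) (by positivity), ← Real.rpow_mul hx.le, ← Real.rpow_mul hx.le]
  congr 2
  · field_simp
  · field_simp

theorem discrete {m : ℕ} {d : Fin m → ℕ} (hm : 1 ≤ m) (hd : ∀ j, 1 ≤ d j) {κ : ℝ}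
    (hκ0 : 0 < κ) (hκ1 : κ < 1) (hP : ∀ j, ∃ C : ℝ, 0 < C ∧ PP (d j) κ C) :
    ∃ C : ℝ, 0 < C ∧ ∀ δ : ℝ, 0 < δ → δ < 1 → ∀ (ι : Type) [Fintype ι] [Nonempty ι]
      (a e : ι → PiLp 2 (fun j : Fin m => E (d j))), (∀ i, ‖e i‖ = 1) →
      (∀ i i', i ≠ i' → δ ≤ ‖e i - e i'‖) →
      ∀ A : ∀ j, Set (E (d j)), (∀ j, MeasurableSet (A j)) → ∀ lam : ℝ, 0 < lam →
      (∀ i j, ENNReal.ofReal lam ≤ volume (tset (A j) (a i j) (e i j))) →
      ∀ v : Fin m → ℝ, (∀ j, volume (thickening δ (A j)) ≤ ENNReal.ofReal (v j)) →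
      (Fintype.card ι : ℝ) ^ κ * (∏ j, lam ^ (κ * d j)) * (lam ^ (1 - κ) * δ⁻¹) ≤
        C * ∏ j, v j / δ ^ d j := by
  have hm1 : (1:ℝ) ≤ m := by exact_mod_cast hm
  have hm0 : (0:ℝ) < m := by linarith
  obtain ⟨C, hC, hcls⟩ := class_bound hm hd hκ0 hκ1 hP
  have hκ' : 0 < (1 - κ) / κ := div_pos (by linarith) hκ0
  choose B hB hsum using fun j => geom_sum hκ' (b := (d j : ℝ))
    (by have := hd j; exact_mod_cast this)
  set BB : ℝ := ∏ j, max 1 (B j) with hBB
  have hBB0 : 0 < BB := Finset.prod_pos fun j _ => lt_max_of_lt_left one_pos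
  refine ⟨(m * BB) ^ κ * C, by positivity, ?_⟩
  intro δ hδ hδ1 ι _ _ a e he hsep A hA lam hlam hden v hv
  classical
  obtain ⟨i0⟩ := ‹Nonempty ι›
  have hv0 : ∀ j, 0 < v j / δ ^ d j := by
    intro j
    obtain ⟨t, ht⟩ := tset_nonempty hlam (hden i0 j)
    exact lt_of_lt_of_le (vb_pos _) (vol_thick_ge ht.2 hδ (hv j))
  -- the classes
  have hj0 : ∀ i, ∃ j, 1 ≤ m * ‖e i j‖ := by
    intro i
    by_contra hcon
    push Not at hcon
    have h1 : ‖e i‖ ^ 2 = ∑ j, ‖e i j‖ ^ 2 := PiLp.norm_sq_eq_of_L2 _ _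
    rw [he i] at h1
    have h2 : ∀ j, ‖e i j‖ ^ 2 < 1 / m := by
      intro j
      have h3 := hcon j
      have h4 : ‖e i j‖ < 1 / m := by
        rw [lt_div_iff₀ hm0]
        linarith
      have h5 : 1 / (m:ℝ) ≤ 1 := by rw [div_le_one hm0]; exact hm1
      have := norm_nonneg (e i j)
      nlinarith
    have h6 : ∑ j, ‖e i j‖ ^ 2 < ∑ j : Fin m, 1 / (m:ℝ) := by
      apply Finset.sum_lt_sum_of_nonempty
      · exact ⟨⟨0, hm⟩, Finset.mem_univ _⟩
      · exact fun j _ => h2 j
    rw [Finset.sum_const, Finset.card_univ, Fintype.card_fin, nsmul_eq_mul,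
      mul_one_div_cancel hm0.ne'] at h6
    linarith
  choose j0 hj0 using hj0
  choose ll hll1 hll2 using fun (i : ι) (j : Fin m) => exists_dyadic hδ ‖e i j‖
  set l : ι → Fin m → ℕ := fun i j => if j = j0 i then 0 else ll i j with hl
  set L : ℕ := (Finset.univ.sup fun i => Finset.univ.sup fun j => l i j) + 1 with hL
  have hlL : ∀ i j, l i j < L := by
    intro i j
    rw [hL, Nat.lt_succ_iff]
    exact (Finset.le_sup (f := fun j => l i j) (Finset.mem_univ j)).trans
      (Finset.le_sup (f := fun i => Finset.univ.sup fun j => l i j) (Finset.mem_univ i))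
  have hL1 : 0 < L := Nat.succ_pos _
  set key : ι → Fin m × (Fin m → ℕ) := fun i => (j0 i, l i) with hkey
  set J : Finset (Fin m × (Fin m → ℕ)) :=
    Finset.univ ×ˢ Fintype.piFinset (fun _ => Finset.range L) with hJ
  have hkeyJ : ∀ i, key i ∈ J := by
    intro i
    rw [hJ, Finset.mem_product]
    refine ⟨Finset.mem_univ _, ?_⟩
    rw [Fintype.mem_piFinset]
    exact fun j => Finset.mem_range.2 (hlL i j)
  -- the weights
  set W : ℝ := (∏ j, lam ^ (κ * d j)) * (lam ^ (1 - κ) * δ⁻¹) with hW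
  have hW0 : 0 < W := by
    have : 0 < ∏ j, lam ^ (κ * d j) := Finset.prod_pos fun j _ => by positivity
    positivity
  set V : ℝ := ∏ j, v j / δ ^ d j with hV
  have hV0 : 0 < V := Finset.prod_pos fun j _ => hv0 j
  set M : ℝ := (C * V / W) ^ (1 / κ) with hM
  have hM0 : 0 < M := by positivity
  set p : Fin m → ℕ → ℝ := fun j k =>
    min (((2:ℝ) ^ k * lam) ^ (-((1 - κ) / κ))) (((2:ℝ) ^ k * lam) ^ (d j : ℝ)) with hp
  have hp0 : ∀ j k, 0 < p j k := fun j k => by rw [hp]; positivity
  set G : Fin m → Fin m → ℕ → ℝ := fun j1 j k =>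
    if j = j1 then (if k = 0 then 1 else 0) else p j k with hG
  have hG0 : ∀ j1 j k, 0 ≤ G j1 j k := by
    intro j1 j k
    simp only [hG]
    split_ifs
    · exact zero_le_one
    · exact le_rfl
    · exact (hp0 j k).le
  have hfib : ∀ q ∈ J, ((Finset.univ.filter (fun i => key i = q)).card : ℝ) ≤
      M * ∏ j, G q.1 j (q.2 j) := by
    rintro ⟨j1, l1⟩ hq
    rcases Finset.eq_empty_or_nonempty (Finset.univ.filter (fun i => key i = (j1, l1))) with h0 | h0
    · rw [h0, Finset.card_empty, Nat.cast_zero]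
      exact mul_nonneg hM0.le (Finset.prod_nonneg fun j _ => hG0 _ _ _)
    obtain ⟨i1, hi1⟩ := h0
    rw [Finset.mem_filter] at hi1
    have hi1' : j0 i1 = j1 ∧ l i1 = l1 := by
      have := hi1.2
      rw [hkey, Prod.mk.injEq] at this
      exact this
    have hne : Nonempty {i // key i = (j1, l1)} := ⟨⟨i1, hi1.2⟩⟩
    have hkk : ∀ i : {i // key i = (j1, l1)}, j0 i = j1 ∧ l i = l1 := by
      rintro ⟨i, hi⟩
      rw [hkey, Prod.mk.injEq] at hi
      exact hi
    have hlj : ∀ (i : {i // key i = (j1, l1)}) (j : Fin m), j ≠ j1 → l1 j = ll i j := by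
      intro i j hj
      obtain ⟨h1, h2⟩ := hkk i
      have h3 : l1 j = l i j := (congrFun h2 j).symm
      rw [h3]
      simp only [hl]
      rw [if_neg]
      rw [h1]
      exact hj
    have h1 := hcls δ hδ hδ1 {i // key i = (j1, l1)} (fun i => a i) (fun i => e i)
      (fun i => he i) (fun i i' hii => hsep i i' (fun h => hii (Subtype.ext h))) j1 l1
      (fun i => by
        have := hj0 i
        rw [(hkk i).1] at this
        exact this)
      (fun i j hj => by rw [hlj i j hj]; exact hll1 i j)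
      (fun j hj => by
        have h2 := hlj ⟨i1, hi1.2⟩ j hj
        rcases hll2 i1 j with h3 | h3
        · left
          rw [h2]
          exact h3
        · by_cases h4 : l1 j = 0
          · exact Or.inl h4
          · right
            intro i
            rw [hlj i j hj]
            rcases hll2 i j with h5 | h5
            · exact absurd (by rw [hlj i j hj]; exact h5) h4
            · exact h5)
      A hA lam hlam (fun i j => hden i j) v hv
    have h2 : (Finset.univ.filter (fun i => key i = (j1, l1))).card =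
        Fintype.card {i // key i = (j1, l1)} := by
      rw [Fintype.card_subtype]
    rw [h2]
    set n1 : ℝ := (Fintype.card {i // key i = (j1, l1)} : ℝ) with hn1
    have hn10 : 0 ≤ n1 := Nat.cast_nonneg _
    set Q : ℝ := ∏ j ∈ Finset.univ.erase j1,
      min ((2 ^ l1 j * lam) ^ (-(1 - κ))) ((2 ^ l1 j * lam) ^ (κ * d j)) with hQ
    have hQ0 : 0 < Q := Finset.prod_pos fun j _ => by positivity
    have h3 : n1 ^ κ ≤ C * V / W * Q := by
      have h4 : n1 ^ κ * W ≤ C * V * Q := by
        rw [hW, ← mul_assoc]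
        exact h1
      calc n1 ^ κ = n1 ^ κ * W / W := by field_simp
        _ ≤ C * V * Q / W := by gcongr
        _ = _ := by ring
    have h5 : n1 ≤ M * Q ^ (1 / κ) := by
      have h6 := Real.rpow_le_rpow (by positivity) h3 (by positivity : 0 ≤ 1 / κ)
      rw [← Real.rpow_mul hn10, mul_one_div_cancel hκ0.ne', Real.rpow_one,
        Real.mul_rpow (by positivity) hQ0.le] at h6
      exact h6
    refine h5.trans (le_of_eq ?_)
    congr 1
    rw [hQ, ← Real.finsetProd_rpow _ _ (fun j _ => by positivity),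
      ← Finset.mul_prod_erase _ _ (Finset.mem_univ j1)]
    have hl10 : l1 j1 = 0 := by
      rw [← hi1'.2]
      simp only [hl]
      rw [if_pos hi1'.1.symm]
    have e1 : G j1 j1 (l1 j1) = 1 := by
      simp only [hG, if_pos, hl10]
    simp only
    rw [e1, one_mul]
    apply Finset.prod_congr rfl
    intro j hj
    have hj' : j ≠ j1 := (Finset.mem_erase.1 hj).1
    simp only [hG, if_neg hj', hp]
    exact min_rpow' (by positivity) hκ0
  -- the sum
  have hN : (Fintype.card ι : ℝ) ≤ m * BB * M := by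
    have h1 : (Fintype.card ι : ℝ) =
        ∑ q ∈ J, ((Finset.univ.filter (fun i => key i = q)).card : ℝ) := by
      rw [← Finset.card_univ]
      exact_mod_cast Finset.card_eq_sum_card_fiberwise (fun i _ => hkeyJ i)
    rw [h1]
    calc ∑ q ∈ J, ((Finset.univ.filter (fun i => key i = q)).card : ℝ)
        ≤ ∑ q ∈ J, M * ∏ j, G q.1 j (q.2 j) := Finset.sum_le_sum hfib
      _ = ∑ j1 : Fin m, M * ∏ j, ∑ k ∈ Finset.range L, G j1 j k := by
          rw [hJ, Finset.sum_product]
          apply Finset.sum_congr rfl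
          intro j1 _
          rw [← Finset.mul_sum, Finset.prod_univ_sum]
      _ ≤ ∑ j1 : Fin m, M * BB := by
          apply Finset.sum_le_sum
          intro j1 _
          apply mul_le_mul_of_nonneg_left _ hM0.le
          rw [hBB]
          apply Finset.prod_le_prod
          · intro j _
            exact Finset.sum_nonneg fun k _ => hG0 _ _ _
          · intro j _
            by_cases hj : j = j1
            · simp only [hG, if_pos hj]
              rw [Finset.sum_ite_eq' (Finset.range L) 0 (fun _ => (1:ℝ)), if_pos (Finset.mem_range.2 hL1)]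
              exact le_max_left _ _
            · simp only [hG, if_neg hj]
              refine le_trans ?_ (le_max_right _ _)
              exact hsum j L lam hlam
      _ = m * BB * M := by
          rw [Finset.sum_const, Finset.card_univ, Fintype.card_fin, nsmul_eq_mul]
          ring
  have hfin := Real.rpow_le_rpow (by positivity) hN hκ0.le
  rw [Real.mul_rpow (by positivity) hM0.le, hM, ← Real.rpow_mul (by positivity),
    one_div_mul_cancel hκ0.ne', Real.rpow_one] at hfin
  rw [mul_assoc, ← hW]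
  calc (Fintype.card ι : ℝ) ^ κ * W ≤ (m * BB) ^ κ * (C * V / W) * W := by gcongr
    _ = _ := by field_simp

end Pool.Agent.Helper37.Pt
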