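import Pool.Agent.Helper37.Pt.Levels

set_option autoImplicit false
set_option linter.unusedSectionVars false

/-!
Tubes and functions of product type.
-/

open MeasureTheory Set Filter Topology ENNReal NNReal Metric

namespace Pool.Agent.Helper37.Pt

theorem lint_pi : ∀ (m : ℕ) (α : Fin m → Type) [∀ j, MeasurableSpace (α j)]
    (μ : ∀ j, Measure (α j)) [∀ j, SigmaFinite (μ j)] (h : ∀ j, α j → ℝ≥0∞),
    (∀ j, Measurable (h j)) →
    ∫⁻ x, ∏ j, h j (x j) ∂(Measure.pi μ) = ∏ j, ∫⁻ y, h j y ∂(μ j) := by
  intro m
  induction m with
  | zero =>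
    intro α _ μ _ h hh
    simp only [Finset.univ_eq_empty, Finset.prod_empty, lintegral_one]
    rw [Measure.pi_of_empty μ (fun j => Fin.elim0 j)]
    simp
  | succ m ih =>
    intro α _ μ _ h hh
    have hmp := measurePreserving_piFinSuccAbove μ 0
    have hmeas : Measurable (fun p : α 0 × (∀ j : Fin m, α (Fin.succAbove 0 j)) =>
        h 0 p.1 * ∏ j, h (Fin.succAbove 0 j) (p.2 j)) := by
      refine Measurable.mul ((hh 0).comp measurable_fst) ?_
      refine Finset.measurable_prod _ fun j _ => ?_
      exact (hh _).comp ((measurable_pi_apply j).comp measurable_snd)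
    have h1 := hmp.lintegral_comp hmeas
    have h2 : ∀ x : (∀ j, α j), h 0 (MeasurableEquiv.piFinSuccAbove α 0 x).1 *
        ∏ j, h (Fin.succAbove 0 j) ((MeasurableEquiv.piFinSuccAbove α 0 x).2 j) =
        ∏ j, h j (x j) := by
      intro x
      rw [Fin.prod_univ_succAbove _ 0]
      rfl
    simp only [h2] at h1
    have hg : Measurable (fun y : (∀ j : Fin m, α (Fin.succAbove 0 j)) =>
        ∏ j, h (Fin.succAbove 0 j) (y j)) :=
      Finset.measurable_prod _ fun j _ => (hh _).comp (measurable_pi_apply j)
    have h3 := lintegral_prod_mul (μ := μ 0) (ν := Measure.pi fun j => μ (Fin.succAbove 0 j))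
      (hh 0).aemeasurable hg.aemeasurable
    have h4 := ih (fun j => α (Fin.succAbove 0 j)) (fun j => μ (Fin.succAbove 0 j))
      (fun j => h (Fin.succAbove 0 j)) (fun j => hh _)
    refine h1.trans (h3.trans ?_)
    rw [h4, Fin.prod_univ_succAbove _ 0]

theorem lint_prod {m : ℕ} {d : Fin m → ℕ} {h : ∀ j, E (d j) → ℝ≥0∞} (hh : ∀ j, Measurable (h j)) :
    ∫⁻ x : PiLp 2 (fun j : Fin m => E (d j)), ∏ j, h j (x j) = ∏ j, ∫⁻ y, h j y := by
  have hm : Measurable (fun x : PiLp 2 (fun j : Fin m => E (d j)) => ∏ j, h j (x j)) := by
    refine Finset.measurable_prod _ fun j _ => ?_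
    have h1 : Continuous (fun x : PiLp 2 (fun j => E (d j)) => x j) := by fun_prop
    exact (hh j).comp h1.measurable
  rw [← map_toLp, lintegral_map hm (WithLp.measurable_toLp 2 _)]
  exact lint_pi m (fun j => E (d j)) (fun j => volume) h hh

/-- The integral of a function of product type over a tube is controlled by the local averages
along the axis. -/
theorem upper_f {m : ℕ} {d : Fin m → ℕ} {δ : ℝ} (hδ : 0 < δ) (hδ1 : δ < 1)
    {a e : PiLp 2 (fun j : Fin m => E (d j))} (he : ‖e‖ = 1) {f : ∀ j, E (d j) → ℝ≥0∞}
    (hf : ∀ j, Measurable (f j)) :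
    ENNReal.ofReal δ * ∫⁻ x in tube δ a e, ∏ j, f j (x j) ≤
      ∫⁻ t in Icc (-1:ℝ) 1, ∏ j, ∫⁻ y in closedBall (a j + t • e j) (2 * δ), f j y := by
  set h : PiLp 2 (fun j : Fin m => E (d j)) → ℝ≥0∞ := fun x => ∏ j, f j (x j) with hh
  have hhm : Measurable h := by
    refine Finset.measurable_prod _ fun j _ => ?_
    have h1 : Continuous (fun x : PiLp 2 (fun j => E (d j)) => x j) := by fun_prop
    exact (hf j).comp h1.measurable
  set U : Set (PiLp 2 (fun j : Fin m => E (d j))) := tube δ a e with hU
  have hUm : MeasurableSet U := (isClosed_tube δ a e).measurableSet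
  set H : Set (PiLp 2 (fun j : Fin m => E (d j))) := closedBall 0 (2 * δ) with hH
  have hHm : MeasurableSet H := measurableSet_closedBall
  have hjm : Measurable (fun p : PiLp 2 (fun j : Fin m => E (d j)) × ℝ =>
      U.indicator h p.1 * H.indicator (fun _ => (1:ℝ≥0∞)) (p.1 - (a + p.2 • e))) := by
    refine Measurable.mul ?_ ?_
    · exact (hhm.indicator hUm).comp measurable_fst
    · refine (measurable_const.indicator hHm).comp ?_
      fun_prop
  calc ENNReal.ofReal δ * ∫⁻ x in U, h x
      = ∫⁻ y, ENNReal.ofReal δ * U.indicator h y := by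
        rw [lintegral_const_mul _ (hhm.indicator hUm), lintegral_indicator hUm]
    _ ≤ ∫⁻ y, ∫⁻ t in Icc (-1:ℝ) 1, U.indicator h y *
          H.indicator (fun _ => (1:ℝ≥0∞)) (y - (a + t • e)) := by
        apply lintegral_mono
        intro y
        show ENNReal.ofReal δ * U.indicator h y ≤ ∫⁻ t in Icc (-1:ℝ) 1,
          U.indicator h y * H.indicator (fun _ => (1:ℝ≥0∞)) (y - (a + t • e))
        have hHt : Measurable (fun t : ℝ => H.indicator (fun _ => (1:ℝ≥0∞)) (y - (a + t • e))) := by
          refine (measurable_const.indicator hHm).comp ?_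
          fun_prop
        rw [lintegral_const_mul _ hHt, mul_comm]
        by_cases hy : y ∈ U
        · refine mul_le_mul' le_rfl ?_
          set s : ℝ := inner ℝ (y - a) e with hs
          have hs1 : |s| ≤ 1 / 2 := hy.1
          have hperp : ‖(y - a) - s • e‖ ≤ δ := hy.2
          obtain ⟨s0, hs0, hsub⟩ : ∃ s0 : ℝ, (∀ t ∈ Icc s0 (s0 + δ), |t - s| ≤ δ) ∧
              Icc s0 (s0 + δ) ⊆ Icc (-1:ℝ) 1 := by
            rw [abs_le] at hs1
            rcases le_total 0 s with h | h
            · refine ⟨s - δ, ?_, ?_⟩
              · rintro t ⟨h1, h2⟩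
                rw [abs_le]
                constructor <;> linarith
              · rintro t ⟨h1, h2⟩
                constructor <;> linarith
            · refine ⟨s, ?_, ?_⟩
              · rintro t ⟨h1, h2⟩
                rw [abs_le]
                constructor <;> linarith
              · rintro t ⟨h1, h2⟩
                constructor <;> linarith
          calc ENNReal.ofReal δ = ∫⁻ t in Icc s0 (s0 + δ), (1:ℝ≥0∞) := by
                rw [setLIntegral_one, Real.volume_Icc]
                congr 1
                ring
            _ ≤ ∫⁻ t in Icc s0 (s0 + δ), H.indicator (fun _ => (1:ℝ≥0∞)) (y - (a + t • e)) := by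
                apply setLIntegral_mono' measurableSet_Icc
                intro t ht
                have hmem : y - (a + t • e) ∈ H := by
                  rw [hH, mem_closedBall_zero_iff]
                  have e1 : y - (a + t • e) = ((y - a) - s • e) + (s - t) • e := by
                    rw [sub_smul]; abel
                  rw [e1]
                  refine (norm_add_le _ _).trans ?_
                  rw [norm_smul, he, mul_one, Real.norm_eq_abs, abs_sub_comm]
                  have := hs0 t ht
                  linarith
                rw [indicator_of_mem hmem]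
            _ ≤ ∫⁻ t in Icc (-1:ℝ) 1, H.indicator (fun _ => (1:ℝ≥0∞)) (y - (a + t • e)) :=
                lintegral_mono_set hsub
        · rw [indicator_of_notMem hy, zero_mul]
          exact zero_le
    _ = ∫⁻ t in Icc (-1:ℝ) 1, ∫⁻ y, U.indicator h y *
          H.indicator (fun _ => (1:ℝ≥0∞)) (y - (a + t • e)) :=
        lintegral_lintegral_swap hjm.aemeasurable
    _ ≤ _ := by
        apply lintegral_mono
        intro t
        show ∫⁻ y, U.indicator h y * H.indicator (fun _ => (1:ℝ≥0∞)) (y - (a + t • e)) ≤
          ∏ j, ∫⁻ y in closedBall (a j + t • e j) (2 * δ), f j y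
        have h1 : ∀ j, ∫⁻ y in closedBall (a j + t • e j) (2 * δ), f j y =
            ∫⁻ y, (closedBall (a j + t • e j) (2 * δ)).indicator (f j) y := fun j =>
          (lintegral_indicator measurableSet_closedBall _).symm
        simp only [h1]
        rw [← lint_prod fun j => (hf j).indicator measurableSet_closedBall]
        apply lintegral_mono
        intro y
        show U.indicator h y * H.indicator (fun _ => (1:ℝ≥0∞)) (y - (a + t • e)) ≤
          ∏ j, (closedBall (a j + t • e j) (2 * δ)).indicator (f j) (y j)
        by_cases hy2 : y - (a + t • e) ∈ H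
        · rw [indicator_of_mem hy2, mul_one]
          refine (indicator_le_self' (fun _ _ => zero_le) y).trans ?_
          rw [hh]
          apply Finset.prod_le_prod'
          intro j _
          have hmem : y j ∈ closedBall (a j + t • e j) (2 * δ) := by
            rw [mem_closedBall, dist_eq_norm]
            rw [hH, mem_closedBall_zero_iff] at hy2
            refine le_trans ?_ hy2
            exact PiLp.norm_apply_le (y - (a + t • e)) j
          rw [indicator_of_mem hmem]
        · rw [indicator_of_notMem hy2, mul_zero]
          exact zero_le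

end Pool.Agent.Helper37.Pt
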