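import Pool.Agent.Helper37.Pt.Tests
import Pool.Agent.Helper37.Pt.Fun1

set_option autoImplicit false
set_option linter.unusedSectionVars false

/-!
Duality, and a single factor.
-/

open MeasureTheory Set Filter Topology ENNReal NNReal Metric

namespace Pool.Agent.Helper37.Pt

theorem sum_ind_ofReal {n : ℕ} {ι : Type} [Fintype ι] (δ : ℝ) (a e : ι → E n) (x : E n) :
    ‖∑ i, (tube δ (a i) (e i)).indicator (fun _ => (1:ℝ)) x‖ₑ =
      ∑ i, (tube δ (a i) (e i)).indicator (fun _ => (1:ℝ≥0∞)) x := by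
  rw [Real.enorm_of_nonneg (Finset.sum_nonneg fun i _ =>
    Set.indicator_nonneg (fun _ _ => zero_le_one) _),
    ENNReal.ofReal_sum_of_nonneg fun i _ => Set.indicator_nonneg (fun _ _ => zero_le_one) _]
  refine Finset.sum_congr rfl fun i _ => ?_
  by_cases hx : x ∈ tube δ (a i) (e i)
  · rw [Set.indicator_of_mem hx, Set.indicator_of_mem hx, ENNReal.ofReal_one]
  · rw [Set.indicator_of_notMem hx, Set.indicator_of_notMem hx, ENNReal.ofReal_zero]

/-- Hölder's inequality: the tests on functions. -/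
theorem fun_of_tub {n : ℕ} {q : ℝ} (hq : 1 < q) (h : Tub n q) :
    ∃ C : ℝ, 0 < C ∧ ∀ g : E n → ℝ≥0∞, Measurable g → ∀ δ : ℝ, 0 < δ → δ < 1 →
      ∀ (ι : Type) [Fintype ι] (a e : ι → E n), (∀ i, ‖e i‖ = 1) →
      (∀ i j, i ≠ j → δ ≤ ‖e i - e j‖) →
      ∫⁻ x, g x * ∑ i, (tube δ (a i) (e i)).indicator (fun _ => (1:ℝ≥0∞)) x ≤
        ENNReal.ofReal (C * δ ^ (((n : ℝ) - 1) / q) *
          (Fintype.card ι : ℝ) ^ (1 - 1 / (q * ((n : ℝ) - 1)))) *
          (∫⁻ x, g x ^ (q / (q - 1))) ^ (1 - 1 / q) := by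
  obtain ⟨C, hC, h⟩ := h
  refine ⟨C, hC, ?_⟩
  intro g hg δ hδ hδ1 ι _ a e he hsep
  have hq0 : 0 < q := by linarith
  have hq1 : 0 < q - 1 := by linarith
  set P : ℝ := q / (q - 1) with hP
  have hP0 : 0 < P := by positivity
  have hpq : Real.HolderConjugate q P := by
    rw [Real.holderConjugate_iff]
    refine ⟨hq, ?_⟩
    rw [hP]
    field_simp
    ring
  have hTm : ∀ i, MeasurableSet (tube δ (a i) (e i)) := fun i => (isClosed_tube _ _ _).measurableSet
  set F : E n → ℝ≥0∞ := fun x => ∑ i, (tube δ (a i) (e i)).indicator (fun _ => (1:ℝ≥0∞)) x with hF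
  have hFm : Measurable F := Finset.measurable_sum _ fun i _ => measurable_const.indicator (hTm i)
  have hnorm : (∫⁻ x, F x ^ q) ^ (1 / q) ≤
      ENNReal.ofReal (C * δ ^ (((n : ℝ) - 1) / q) *
        (Fintype.card ι : ℝ) ^ (1 - 1 / (q * ((n : ℝ) - 1)))) := by
    have h1 := h δ hδ hδ1 ι a e he hsep
    rw [eLpNorm_eq_lintegral_rpow_enorm_toReal (by
      rw [ne_eq, ENNReal.ofReal_eq_zero, not_le]; exact hq0) ENNReal.ofReal_ne_top,
      ENNReal.toReal_ofReal hq0.le] at h1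
    refine le_trans (le_of_eq ?_) h1
    congr 1
    apply lintegral_congr
    intro x
    rw [sum_ind_ofReal]
  have hhol := ENNReal.lintegral_mul_le_Lp_mul_Lq volume hpq hFm.aemeasurable hg.aemeasurable
  have e9 : 1 - 1 / q = 1 / P := by
    rw [hP]
    field_simp
  rw [e9]
  have e10 : ∫⁻ x, g x * F x = ∫⁻ x, (F * g) x := by
    apply lintegral_congr
    intro x
    rw [Pi.mul_apply, mul_comm]
  rw [e10]
  exact hhol.trans (mul_le_mul' hnorm le_rfl)

/-- Duality. -/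
theorem tub_of_fun {n : ℕ} {q C : ℝ} (hq : 1 < q) (hC : 0 < C)
    (h : ∀ g : E n → ℝ≥0∞, Measurable g → ∀ δ : ℝ, 0 < δ → δ < 1 →
      ∀ (ι : Type) [Fintype ι] (a e : ι → E n), (∀ i, ‖e i‖ = 1) →
      (∀ i j, i ≠ j → δ ≤ ‖e i - e j‖) →
      ∫⁻ x, g x * ∑ i, (tube δ (a i) (e i)).indicator (fun _ => (1:ℝ≥0∞)) x ≤
        ENNReal.ofReal (C * δ ^ (((n : ℝ) - 1) / q) *
          (Fintype.card ι : ℝ) ^ (1 - 1 / (q * ((n : ℝ) - 1)))) *
          (∫⁻ x, g x ^ (q / (q - 1))) ^ (1 - 1 / q)) : Tub n q := by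
  refine ⟨C, hC, ?_⟩
  intro δ hδ hδ1 ι _ a e he hsep
  have hq0 : 0 < q := by linarith
  have hq1 : 0 < q - 1 := by linarith
  have hTm : ∀ i, MeasurableSet (tube δ (a i) (e i)) := fun i => (isClosed_tube _ _ _).measurableSet
  set F : E n → ℝ≥0∞ := fun x => ∑ i, (tube δ (a i) (e i)).indicator (fun _ => (1:ℝ≥0∞)) x with hF
  have hFm : Measurable F := Finset.measurable_sum _ fun i _ => measurable_const.indicator (hTm i)
  have h1 := h (fun x => F x ^ (q - 1)) (hFm.pow_const _) δ hδ hδ1 ι a e he hsep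
  set M : ℝ≥0∞ := ENNReal.ofReal (C * δ ^ (((n : ℝ) - 1) / q) *
        (Fintype.card ι : ℝ) ^ (1 - 1 / (q * ((n : ℝ) - 1)))) with hM
  have e1 : ∫⁻ x, F x ^ (q - 1) * F x = ∫⁻ x, F x ^ q := by
    apply lintegral_congr
    intro x
    have := ENNReal.rpow_add_of_nonneg (x := F x) (q - 1) 1 hq1.le zero_le_one
    rw [sub_add_cancel, ENNReal.rpow_one] at this
    exact this.symm
  have e2 : ∫⁻ x, (F x ^ (q - 1)) ^ (q / (q - 1)) = ∫⁻ x, F x ^ q := by
    apply lintegral_congr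
    intro x
    rw [← ENNReal.rpow_mul]
    congr 1
    field_simp
  have h1' : ∫⁻ x, F x ^ (q - 1) * F x ≤ M * (∫⁻ x, (F x ^ (q - 1)) ^ (q / (q - 1))) ^ (1 - 1 / q) :=
    h1
  rw [e1, e2] at h1'
  set A : ℝ≥0∞ := ∫⁻ x, F x ^ q with hA
  have hAfin : A ≠ ∞ := by
    have hFN : ∀ x, F x ≤ (Fintype.card ι : ℝ≥0∞) := by
      intro x
      calc F x ≤ ∑ i : ι, (1:ℝ≥0∞) := by
            apply Finset.sum_le_sum
            intro i _
            exact indicator_le_self' (fun _ _ => zero_le) x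
        _ = _ := by rw [Finset.sum_const, Finset.card_univ, nsmul_eq_mul, mul_one]
    have hU : Bornology.IsBounded (⋃ i, tube δ (a i) (e i)) := by
      rw [Bornology.isBounded_iUnion]
      intro i
      refine (isBounded_iff_subset_closedBall (a i)).2 ⟨2, ?_⟩
      intro x hx
      rw [mem_closedBall, dist_eq_norm]
      have e1 : x - a i = ((x - a i) - (inner ℝ (x - a i) (e i) : ℝ) • e i) +
        (inner ℝ (x - a i) (e i) : ℝ) • e i := by abel
      rw [e1]
      refine (norm_add_le _ _).trans ?_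
      rw [norm_smul, he i, mul_one, Real.norm_eq_abs]
      have := hx.1
      have := hx.2
      linarith
    have hUm : MeasurableSet (⋃ i, tube δ (a i) (e i)) := MeasurableSet.iUnion hTm
    have h2 : A ≤ ∫⁻ x, (⋃ i, tube δ (a i) (e i)).indicator
        (fun _ => (Fintype.card ι : ℝ≥0∞) ^ q) x := by
      apply lintegral_mono
      intro x
      show F x ^ q ≤ (⋃ i, tube δ (a i) (e i)).indicator (fun _ => (Fintype.card ι : ℝ≥0∞) ^ q) x
      by_cases hx : x ∈ ⋃ i, tube δ (a i) (e i)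
      · rw [indicator_of_mem hx]
        exact ENNReal.rpow_le_rpow (hFN x) hq0.le
      · rw [indicator_of_notMem hx]
        rw [mem_iUnion] at hx
        push Not at hx
        have : F x = 0 := Finset.sum_eq_zero fun i _ => indicator_of_notMem (hx i) _
        rw [this, ENNReal.zero_rpow_of_pos hq0]
    refine (h2.trans_lt ?_).ne
    rw [lintegral_indicator hUm, setLIntegral_const]
    exact ENNReal.mul_lt_top (ENNReal.rpow_lt_top_of_nonneg hq0.le (ENNReal.natCast_ne_top _))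
      hU.measure_lt_top
  have h3 : A ^ (1 / q) ≤ M := by
    by_cases hA0 : A = 0
    · rw [hA0, ENNReal.zero_rpow_of_pos (by positivity)]
      exact zero_le
    have e3 : A = A ^ (1 / q) * A ^ (1 - 1 / q) := by
      rw [← ENNReal.rpow_add _ _ hA0 hAfin]
      simp
    have hne : A ^ (1 - 1 / q) ≠ 0 := by
      rw [ne_eq, ENNReal.rpow_eq_zero_iff]
      push Not
      exact ⟨fun h => absurd h hA0, fun h => absurd h hAfin⟩
    have hne' : A ^ (1 - 1 / q) ≠ ∞ := ENNReal.rpow_ne_top_of_ne_zero hA0 hAfin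
    have h4 : A ^ (1 / q) * A ^ (1 - 1 / q) ≤ M * A ^ (1 - 1 / q) := by
      rw [← e3]
      exact h1'
    exact (ENNReal.mul_le_mul_iff_left hne hne').1 h4
  rw [eLpNorm_eq_lintegral_rpow_enorm_toReal (by
    rw [ne_eq, ENNReal.ofReal_eq_zero, not_le]; exact hq0) ENNReal.ofReal_ne_top,
    ENNReal.toReal_ofReal hq0.le]
  simp only [sum_ind_ofReal]
  exact h3

end Pool.Agent.Helper37.Pt
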