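import Pool.Agent.Helper37.Pt.PP2

set_option autoImplicit false
set_option linter.unusedSectionVars false

/-!
The estimate in one factor.
-/

open MeasureTheory Set Filter Topology ENNReal NNReal Metric
open scoped Pointwise

namespace Pool.Agent.Helper37.Pt

theorem tset_nonempty {X : Type} [NormedAddCommGroup X] [InnerProductSpace ℝ X] {A : Set X}
    {a e : X} {lam : ℝ} (hlam : 0 < lam) (h : ENNReal.ofReal lam ≤ volume (tset A a e)) :
    ∃ t : ℝ, t ∈ tset A a e := by
  by_contra hcon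
  push Not at hcon
  have : tset A a e = ∅ := eq_empty_of_forall_notMem hcon
  rw [this, measure_empty, nonpos_iff_eq_zero, ENNReal.ofReal_eq_zero] at h
  linarith

theorem vol_thick_ge {d : ℕ} {A : Set (E d)} {x : E d} (hx : x ∈ A) {δ : ℝ} (hδ : 0 < δ) {v : ℝ}
    (hv : volume (thickening δ A) ≤ ENNReal.ofReal v) : vb d ≤ v / δ ^ d := by
  have hvb := vb_pos d
  have h1 : ball x δ ⊆ thickening δ A := ball_subset_thickening hx δ
  have h2 := (measure_mono h1).trans hv
  rw [vol_ball x hδ] at h2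
  have h3 : 0 < v := by
    by_contra hcon
    rw [ENNReal.ofReal_of_nonpos (not_lt.1 hcon), nonpos_iff_eq_zero, ENNReal.ofReal_eq_zero] at h2
    have : 0 < δ ^ d * vb d := by positivity
    linarith
  rw [ENNReal.ofReal_le_ofReal_iff h3.le] at h2
  rw [le_div_iff₀ (by positivity)]
  linarith

/-- Scaling of the parameter sets. -/
theorem tset_scale {d : ℕ} {A : Set (E d)} {a f ω : E d} {ρ r : ℝ} (hρ : 0 < ρ) (hr0 : 0 < r)
    (hr1 : r ≤ 1) (hω : (ρ * r) • ω = f) :
    ENNReal.ofReal r * volume (tset A a f) ≤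
      volume (tset ((fun x : E d => ρ • x) ⁻¹' A) (ρ⁻¹ • a) ω) := by
  have h1 : r • tset A a f ⊆ tset ((fun x : E d => ρ • x) ⁻¹' A) (ρ⁻¹ • a) ω := by
    rintro _ ⟨t, ht, rfl⟩
    have ht1 : |t| ≤ 1 / 2 := ht.1
    refine ⟨?_, ?_⟩
    · show |r * t| ≤ 1 / 2
      rw [abs_mul, abs_of_pos hr0]
      have := abs_nonneg t
      nlinarith
    · show ρ • (ρ⁻¹ • a + (r * t) • ω) ∈ A
      rw [smul_add, smul_smul, mul_inv_cancel₀ hρ.ne', one_smul, smul_smul]
      have e1 : (ρ * (r * t)) • ω = t • f := by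
        rw [← hω, smul_smul]
        congr 1
        ring
      rw [e1]
      exact ht.2
  have h2 : volume (r • tset A a f) = ENNReal.ofReal r * volume (tset A a f) := by
    rw [Measure.addHaar_smul, Module.finrank_self, pow_one, abs_of_pos hr0]
  rw [← h2]
  exact measure_mono h1

theorem vol_thick_scale {d : ℕ} {A : Set (E d)} {ρ δ' δ : ℝ} (hρ : 0 < ρ) (h : ρ * δ' ≤ δ) {v : ℝ}
    (hv : volume (thickening δ A) ≤ ENNReal.ofReal v) :
    volume (thickening δ' ((fun x : E d => ρ • x) ⁻¹' A)) ≤ ENNReal.ofReal (v / ρ ^ d) := by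
  have h1 : thickening δ' ((fun x : E d => ρ • x) ⁻¹' A) ⊆ ρ⁻¹ • thickening δ A := by
    intro x hx
    rw [mem_thickening_iff] at hx
    obtain ⟨z, hz, hxz⟩ := hx
    rw [mem_inv_smul_set_iff₀ hρ.ne', mem_thickening_iff]
    refine ⟨ρ • z, hz, ?_⟩
    rw [dist_smul₀, Real.norm_of_nonneg hρ.le]
    calc ρ * dist x z < ρ * δ' := by gcongr
      _ ≤ δ := h
  refine (measure_mono h1).trans ?_
  rw [Measure.addHaar_smul, finrank_euclideanSpace_fin, abs_of_pos (by positivity)]
  calc ENNReal.ofReal (ρ⁻¹ ^ d) * volume (thickening δ A)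
      ≤ ENNReal.ofReal (ρ⁻¹ ^ d) * ENNReal.ofReal v := by gcongr
    _ = _ := by
        rw [← ENNReal.ofReal_mul (by positivity)]
        congr 1
        rw [inv_pow]
        field_simp

/-- The estimate in one factor. -/
theorem factor {d : ℕ} (hd : 1 ≤ d) {κ CP : ℝ} (hκ0 : 0 < κ) (hκ1 : κ < 1) (hCP : 0 < CP)
    (hP : PP d κ CP) {η : ℝ} (hη : 0 < η) (hη1 : η ≤ 1) :
    ∃ C : ℝ, 0 < C ∧ ∀ δ : ℝ, 0 < δ → ∀ (l : ℕ) (ι : Type) [Fintype ι] [Nonempty ι]
      (a f : ι → E d), (∀ i, ‖f i‖ ≤ 2 ^ l * δ) → (l = 0 ∨ ∀ i, 2 ^ l * δ < 2 * ‖f i‖) →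
      (∀ i j, i ≠ j → η * δ < ‖f i - f j‖) →
      ∀ A : Set (E d), MeasurableSet A → ∀ lam : ℝ, 0 < lam →
      (∀ i, ENNReal.ofReal lam ≤ volume (tset A (a i) (f i))) →
      ∀ v : ℝ, volume (thickening δ A) ≤ ENNReal.ofReal v →
      (Fintype.card ι : ℝ) ^ κ * lam ^ (κ * d) ≤
        C * min ((2 ^ l * lam) ^ (-(1 - κ))) ((2 ^ l * lam) ^ (κ * d)) * (v / δ ^ d) := by
  have hvb := vb_pos d
  have hd1 : (1:ℝ) ≤ d := by exact_mod_cast hd
  set K : ℕ := ⌈2 / η⌉₊ with hK
  have hKη : 2 / η ≤ K := Nat.le_ceil _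
  have hK0 : (0:ℝ) < K := lt_of_lt_of_le (by positivity) hKη
  set η' : ℝ := η / 8 with hη'
  have hη'0 : 0 < η' := by positivity
  set Ca : ℝ := (3 / η) ^ (κ * d) / vb d with hCa
  set Cb : ℝ := (2 * K) ^ κ * (CP * 2 ^ (1 + κ * ((d:ℝ) - 1)) / η' ^ ((d:ℝ) - 1)) with hCb
  have hCa0 : 0 < Ca := by positivity
  have hCb0 : 0 < Cb := by positivity
  refine ⟨Ca + Cb, by positivity, ?_⟩
  intro δ hδ l ι _ _ a f hf1 hf2 hsep A hA lam hlam hden v hv
  classical
  obtain ⟨i0⟩ := ‹Nonempty ι›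
  have hlam1 : lam ≤ 1 := lam_le_one (hden i0)
  obtain ⟨t0, ht0⟩ := tset_nonempty hlam (hden i0)
  have hvδ := vol_thick_ge ht0.2 hδ hv
  have hvδ0 : 0 < v / δ ^ d := lt_of_lt_of_le hvb hvδ
  have hv0 : 0 < v := by
    rcases div_pos_iff.1 hvδ0 with h | h
    · exact h.1
    · have : 0 < δ ^ d := by positivity
      linarith [h.2]
  set x : ℝ := 2 ^ l * lam with hx
  have hx0 : 0 < x := by positivity
  have hN0 : (0:ℝ) < Fintype.card ι := Nat.cast_pos.2 (Fintype.card_pos_iff.2 ⟨i0⟩)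
  set N : ℝ := (Fintype.card ι : ℝ) with hN
  have h2l : (1:ℝ) ≤ 2 ^ l := one_le_pow₀ (by norm_num)
  by_cases hx1 : x ≤ 1
  · -- few positions
    have hmin : min (x ^ (-(1 - κ))) (x ^ (κ * d)) = x ^ (κ * d) := by
      apply min_eq_right
      have h1 : x ^ (κ * d) ≤ 1 := Real.rpow_le_one hx0.le hx1 (by positivity)
      have h2 : 1 ≤ x ^ (-(1 - κ)) :=
        Real.one_le_rpow_of_pos_of_le_one_of_nonpos hx0 hx1 (by linarith)
      linarith
    rw [hmin]
    have hNle : N ≤ (3 * 2 ^ l / η) ^ d := by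
      have h1 := card_sep_le (Finset.univ : Finset ι) f (r := η * δ) (R := 2 ^ l * δ)
        (by positivity) (by positivity) (fun i _ j _ hij => (hsep i j hij).le) (fun i _ => hf1 i)
      rw [Finset.card_univ] at h1
      refine h1.trans ?_
      apply pow_le_pow_left₀ (by positivity)
      have e1 : 2 * (2 ^ l * δ) / (η * δ) = 2 * 2 ^ l / η := by field_simp
      rw [e1]
      have h2 : 1 ≤ 2 ^ l / η := by
        rw [le_div_iff₀ hη]
        linarith
      calc 1 + 2 * 2 ^ l / η ≤ 2 ^ l / η + 2 * 2 ^ l / η := by gcongr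
        _ = _ := by ring
    have h3 : N ^ κ ≤ (3 / η) ^ (κ * d) * (2 ^ l) ^ (κ * d) := by
      calc N ^ κ ≤ ((3 * 2 ^ l / η) ^ d) ^ κ := Real.rpow_le_rpow hN0.le hNle hκ0.le
        _ = (3 * 2 ^ l / η) ^ (κ * d) := by
            rw [← Real.rpow_natCast, ← Real.rpow_mul (by positivity), mul_comm κ]
        _ = _ := by
            rw [← Real.mul_rpow (by positivity) (by positivity)]
            congr 1
            ring
    calc N ^ κ * lam ^ (κ * d) ≤ (3 / η) ^ (κ * d) * (2 ^ l) ^ (κ * d) * lam ^ (κ * d) := by gcongr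
      _ = (3 / η) ^ (κ * d) / vb d * x ^ (κ * d) * vb d := by
          rw [hx, Real.mul_rpow (by positivity) hlam.le]
          field_simp
      _ ≤ (Ca + Cb) * x ^ (κ * d) * (v / δ ^ d) := by
          gcongr
          rw [← hCa]
          linarith
  · -- many positions
    rw [not_le] at hx1
    have hl : l ≠ 0 := by
      rintro rfl
      rw [hx, pow_zero, one_mul] at hx1
      linarith
    have hf2' : ∀ i, 2 ^ l * δ < 2 * ‖f i‖ := by
      rcases hf2 with h | h
      · exact absurd h hl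
      · exact h
    have hmin : min (x ^ (-(1 - κ))) (x ^ (κ * d)) = x ^ (-(1 - κ)) := by
      apply min_eq_left
      have h1 : 1 ≤ x ^ (κ * d) := Real.one_le_rpow hx1.le (by positivity)
      have h2 : x ^ (-(1 - κ)) ≤ 1 := Real.rpow_le_one_of_one_le_of_nonpos hx1.le (by linarith)
      linarith
    rw [hmin]
    set ρ : ℝ := 2 ^ l * δ with hρ
    have hρ0 : 0 < ρ := by positivity
    have hfpos : ∀ i, 0 < ‖f i‖ := fun i => by have := hf2' i; linarith
    set ω : ι → E d := fun i => ‖f i‖⁻¹ • f i with hω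
    have hω1 : ∀ i, ‖ω i‖ = 1 := by
      intro i
      rw [hω]
      simp only
      rw [norm_smul, norm_inv, norm_norm, inv_mul_cancel₀ (hfpos i).ne']
    have hfω : ∀ i, f i = ‖f i‖ • ω i := by
      intro i
      rw [hω]
      simp only
      rw [smul_smul, mul_inv_cancel₀ (hfpos i).ne', one_smul]
    set δ' : ℝ := η' / 2 ^ l with hδ'
    have hδ'0 : 0 < δ' := by positivity
    have hδ'1 : δ' < 1 := by
      rw [hδ', div_lt_one (by positivity), hη']
      linarith
    obtain ⟨S, hS1, hS2⟩ := exists_sep ω hδ'0.le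
    choose s hs1 hs2 using hS2
    -- the number of the elements
    have hcard : N ≤ (S.card : ℝ) * (2 * K * 2 ^ l) := by
      have h1 : (Finset.univ : Finset ι).card ≤ (S ×ˢ Finset.range (2 ^ l * K + 1)).card := by
        apply Finset.card_le_card_of_injOn (fun i => (s i, ⌊‖f i‖ * K / δ⌋₊))
        · intro i _
          simp only [Finset.coe_product, Set.mem_prod, Finset.mem_coe, Finset.mem_range]
          refine ⟨hs1 i, ?_⟩
          rw [Nat.lt_add_one_iff]
          apply Nat.floor_le_of_le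
          push_cast
          rw [div_le_iff₀ hδ]
          calc ‖f i‖ * K ≤ 2 ^ l * δ * K := by gcongr; exact hf1 i
            _ = _ := by ring
        · intro i _ j _ hij
          by_contra hne
          simp only [Prod.mk.injEq] at hij
          obtain ⟨hij1, hij2⟩ := hij
          have h3 := hsep i j hne
          have h4 : |‖f i‖ - ‖f j‖| ≤ δ / K := by
            have h5 : |‖f i‖ * K / δ - ‖f j‖ * K / δ| < 1 := by
              have ha := Nat.floor_le (a := ‖f i‖ * K / δ) (by positivity)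
              have hb := Nat.lt_floor_add_one (‖f i‖ * K / δ)
              have hc := Nat.floor_le (a := ‖f j‖ * K / δ) (by positivity)
              have hd := Nat.lt_floor_add_one (‖f j‖ * K / δ)
              rw [hij2] at ha hb
              rw [abs_lt]
              constructor <;> linarith
            have e1 : ‖f i‖ - ‖f j‖ = (‖f i‖ * K / δ - ‖f j‖ * K / δ) * (δ / K) := by
              field_simp
            rw [e1, abs_mul, abs_of_pos (by positivity : 0 < δ / K)]
            exact mul_le_of_le_one_left (by positivity) h5.le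
          have h6 : ‖ω i - ω j‖ ≤ 2 * δ' := by
            have ha := hs2 i
            have hb := hs2 j
            rw [hij1] at ha
            rw [← dist_eq_norm]
            refine (dist_triangle_right _ _ (ω (s j))).trans ?_
            linarith
          have h7 : ‖f i - f j‖ ≤ |‖f i‖ - ‖f j‖| + ‖f j‖ * ‖ω i - ω j‖ := by
            have e1 : f i - f j = (‖f i‖ - ‖f j‖) • ω i + ‖f j‖ • (ω i - ω j) := by
              rw [sub_smul, smul_sub, ← hfω i, ← hfω j]
              abel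
            calc ‖f i - f j‖ = ‖(‖f i‖ - ‖f j‖) • ω i + ‖f j‖ • (ω i - ω j)‖ := by rw [← e1]
              _ ≤ ‖(‖f i‖ - ‖f j‖) • ω i‖ + ‖‖f j‖ • (ω i - ω j)‖ := norm_add_le _ _
              _ = _ := by
                  rw [norm_smul (‖f i‖ - ‖f j‖) (ω i), hω1 i, norm_smul ‖f j‖ (ω i - ω j), mul_one,
                    Real.norm_eq_abs, norm_norm]
          have h8 : ‖f j‖ * ‖ω i - ω j‖ ≤ 2 ^ l * δ * (2 * δ') := by
            gcongr
            exact hf1 j
          have h9 : 2 ^ l * δ * (2 * δ') = η * δ / 4 := by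
            rw [hδ', hη']
            field_simp
            ring
          have h10 : δ / K ≤ η * δ / 2 := by
            rw [div_le_iff₀ hK0]
            have : 1 ≤ η / 2 * K := by
              calc (1:ℝ) = η / 2 * (2 / η) := by field_simp
                _ ≤ _ := by gcongr
            nlinarith
          have : 0 < η * δ := by positivity
          linarith
      rw [Finset.card_univ, Finset.card_product, Finset.card_range] at h1
      have h2 : N ≤ (S.card : ℝ) * (2 ^ l * K + 1) := by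
        rw [hN]
        exact_mod_cast h1
      refine h2.trans ?_
      have hK1 : (1:ℝ) ≤ K := by
        refine le_trans ?_ hKη
        rw [le_div_iff₀ hη]
        linarith
      have h3 : (1:ℝ) ≤ 2 ^ l * K := by nlinarith
      have h4 : (2:ℝ) ^ l * K + 1 ≤ 2 * K * 2 ^ l := by linarith
      exact mul_le_mul_of_nonneg_left h4 (Nat.cast_nonneg _)
    have hSne : Nonempty S := ⟨⟨s i0, hs1 i0⟩⟩
    -- the estimate for the directions
    set A' : Set (E d) := (fun x : E d => ρ • x) ⁻¹' A with hA'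
    have hA'm : MeasurableSet A' := (continuous_const_smul ρ).measurable hA
    have h11 := hP δ' hδ'0 hδ'1 S (fun i => ρ⁻¹ • a i) (fun i => ω i) (fun i => hω1 i)
      (fun i j hij => by
        rw [← dist_eq_norm]
        exact (hS1 i i.2 j j.2 (fun h => hij (Subtype.ext h))).le) A' hA'm (lam / 2) (by positivity)
      (by
        intro i
        have hr : ρ * (‖f i‖ / ρ) = ‖f i‖ := by field_simp
        have h12 := tset_scale (A := A) (a := a i) (f := f i) (ω := ω i) hρ0
          (r := ‖f i‖ / ρ) (div_pos (hfpos i) hρ0) (by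
            rw [div_le_one hρ0]; exact hf1 i) (by rw [hr]; exact (hfω i).symm)
        refine le_trans ?_ h12
        calc ENNReal.ofReal (lam / 2) = ENNReal.ofReal (1 / 2) * ENNReal.ofReal lam := by
              rw [← ENNReal.ofReal_mul (by norm_num)]
              congr 1
              ring
          _ ≤ ENNReal.ofReal (‖f i‖ / ρ) * volume (tset A (a i) (f i)) := by
              refine mul_le_mul' (ENNReal.ofReal_le_ofReal ?_) (hden i)
              rw [le_div_iff₀ hρ0]
              have := hf2' i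
              linarith)
      (v / ρ ^ d) (vol_thick_scale hρ0 (by
        rw [hρ, hδ', hη']
        have : 2 ^ l * δ * (η / 8 / 2 ^ l) = η / 8 * δ := by field_simp
        rw [this]
        nlinarith) hv)
    rw [Fintype.card_coe] at h11
    set M : ℝ := (S.card : ℝ) with hM
    have hM0 : 0 < M := by
      rw [hM]
      exact Nat.cast_pos.2 (Finset.card_pos.2 ⟨s i0, hs1 i0⟩)
    have h13 : N ^ κ ≤ M ^ κ * ((2 * K) ^ κ * (2 ^ l) ^ κ) := by
      calc N ^ κ ≤ (M * (2 * K * 2 ^ l)) ^ κ := Real.rpow_le_rpow hN0.le hcard hκ0.le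
        _ = _ := by
            rw [Real.mul_rpow hM0.le (by positivity), Real.mul_rpow (by positivity) (by positivity)]
    have h14 : M ^ κ * lam ^ (1 + κ * ((d:ℝ) - 1)) ≤
        CP * 2 ^ (1 + κ * ((d:ℝ) - 1)) / η' ^ ((d:ℝ) - 1) * (v / δ ^ d) / 2 ^ l := by
      have e1 : (lam / 2) ^ (1 + κ * ((d:ℝ) - 1)) =
          lam ^ (1 + κ * ((d:ℝ) - 1)) / 2 ^ (1 + κ * ((d:ℝ) - 1)) :=
        Real.div_rpow hlam.le (by norm_num) _
      have e2 : δ' ^ ((d:ℝ) - 1) = η' ^ ((d:ℝ) - 1) * 2 ^ l / 2 ^ (l * d) := by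
        rw [hδ', Real.div_rpow hη'0.le (by positivity), mul_div_assoc, div_eq_mul_inv]
        congr 1
        rw [Real.rpow_sub (by positivity), Real.rpow_one, Real.rpow_natCast, ← pow_mul, inv_div]
      have e3 : ρ ^ d = 2 ^ (l * d) * δ ^ d := by rw [hρ, mul_pow, ← pow_mul]
      rw [e1, e2, e3] at h11
      have hq1 : (0:ℝ) < 2 ^ (1 + κ * ((d:ℝ) - 1)) := by positivity
      have hq2 : (0:ℝ) < η' ^ ((d:ℝ) - 1) := by positivity
      have hq3 : (0:ℝ) < 2 ^ (l * d) := by positivity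
      have hq4 : (0:ℝ) < 2 ^ l := by positivity
      set Z : ℝ := 2 ^ (1 + κ * ((d:ℝ) - 1)) with hZ
      set Y : ℝ := η' ^ ((d:ℝ) - 1) with hY
      calc M ^ κ * lam ^ (1 + κ * ((d:ℝ) - 1))
          = (M ^ κ * (lam ^ (1 + κ * ((d:ℝ) - 1)) / Z) * (Y * 2 ^ l / 2 ^ (l * d))) *
            (Z * 2 ^ (l * d) / (Y * 2 ^ l)) := by field_simp
        _ ≤ (CP * (v / (2 ^ (l * d) * δ ^ d))) * (Z * 2 ^ (l * d) / (Y * 2 ^ l)) := by gcongr
        _ = _ := by field_simp
    have e4 : lam ^ (κ * d) = lam ^ (1 + κ * ((d:ℝ) - 1)) * lam ^ (-(1 - κ)) := by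
      rw [← Real.rpow_add hlam]
      congr 1
      ring
    have e5 : ((2:ℝ) ^ l) ^ κ / 2 ^ l = (2 ^ l) ^ (-(1 - κ)) := by
      rw [neg_sub, Real.rpow_sub (by positivity), Real.rpow_one]
    calc N ^ κ * lam ^ (κ * d)
        ≤ M ^ κ * ((2 * K) ^ κ * (2 ^ l) ^ κ) * lam ^ (κ * d) := by gcongr
      _ = (M ^ κ * lam ^ (1 + κ * ((d:ℝ) - 1))) * ((2 * K) ^ κ * (2 ^ l) ^ κ * lam ^ (-(1 - κ))) := by
          rw [e4]; ring
      _ ≤ (CP * 2 ^ (1 + κ * ((d:ℝ) - 1)) / η' ^ ((d:ℝ) - 1) * (v / δ ^ d) / 2 ^ l) *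
            ((2 * K) ^ κ * (2 ^ l) ^ κ * lam ^ (-(1 - κ))) := by gcongr
      _ = Cb * ((2 ^ l) ^ κ / 2 ^ l * lam ^ (-(1 - κ))) * (v / δ ^ d) := by
          rw [hCb]; ring
      _ = Cb * x ^ (-(1 - κ)) * (v / δ ^ d) := by
          rw [e5, hx, Real.mul_rpow (by positivity) hlam.le]
      _ ≤ (Ca + Cb) * x ^ (-(1 - κ)) * (v / δ ^ d) := by
          have h19 : Cb ≤ Ca + Cb := by linarith
          have h20 : 0 ≤ x ^ (-(1 - κ)) := (Real.rpow_pos_of_pos hx0 _).le
          exact mul_le_mul_of_nonneg_right (mul_le_mul_of_nonneg_right h19 h20) hvδ0.le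

end Pool.Agent.Helper37.Pt
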