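import Pool.Agent.Helper37.Pt.Fun1

set_option autoImplicit false
set_option linter.unusedSectionVars false

/-!
Tubes and functions of product type: level sets of the local averages.
-/

open MeasureTheory Set Filter Topology ENNReal NNReal Metric

namespace Pool.Agent.Helper37.Pt

theorem ball_int {d : ℕ} {f : E d → ℝ≥0∞} (x : E d) (r : ℝ) :
    ∫⁻ y in closedBall x r, f y =
      ∫⁻ y, f y * (closedBall (0 : E d) r).indicator (fun _ => (1:ℝ≥0∞)) (y - x) := by
  rw [← lintegral_indicator measurableSet_closedBall]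
  apply lintegral_congr
  intro y
  by_cases hy : y ∈ closedBall x r
  · have h5 : y - x ∈ closedBall (0 : E d) r := by
      rw [mem_closedBall_zero_iff, ← dist_eq_norm]; exact hy
    rw [indicator_of_mem hy, indicator_of_mem h5, mul_one]
  · have h5 : y - x ∉ closedBall (0 : E d) r := by
      rw [mem_closedBall_zero_iff, ← dist_eq_norm]; exact hy
    rw [indicator_of_notMem hy, indicator_of_notMem h5, mul_zero]

theorem measurable_jnt {d : ℕ} {f : E d → ℝ≥0∞} (hf : Measurable f) (r : ℝ) :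
    Measurable (fun p : E d × E d =>
      f p.2 * (closedBall (0 : E d) r).indicator (fun _ => (1:ℝ≥0∞)) (p.2 - p.1)) := by
  refine Measurable.mul (hf.comp measurable_snd) ?_
  refine (measurable_const.indicator measurableSet_closedBall).comp ?_
  fun_prop

theorem measurable_ball_int {d : ℕ} {f : E d → ℝ≥0∞} (hf : Measurable f) (r : ℝ) :
    Measurable (fun x : E d => ∫⁻ y in closedBall x r, f y) := by
  have h1 : (fun x : E d => ∫⁻ y in closedBall x r, f y) = fun x : E d =>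
      ∫⁻ y, f y * (closedBall (0 : E d) r).indicator (fun _ => (1:ℝ≥0∞)) (y - x) :=
    funext fun x => ball_int x r
  rw [h1]
  exact (measurable_jnt hf r).lintegral_prod_right'

/-- Tonelli. -/
theorem int_ball_int {d : ℕ} (hd : 1 ≤ d) {f : E d → ℝ≥0∞} (hf : Measurable f) {r : ℝ}
    (hr : 0 < r) :
    ∫⁻ x : E d, ∫⁻ y in closedBall x r, f y = ENNReal.ofReal (r ^ d * vb d) * ∫⁻ y, f y := by
  calc ∫⁻ x : E d, ∫⁻ y in closedBall x r, f y
      = ∫⁻ x : E d, ∫⁻ y : E d, f y *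
          (closedBall (0 : E d) r).indicator (fun _ => (1:ℝ≥0∞)) (y - x) :=
        lintegral_congr fun x => ball_int x r
    _ = ∫⁻ y : E d, ∫⁻ x : E d, f y *
          (closedBall (0 : E d) r).indicator (fun _ => (1:ℝ≥0∞)) (y - x) :=
        lintegral_lintegral_swap (measurable_jnt hf r).aemeasurable
    _ = ∫⁻ y : E d, f y * ENNReal.ofReal (r ^ d * vb d) := by
        apply lintegral_congr
        intro y
        have hmm : Measurable (fun x : E d => (closedBall (0 : E d) r).indicator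
            (fun _ => (1:ℝ≥0∞)) (y - x)) :=
          (measurable_const.indicator measurableSet_closedBall).comp (by fun_prop)
        rw [lintegral_const_mul _ hmm]
        congr 1
        rw [lintegral_sub_left_eq_self (fun x => (closedBall (0 : E d) r).indicator
          (fun _ => (1:ℝ≥0∞)) x) y, lintegral_indicator measurableSet_closedBall, setLIntegral_one,
          vol_cball hd _ hr]
    _ = _ := by rw [lintegral_mul_const _ hf, mul_comm]

/-- Jensen's inequality on a set. -/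
theorem jensen {α : Type} [MeasurableSpace α] {μ : Measure α} {f : α → ℝ≥0∞} (hf : Measurable f)
    {p : ℝ} (hp : 1 < p) (S : Set α) :
    (∫⁻ y in S, f y ∂μ) ^ p ≤ (∫⁻ y in S, f y ^ p ∂μ) * μ S ^ (p - 1) := by
  have hp0 : 0 < p := by linarith
  have hp1 : 0 < p - 1 := by linarith
  have hpq : Real.HolderConjugate p (p / (p - 1)) := by
    rw [Real.holderConjugate_iff]
    refine ⟨hp, ?_⟩
    field_simp
    ring
  have h1 := ENNReal.lintegral_mul_le_Lp_mul_Lq (μ.restrict S) hpq hf.aemeasurable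
    (measurable_const : Measurable (fun _ : α => (1:ℝ≥0∞))).aemeasurable
  have h2 : ∫⁻ a in S, (f * fun _ : α => (1:ℝ≥0∞)) a ∂μ = ∫⁻ y in S, f y ∂μ := by
    apply lintegral_congr
    intro y
    simp
  rw [h2] at h1
  have h3 : ∫⁻ _ in S, (1:ℝ≥0∞) ^ (p / (p - 1)) ∂μ = μ S := by
    simp
  rw [h3] at h1
  have h4 := ENNReal.rpow_le_rpow h1 hp0.le
  rw [ENNReal.mul_rpow_of_nonneg _ _ hp0.le, ← ENNReal.rpow_mul, ← ENNReal.rpow_mul,
    one_div_mul_cancel hp0.ne', ENNReal.rpow_one] at h4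
  have e1 : 1 / (p / (p - 1)) * p = p - 1 := by field_simp
  rw [e1] at h4
  exact h4

/-- The level sets of the local averages. -/
def levf {d : ℕ} (f : E d → ℝ≥0∞) (δ : ℝ) (k : ℤ) : Set (E d) :=
  {x | ENNReal.ofReal (2 ^ k) < ∫⁻ y in closedBall x (2 * δ), f y}

theorem measurableSet_levf {d : ℕ} {f : E d → ℝ≥0∞} (hf : Measurable f) (δ : ℝ) (k : ℤ) :
    MeasurableSet (levf f δ k) :=
  measurableSet_lt measurable_const (measurable_ball_int hf _)

/-- The neighbourhoods of the level sets. -/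
theorem vol_levf {d : ℕ} (hd : 1 ≤ d) {f : E d → ℝ≥0∞} (hf : Measurable f) {δ : ℝ} (hδ : 0 < δ)
    {p : ℝ} (hp : 1 < p) (k : ℤ) {φ : ℝ} (hφ : 0 ≤ φ) (hfφ : ∫⁻ y, f y ^ p = ENNReal.ofReal φ) :
    volume (thickening δ (levf f δ k)) ≤
      ENNReal.ofReal (((3 * δ) ^ d * vb d) ^ p * φ * ((2:ℝ) ^ k) ^ (-p)) := by
  have hvb := vb_pos d
  have hp0 : 0 < p := by linarith
  have h2k : (0:ℝ) < 2 ^ k := by positivity
  set b : ℝ := (3 * δ) ^ d * vb d with hb
  have hb0 : 0 < b := by positivity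
  have h1 : thickening δ (levf f δ k) ⊆
      {y | ENNReal.ofReal (((2:ℝ) ^ k) ^ p) ≤ (∫⁻ z in closedBall y (3 * δ), f z) ^ p} := by
    intro y hy
    rw [mem_thickening_iff] at hy
    obtain ⟨x, hx, hxy⟩ := hy
    have h2 : closedBall x (2 * δ) ⊆ closedBall y (3 * δ) := by
      intro z hz2
      rw [mem_closedBall] at hz2 ⊢
      rw [dist_comm] at hxy
      calc dist z y ≤ dist z x + dist x y := dist_triangle _ _ _
        _ ≤ _ := by linarith
    have h3 : ENNReal.ofReal (2 ^ k) ≤ ∫⁻ z in closedBall y (3 * δ), f z :=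
      (le_of_lt hx).trans (lintegral_mono_set h2)
    show ENNReal.ofReal (((2:ℝ) ^ k) ^ p) ≤ _
    rw [← ENNReal.ofReal_rpow_of_nonneg h2k.le hp0.le]
    exact ENNReal.rpow_le_rpow h3 hp0.le
  have hint : ∫⁻ y : E d, (∫⁻ z in closedBall y (3 * δ), f z) ^ p ≤ ENNReal.ofReal (b ^ p * φ) := by
    calc ∫⁻ y : E d, (∫⁻ z in closedBall y (3 * δ), f z) ^ p
        ≤ ∫⁻ y : E d, (∫⁻ z in closedBall y (3 * δ), f z ^ p) * ENNReal.ofReal (b ^ (p - 1)) := by
          apply lintegral_mono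
          intro y
          refine (jensen hf hp _).trans (le_of_eq ?_)
          rw [vol_cball hd y (by positivity), ENNReal.ofReal_rpow_of_pos hb0]
      _ = ENNReal.ofReal b * ENNReal.ofReal φ * ENNReal.ofReal (b ^ (p - 1)) := by
          rw [lintegral_mul_const _ (measurable_ball_int (hf.pow_const p) _),
            int_ball_int hd (hf.pow_const p) (by positivity), hfφ]
      _ = _ := by
          rw [← ENNReal.ofReal_mul hb0.le, ← ENNReal.ofReal_mul (by positivity)]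
          congr 1
          have : b ^ p = b * b ^ (p - 1) := by
            rw [Real.rpow_sub hb0, Real.rpow_one]
            field_simp
          rw [this]
          ring
  refine (measure_mono h1).trans ?_
  refine (meas_ge_le_lintegral_div ((measurable_ball_int hf _).pow_const p).aemeasurable
    (ENNReal.ofReal_pos.2 (by positivity)).ne' ENNReal.ofReal_ne_top).trans ?_
  refine (ENNReal.div_le_div_right hint _).trans ?_
  rw [← ENNReal.ofReal_div_of_pos (by positivity)]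
  apply ENNReal.ofReal_le_ofReal
  rw [Real.rpow_neg h2k.le, div_eq_mul_inv]

theorem ball_int_lt_top {d : ℕ} {f : E d → ℝ≥0∞} (hf : Measurable f) {p : ℝ}
    (hp : 1 < p) (hfφ : ∫⁻ y, f y ^ p ≠ ∞) (x : E d) (r : ℝ) :
    ∫⁻ y in closedBall x r, f y ≠ ∞ := by
  have hp0 : 0 < p := by linarith
  intro h
  have h1 := jensen (μ := volume) hf hp (closedBall x r)
  rw [h, ENNReal.top_rpow_of_pos hp0] at h1
  have h2 : (∫⁻ y in closedBall x r, f y ^ p) * volume (closedBall x r) ^ (p - 1) < ∞ := by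
    apply ENNReal.mul_lt_top
    · exact (setLIntegral_le_lintegral _ _).trans_lt hfφ.lt_top
    · exact ENNReal.rpow_lt_top_of_nonneg (by linarith) measure_closedBall_lt_top.ne
  exact absurd (h1.trans_lt h2) (lt_irrefl _)

/-- The pointwise decomposition. -/
theorem prod_le_tsum_f {m : ℕ} {d : Fin m → ℕ} (f : ∀ j, E (d j) → ℝ≥0∞) {δ : ℝ}
    (x : ∀ j, E (d j)) (hfin : ∀ j, ∫⁻ y in closedBall (x j) (2 * δ), f j y ≠ ∞) :
    ∏ j, ∫⁻ y in closedBall (x j) (2 * δ), f j y ≤
      ∑' k : Fin m → ℤ, ENNReal.ofReal (∏ j, (2:ℝ) ^ (k j + 1)) *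
        {y : ∀ j, E (d j) | ∀ j, y j ∈ levf (f j) δ (k j)}.indicator (fun _ => 1) x := by
  by_cases h0 : ∃ j, ∫⁻ y in closedBall (x j) (2 * δ), f j y = 0
  · obtain ⟨j, hj⟩ := h0
    rw [Finset.prod_eq_zero (Finset.mem_univ j) hj]
    exact zero_le
  push Not at h0
  have hex : ∀ j, ∃ k : ℤ, x j ∈ levf (f j) δ k ∧ ∫⁻ y in closedBall (x j) (2 * δ), f j y ≤
      ENNReal.ofReal ((2:ℝ) ^ (k + 1)) := by
    intro j
    set r : ℝ := (∫⁻ y in closedBall (x j) (2 * δ), f j y).toReal with hr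
    have hr0 : 0 < r := ENNReal.toReal_pos (h0 j) (hfin j)
    have hrv : ∫⁻ y in closedBall (x j) (2 * δ), f j y = ENNReal.ofReal r :=
      (ENNReal.ofReal_toReal (hfin j)).symm
    obtain ⟨k, hk1, hk2⟩ := exists_mem_Ioc_zpow (x := r) (y := (2:ℝ)) hr0 (by norm_num)
    refine ⟨k, ?_, ?_⟩
    · show ENNReal.ofReal (2 ^ k) < _
      rw [hrv, ENNReal.ofReal_lt_ofReal_iff hr0]
      exact hk1
    · rw [hrv]
      exact ENNReal.ofReal_le_ofReal hk2
  choose k hk1 hk2 using hex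
  refine le_trans ?_ (ENNReal.le_tsum k)
  have hmem : x ∈ {y : ∀ j, E (d j) | ∀ j, y j ∈ levf (f j) δ (k j)} := hk1
  rw [indicator_of_mem hmem, mul_one, ENNReal.ofReal_prod_of_nonneg (fun j _ => by positivity)]
  exact Finset.prod_le_prod' fun j _ => hk2 j

/-- Sums of products. -/
theorem tsum_prod_le {m : ℕ} (F : Fin m → ℤ → ℝ≥0∞) :
    ∑' k : Fin m → ℤ, ∏ j, F j (k j) ≤ ∏ j, ∑' k : ℤ, F j k := by
  classical
  rw [ENNReal.tsum_eq_iSup_sum]
  apply iSup_le
  intro s
  have hs : s ⊆ Fintype.piFinset (fun j : Fin m => s.image (fun k => k j)) := by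
    intro k hk
    rw [Fintype.mem_piFinset]
    intro j
    exact Finset.mem_image_of_mem _ hk
  calc ∑ k ∈ s, ∏ j, F j (k j)
      ≤ ∑ k ∈ Fintype.piFinset (fun j : Fin m => s.image (fun k => k j)), ∏ j, F j (k j) :=
        Finset.sum_le_sum_of_subset hs
    _ = ∏ j, ∑ k ∈ s.image (fun k => k j), F j k := by rw [Finset.prod_univ_sum]
    _ ≤ _ := Finset.prod_le_prod' fun j _ => ENNReal.sum_le_tsum _

theorem tsum_abs_le {r : ℝ} (h0 : 0 < r) (h1 : r < 1) :
    ∑' k : ℤ, ENNReal.ofReal (r ^ k.natAbs) ≤ ENNReal.ofReal (2 / (1 - r)) := by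
  have hg : ∑' n : ℕ, ENNReal.ofReal (r ^ n) = ENNReal.ofReal (1 / (1 - r)) := by
    rw [← ENNReal.ofReal_tsum_of_nonneg (fun n => by positivity)
      (summable_geometric_of_lt_one h0.le h1), tsum_geometric_of_lt_one h0.le h1, one_div]
  have h2 : HasSum (fun n : ℕ => ENNReal.ofReal (r ^ ((n : ℤ)).natAbs))
      (∑' n : ℕ, ENNReal.ofReal (r ^ ((n : ℤ)).natAbs)) := ENNReal.summable.hasSum
  have h3 : HasSum (fun n : ℕ => ENNReal.ofReal (r ^ (-((n : ℤ) + 1)).natAbs))
      (∑' n : ℕ, ENNReal.ofReal (r ^ (-((n : ℤ) + 1)).natAbs)) := ENNReal.summable.hasSum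
  rw [(HasSum.of_nat_of_neg_add_one h2 h3).tsum_eq]
  have h4 : ∑' n : ℕ, ENNReal.ofReal (r ^ ((n : ℤ)).natAbs) ≤ ENNReal.ofReal (1 / (1 - r)) := by
    rw [← hg]
    apply ENNReal.tsum_le_tsum
    intro n
    rw [Int.natAbs_natCast]
  have h5 : ∑' n : ℕ, ENNReal.ofReal (r ^ (-((n : ℤ) + 1)).natAbs) ≤
      ENNReal.ofReal (1 / (1 - r)) := by
    rw [← hg]
    apply ENNReal.tsum_le_tsum
    intro n
    apply ENNReal.ofReal_le_ofReal
    have e1 : (-((n : ℤ) + 1)).natAbs = n + 1 := by omega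
    rw [e1, pow_succ]
    exact mul_le_of_le_one_right (by positivity) h1.le
  have h6 : 0 < 1 - r := by linarith
  refine (add_le_add h4 h5).trans (le_of_eq ?_)
  rw [← ENNReal.ofReal_add (by positivity) (by positivity)]
  congr 1
  ring

/-- A two-sided geometric sum over the integers. -/
theorem geom_int {p ε : ℝ} (hp : 0 < p) (hε : 0 < ε) : ∃ C : ℝ, 0 < C ∧ ∀ y : ℝ, 0 < y →
    ∑' k : ℤ, ENNReal.ofReal (min ((y * ((2:ℝ) ^ k) ^ (-p)) ^ ε) ((y * ((2:ℝ) ^ k) ^ (-p)) ^ (-ε))) ≤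
      ENNReal.ofReal C := by
  set q : ℝ := (2:ℝ) ^ p with hq
  have hq1 : 1 < q := Real.one_lt_rpow (by norm_num) hp
  have hq0 : 0 < q := by linarith
  set r : ℝ := q ^ (-ε) with hr
  have hr0 : 0 < r := by positivity
  have hr1 : r < 1 := Real.rpow_lt_one_of_one_lt_of_neg hq1 (by linarith)
  have hr1' : 0 < 1 - r := by linarith
  refine ⟨r⁻¹ * (2 / (1 - r)), by positivity, ?_⟩
  intro y hy
  obtain ⟨k0, hk1, hk2⟩ := exists_mem_Ico_zpow (x := y) (y := q) hy hq1
  have hqk : ∀ k : ℤ, ((2:ℝ) ^ k) ^ (-p) = q ^ (-k) := by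
    intro k
    rw [hq, ← Real.rpow_intCast, ← Real.rpow_mul (by norm_num), ← Real.rpow_intCast,
      ← Real.rpow_mul (by norm_num)]
    congr 1
    push_cast
    ring
  have hterm : ∀ k : ℤ, min ((y * ((2:ℝ) ^ k) ^ (-p)) ^ ε) ((y * ((2:ℝ) ^ k) ^ (-p)) ^ (-ε)) ≤
      r⁻¹ * r ^ (k - k0).natAbs := by
    intro k
    rw [hqk]
    have hlo : q ^ (k0 - k) ≤ y * q ^ (-k) := by
      rw [sub_eq_add_neg, zpow_add₀ hq0.ne']
      gcongr
    have hhi : y * q ^ (-k) ≤ q ^ (k0 - k + 1) := by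
      have : k0 - k + 1 = (k0 + 1) + (-k) := by ring
      rw [this, zpow_add₀ hq0.ne']
      gcongr
    have hpos : 0 < y * q ^ (-k) := by positivity
    rcases le_or_gt k k0 with h | h
    · refine (min_le_right _ _).trans ?_
      have h1 : (y * q ^ (-k)) ^ (-ε) ≤ (q ^ (k0 - k)) ^ (-ε) :=
        Real.rpow_le_rpow_of_nonpos (by positivity) hlo (by linarith)
      have h2 : (q ^ (k0 - k)) ^ (-ε) = r ^ (k - k0).natAbs := by
        rw [hr, ← Real.rpow_intCast, ← Real.rpow_mul hq0.le, ← Real.rpow_natCast,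
          ← Real.rpow_mul hq0.le]
        congr 1
        have h3 : (((k - k0).natAbs : ℕ) : ℝ) = ((k0 - k : ℤ) : ℝ) := by
          have h4 : (((k - k0).natAbs : ℕ) : ℤ) = k0 - k := by omega
          rw [← h4, Int.cast_natCast]
        rw [h3]
        ring
      rw [h2] at h1
      refine h1.trans ?_
      exact le_mul_of_one_le_left (by positivity) (one_le_inv₀ hr0 |>.2 hr1.le)
    · refine (min_le_left _ _).trans ?_
      have h1 : (y * q ^ (-k)) ^ ε ≤ (q ^ (k0 - k + 1)) ^ ε :=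
        Real.rpow_le_rpow hpos.le hhi hε.le
      have h2 : (q ^ (k0 - k + 1)) ^ ε = r⁻¹ * r ^ (k - k0).natAbs := by
        have h5 : r⁻¹ = q ^ ε := by rw [hr, Real.rpow_neg hq0.le, inv_inv]
        rw [h5, hr, ← Real.rpow_intCast, ← Real.rpow_mul hq0.le, ← Real.rpow_natCast,
          ← Real.rpow_mul hq0.le, ← Real.rpow_add hq0]
        congr 1
        have h3 : (((k - k0).natAbs : ℕ) : ℝ) = ((k - k0 : ℤ) : ℝ) := by
          have h4 : (((k - k0).natAbs : ℕ) : ℤ) = k - k0 := by omega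
          rw [← h4, Int.cast_natCast, h4]
        rw [h3]
        push_cast
        ring
      rw [h2] at h1
      exact h1
  calc ∑' k : ℤ, ENNReal.ofReal
        (min ((y * ((2:ℝ) ^ k) ^ (-p)) ^ ε) ((y * ((2:ℝ) ^ k) ^ (-p)) ^ (-ε)))
      ≤ ∑' k : ℤ, ENNReal.ofReal r⁻¹ * ENNReal.ofReal (r ^ (k - k0).natAbs) := by
        apply ENNReal.tsum_le_tsum
        intro k
        rw [← ENNReal.ofReal_mul (by positivity)]
        exact ENNReal.ofReal_le_ofReal (hterm k)
    _ = ENNReal.ofReal r⁻¹ * ∑' k : ℤ, ENNReal.ofReal (r ^ (k - k0).natAbs) :=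
        ENNReal.tsum_mul_left
    _ = ENNReal.ofReal r⁻¹ * ∑' k : ℤ, ENNReal.ofReal (r ^ k.natAbs) := by
        congr 1
        exact (Equiv.subRight k0).tsum_eq (fun k : ℤ => ENNReal.ofReal (r ^ k.natAbs))
    _ ≤ ENNReal.ofReal r⁻¹ * ENNReal.ofReal (2 / (1 - r)) := by
        gcongr
        exact tsum_abs_le hr0 hr1
    _ = _ := (ENNReal.ofReal_mul (by positivity)).symm

end Pool.Agent.Helper37.Pt
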