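import Pool.Agent.Helper37.Pt.Main

set_option autoImplicit false
set_option linter.unusedSectionVars false

/-!
The sum over the segments, with decay in all the parameters.
-/

open MeasureTheory Set Filter Topology ENNReal NNReal Metric

namespace Pool.Agent.Helper37.Pt

/-- `min (x ^ ε) (x ^ (-ε))`. -/
noncomputable def mm (ε x : ℝ) : ℝ := min (x ^ ε) (x ^ (-ε))

theorem mm_pos {ε x : ℝ} (hx : 0 < x) : 0 < mm ε x := by
  rw [mm]
  positivity

theorem neg_rpow_le {b ε γ : ℝ} (hb : 0 < b) (hε : 0 < ε) (hγ : ε ≤ γ) : ∃ C : ℝ, 1 ≤ C ∧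
    ∀ x : ℝ, b ≤ x → x ^ (-γ) ≤ C * mm ε x := by
  refine ⟨1 + (b ^ (-(γ + ε)) + b ^ (-(γ - ε))), ?_, ?_⟩
  · have : 0 < b ^ (-(γ + ε)) + b ^ (-(γ - ε)) := by positivity
    linarith
  intro x hx
  have hx0 : 0 < x := lt_of_lt_of_le hb hx
  have h1 : x ^ (-(γ + ε)) ≤ b ^ (-(γ + ε)) :=
    Real.rpow_le_rpow_of_nonpos hb hx (by linarith)
  have h2 : x ^ (-(γ - ε)) ≤ b ^ (-(γ - ε)) :=
    Real.rpow_le_rpow_of_nonpos hb hx (by linarith)
  have e1 : x ^ (-γ) = x ^ (-(γ + ε)) * x ^ ε := by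
    rw [← Real.rpow_add hx0]; congr 1; ring
  have e2 : x ^ (-γ) = x ^ (-(γ - ε)) * x ^ (-ε) := by
    rw [← Real.rpow_add hx0]; congr 1; ring
  have hb1 : 0 < b ^ (-(γ + ε)) := by positivity
  have hb2 : 0 < b ^ (-(γ - ε)) := by positivity
  rw [mm]
  rcases le_total (x ^ ε) (x ^ (-ε)) with h | h
  · rw [min_eq_left h, e1]
    apply mul_le_mul_of_nonneg_right _ (by positivity)
    linarith
  · rw [min_eq_right h, e2]
    apply mul_le_mul_of_nonneg_right _ (by positivity)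
    linarith

/-- The trivial bound. -/
theorem triv {d : ℕ} (hd : 1 ≤ d) {M : ℝ} (hM : 0 < M) : ∃ K : ℝ, 0 < K ∧ ∀ δ : ℝ, 0 < δ → δ < 1 →
    ∀ (a f : E d), 1 ≤ M * ‖f‖ → ‖f‖ ≤ 1 → ∀ A : Set (E d), MeasurableSet A → ∀ v : ℝ, 0 < v →
    volume (thickening δ A) ≤ ENNReal.ofReal v →
    volume (tset A a f) ≤ ENNReal.ofReal (K * (v / δ ^ d * δ)) := by
  have hvb := vb_pos d
  refine ⟨M * 2 ^ (d + 2) / vb d, by positivity, ?_⟩
  intro δ hδ hδ1 a f hf hf1 A hA v hv hvA
  have hf0 : 0 < ‖f‖ := by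
    by_contra hcon
    have : M * ‖f‖ ≤ 0 := mul_nonpos_of_nonneg_of_nonpos hM.le (not_lt.1 hcon)
    linarith
  set μ : ℝ := (volume (tset A a f)).toReal with hμ
  have hfin : volume (tset A a f) ≠ ∞ := ((volume_tset_le A a f).trans_lt one_lt_top).ne
  have hμv : volume (tset A a f) = ENNReal.ofReal μ := (ENNReal.ofReal_toReal hfin).symm
  have hμ0 : 0 ≤ μ := ENNReal.toReal_nonneg
  rw [hμv]
  apply ENNReal.ofReal_le_ofReal
  rcases hμ0.eq_or_lt with h0 | h0
  · rw [← h0]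
    positivity
  have hpre : (fun x : E d => (1:ℝ) • x) ⁻¹' A = A := by
    simp only [one_smul, preimage_id']
  have h2 := tset_scale (A := A) (a := a) (f := f) (ω := ‖f‖⁻¹ • f) (ρ := 1)
    (r := ‖f‖) one_pos hf0 hf1 (by
      rw [one_mul, smul_smul, mul_inv_cancel₀ hf0.ne', one_smul])
  rw [hpre, inv_one, one_smul, hμv, ← ENNReal.ofReal_mul hf0.le] at h2
  have h3 := low_v hd hδ hδ1.le (e := ‖f‖⁻¹ • f) (by
    rw [norm_smul, norm_inv, norm_norm, inv_mul_cancel₀ hf0.ne']) hA (by positivity) h2 hvA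
  obtain ⟨k, rfl⟩ : ∃ k, d = k + 1 := ⟨d - 1, by omega⟩
  rw [Nat.add_sub_cancel] at h3
  have e1 : v / δ ^ (k + 1) * δ = v / δ ^ k := by
    rw [pow_succ]
    field_simp
  rw [e1]
  have h4 : μ * δ ^ k ≤ (M * ‖f‖) * (μ * δ ^ k) :=
    le_mul_of_one_le_left (by positivity) hf
  rw [mul_div_assoc', le_div_iff₀ (by positivity)]
  refine h4.trans ?_
  calc M * ‖f‖ * (μ * δ ^ k)
      = M * 2 ^ (k + 1 + 2) / vb (k + 1) * (vb (k + 1) / 2 ^ (k + 1 + 2) * (‖f‖ * μ * δ ^ k)) := by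
        field_simp
    _ ≤ _ := by gcongr

section

variable {m : ℕ} {d : Fin m → ℕ}

theorem refined (hm : 1 ≤ m) (hd : ∀ j, 1 ≤ d j) {κ κ' : ℝ}
    (hκ0 : 0 < κ) (hκκ : κ < κ') (hκ1 : κ' < 1)
    (hP : ∀ j, ∃ C : ℝ, 0 < C ∧ PP (d j) κ' C) {p n : ℝ}
    (hn : n = ∑ j, (d j : ℝ)) (hn1 : 1 < n) (hp : p = 1 + κ * (n - 1)) :
    ∃ K ε : ℝ, 0 < K ∧ 0 < ε ∧ ∀ δ : ℝ, 0 < δ → δ < 1 → ∀ (ι : Type) [Fintype ι]
      (a e : ι → PiLp 2 (fun j : Fin m => E (d j))), (∀ i, ‖e i‖ = 1) →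
      (∀ i i', i ≠ i' → δ ≤ ‖e i - e i'‖) → ∀ j0 : Fin m, (∀ i, 1 ≤ m * ‖e i j0‖) →
      ∀ N : ℝ, 0 < N → (Fintype.card ι : ℝ) ≤ N →
      ∀ B : ∀ j, Set (E (d j)), (∀ j, MeasurableSet (B j)) →
      ∀ v : Fin m → ℝ, (∀ j, 0 < v j) → (∀ j, volume (thickening δ (B j)) ≤ ENNReal.ofReal (v j)) →
      ∑ i, volume (tsetP B (a i) (e i)) ≤
        ENNReal.ofReal (K * (N ^ (1 - κ / p) * (δ * ∏ j, v j / δ ^ d j) ^ (1 / p)) *
          ∏ j, mm ε ((if j = j0 then δ * N ^ (1 / (n - 1)) else 1) * (v j / δ ^ d j))) := by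
  have hm0 : (0:ℝ) < m := by exact_mod_cast hm
  have hn0 : 0 < n - 1 := by linarith
  have hκ'0 : 0 < κ' := by linarith
  set p' : ℝ := 1 + κ' * (n - 1) with hp'
  have hp1 : 1 < p := by rw [hp]; nlinarith [mul_pos hκ0 hn0]
  have hpp : p < p' := by rw [hp, hp']; nlinarith [mul_pos (sub_pos.2 hκκ) hn0]
  have hp0 : 0 < p := by linarith
  have hp'0 : 0 < p' := by linarith
  obtain ⟨K1, hK1, hsum⟩ := sumset hm hd hκ'0 hκ1 hP (p := p') (by rw [hp', hn])
  choose K3 hK3 htriv using fun j : Fin m => triv (hd j) hm0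
  set u : ℝ := 1 / p - 1 / p' with hu
  have hu0 : 0 < u := by
    have : 1 / p' < 1 / p := one_div_lt_one_div_of_lt hp0 hpp
    linarith
  have hip : 0 < 1 / p := by positivity
  have hip' : 0 < 1 / p' := by positivity
  have hip1 : 1 / p < 1 := by rw [div_lt_one hp0]; exact hp1
  set ε : ℝ := min u (1 - 1 / p) with hε
  have hε0 : 0 < ε := lt_min hu0 (by linarith)
  have hεu : ε ≤ u := min_le_left _ _
  have hεp : ε ≤ 1 - 1 / p := min_le_right _ _
  have hεip : ε ≤ 1 / p := by linarith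
  set b : Fin m → ℝ := fun j => min 1 (vb (d j)) with hb
  have hb0 : ∀ j, 0 < b j := fun j => lt_min one_pos (vb_pos _)
  choose C1 hC1 hCu using fun j : Fin m => neg_rpow_le (hb0 j) hε0 hεu
  choose C2 hC2 hCp using fun j : Fin m => neg_rpow_le (hb0 j) hε0 hεip
  set CC1 : ℝ := ∏ j, C1 j with hCC1
  have hCC1' : 1 ≤ CC1 := by
    rw [hCC1]
    exact Finset.one_le_prod fun j _ => hC1 j
  set CC2 : ℝ := ∏ j, C2 j with hCC2
  have hCC2' : 1 ≤ CC2 := by
    rw [hCC2]
    exact Finset.one_le_prod fun j _ => hC2 j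
  set KK3 : ℝ := ∑ j, K3 j with hKK3
  have hKK30 : 0 < KK3 := Finset.sum_pos (fun j _ => hK3 j) ⟨⟨0, hm⟩, Finset.mem_univ _⟩
  refine ⟨K1 * CC1 + KK3 * CC2, ε, by positivity, hε0, ?_⟩
  intro δ hδ hδ1 ι _ a e he hsep j0 hj0 N hN hcard B hB v hv0 hv
  classical
  set x : Fin m → ℝ := fun j => v j / δ ^ d j with hx
  have hx0 : ∀ j, 0 < x j := fun j => by
    have := hv0 j
    rw [hx]
    positivity
  set s : Fin m → ℝ := fun j => if j = j0 then δ * N ^ (1 / (n - 1)) else 1 with hs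
  have hs0 : ∀ j, 0 < s j := by
    intro j
    rw [hs]
    simp only
    split_ifs <;> positivity
  set y : Fin m → ℝ := fun j => s j * x j with hy
  have hy0 : ∀ j, 0 < y j := fun j => mul_pos (hs0 j) (hx0 j)
  have hprodx : 0 < ∏ j, x j := Finset.prod_pos fun j _ => hx0 j
  have hprody : 0 < ∏ j, y j := Finset.prod_pos fun j _ => hy0 j
  have hpm : 0 < ∏ j, mm ε (y j) := Finset.prod_pos fun j _ => mm_pos (hy0 j)
  set T : ℝ := N ^ (1 - κ / p) * (δ * ∏ j, x j) ^ (1 / p) with hT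
  have hT0 : 0 < T := by positivity
  by_cases hz : ∀ i, volume (tsetP B (a i) (e i)) = 0
  · rw [Finset.sum_eq_zero fun i _ => hz i]
    exact zero_le
  push Not at hz
  obtain ⟨i0, hi0⟩ := hz
  obtain ⟨t0, ht0⟩ : (tsetP B (a i0) (e i0)).Nonempty := nonempty_of_measure_ne_zero hi0
  have hxb : ∀ j, b j ≤ x j := fun j =>
    (min_le_right _ _).trans (vol_thick_ge (ht0.2 j) hδ (hv j))
  have hyx : ∀ j, j ≠ j0 → y j = x j := by
    intro j hj
    rw [hy, hs]
    simp only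
    rw [if_neg hj, one_mul]
  have hyz : y j0 = δ * N ^ (1 / (n - 1)) * x j0 := by
    rw [hy, hs]
    simp only [if_true]
  have hκp : κ / p = (1 - 1 / p) / (n - 1) := by
    rw [hp]
    field_simp
    ring
  have hκp' : κ' / p' = (1 - 1 / p') / (n - 1) := by
    rw [hp']
    field_simp
    ring
  rcases le_or_gt 1 (y j0) with hz1 | hz1
  · -- the bound with `κ'`
    have h1 := hsum δ hδ hδ1 ι a e he hsep B hB v hv0 hv
    refine h1.trans (ENNReal.ofReal_le_ofReal ?_)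
    have hexp : 0 ≤ 1 - κ' / p' := by
      have : κ' / p' < 1 := by
        rw [div_lt_one hp'0]
        linarith
      linarith
    have e1 : ∏ j, y j = N ^ (1 / (n - 1)) * (δ * ∏ j, x j) := by
      rw [hy]
      simp only
      rw [Finset.prod_mul_distrib]
      have : ∏ j, s j = δ * N ^ (1 / (n - 1)) := by
        rw [hs, Finset.prod_ite_eq' Finset.univ j0 (fun _ => δ * N ^ (1 / (n - 1)))]
        simp
      rw [this]
      ring
    have e2 : N ^ (1 - κ' / p') * (δ * ∏ j, x j) ^ (1 / p') = T * (∏ j, y j) ^ (-u) := by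
      rw [e1, hT, Real.mul_rpow (x := N ^ (1 / (n - 1))) (by positivity) (by positivity),
        ← Real.rpow_mul hN.le]
      have f1 : N ^ (1 - κ' / p') = N ^ (1 - κ / p) * N ^ (1 / (n - 1) * -u) := by
        rw [← Real.rpow_add hN]
        congr 1
        rw [hκp, hκp', hu]
        field_simp
        ring
      have f2 : (δ * ∏ j, x j) ^ (1 / p') = (δ * ∏ j, x j) ^ (1 / p) * (δ * ∏ j, x j) ^ (-u) := by
        rw [← Real.rpow_add (by positivity)]
        congr 1
        rw [hu]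
        ring
      rw [f1, f2]
      ring
    have e3 : (∏ j, y j) ^ (-u) ≤ CC1 * ∏ j, mm ε (y j) := by
      rw [← Real.finsetProd_rpow _ _ (fun j _ => (hy0 j).le), hCC1, ← Finset.prod_mul_distrib]
      apply Finset.prod_le_prod
      · intro j _
        have := hy0 j
        positivity
      · intro j _
        apply hCu
        by_cases hj : j = j0
        · rw [hj]
          exact (min_le_left _ _).trans hz1
        · rw [hyx j hj]
          exact hxb j
    calc K1 * (Fintype.card ι : ℝ) ^ (1 - κ' / p') * (δ * ∏ j, x j) ^ (1 / p')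
        ≤ K1 * N ^ (1 - κ' / p') * (δ * ∏ j, x j) ^ (1 / p') := by gcongr
      _ = K1 * (T * (∏ j, y j) ^ (-u)) := by rw [mul_assoc, e2]
      _ ≤ K1 * (T * (CC1 * ∏ j, mm ε (y j))) := by gcongr
      _ = (K1 * CC1) * T * ∏ j, mm ε (y j) := by ring
      _ ≤ _ := by
          have : 0 < KK3 * CC2 := by positivity
          gcongr
          linarith
  · -- the trivial bound
    have hone : ∀ i, volume (tsetP B (a i) (e i)) ≤ ENNReal.ofReal (KK3 * (x j0 * δ)) := by
      intro i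
      refine (measure_mono (tsetP_sub B _ _ j0)).trans ?_
      refine (htriv j0 δ hδ hδ1 (a i j0) (e i j0) (hj0 i) ?_ (B j0) (hB j0) (v j0) (hv0 j0)
        (hv j0)).trans ?_
      · have := PiLp.norm_apply_le (e i) j0
        rwa [he i] at this
      · apply ENNReal.ofReal_le_ofReal
        have h1 : K3 j0 ≤ KK3 := Finset.single_le_sum (f := K3) (fun j _ => (hK3 j).le)
          (Finset.mem_univ _)
        have := hx0 j0
        gcongr
    have h1 : ∑ i, volume (tsetP B (a i) (e i)) ≤ ENNReal.ofReal (N * (KK3 * (x j0 * δ))) := by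
      have hpos : 0 ≤ KK3 * (x j0 * δ) := by
        have := hx0 j0
        positivity
      calc ∑ i, volume (tsetP B (a i) (e i)) ≤ ∑ _i : ι, ENNReal.ofReal (KK3 * (x j0 * δ)) :=
            Finset.sum_le_sum fun i _ => hone i
        _ = ENNReal.ofReal ((Fintype.card ι : ℝ) * (KK3 * (x j0 * δ))) := by
            rw [Finset.sum_const, Finset.card_univ, nsmul_eq_mul,
              ENNReal.ofReal_mul (Nat.cast_nonneg _), ENNReal.ofReal_natCast]
        _ ≤ _ := ENNReal.ofReal_le_ofReal (by gcongr)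
    refine h1.trans (ENNReal.ofReal_le_ofReal ?_)
    have hX0 : 0 < ∏ j ∈ Finset.univ.erase j0, x j := Finset.prod_pos fun j _ => hx0 j
    set X : ℝ := ∏ j ∈ Finset.univ.erase j0, x j with hX
    have hxj0 := hx0 j0
    have e1 : N * (x j0 * δ) = T * (y j0 ^ (1 - 1 / p) * X ^ (-(1 / p))) := by
      have f1 : ∏ j, x j = x j0 * X := (Finset.mul_prod_erase _ _ (Finset.mem_univ j0)).symm
      have f2 : δ * (x j0 * X) = (x j0 * δ) * X := by ring
      rw [hT, f1, f2, Real.mul_rpow (x := x j0 * δ) (by positivity) hX0.le, hyz]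
      have f3 : δ * N ^ (1 / (n - 1)) * x j0 = N ^ (1 / (n - 1)) * (x j0 * δ) := by ring
      rw [f3, Real.mul_rpow (x := N ^ (1 / (n - 1))) (by positivity) (by positivity),
        ← Real.rpow_mul hN.le]
      have g1 : N = N ^ (1 - κ / p) * N ^ (1 / (n - 1) * (1 - 1 / p)) := by
        rw [← Real.rpow_add hN, hκp]
        have : 1 - (1 - 1 / p) / (n - 1) + 1 / (n - 1) * (1 - 1 / p) = 1 := by ring
        rw [this, Real.rpow_one]
      have g2 : x j0 * δ = (x j0 * δ) ^ (1 / p) * (x j0 * δ) ^ (1 - 1 / p) := by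
        rw [← Real.rpow_add (by positivity)]
        simp
      have g3 : X ^ (1 / p) * X ^ (-(1 / p)) = 1 := by
        rw [← Real.rpow_add hX0]
        simp
      calc N * (x j0 * δ)
          = (N ^ (1 - κ / p) * N ^ (1 / (n - 1) * (1 - 1 / p))) *
            ((x j0 * δ) ^ (1 / p) * (x j0 * δ) ^ (1 - 1 / p)) * 1 := by
            rw [← g1, ← g2, mul_one]
        _ = (N ^ (1 - κ / p) * N ^ (1 / (n - 1) * (1 - 1 / p))) *
            ((x j0 * δ) ^ (1 / p) * (x j0 * δ) ^ (1 - 1 / p)) *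
              (X ^ (1 / p) * X ^ (-(1 / p))) := by rw [g3]
        _ = _ := by ring
    have e2 : y j0 ^ (1 - 1 / p) ≤ mm ε (y j0) := by
      have f1 : y j0 ^ ε ≤ 1 := Real.rpow_le_one (hy0 j0).le hz1.le hε0.le
      have f2 : 1 ≤ y j0 ^ (-ε) :=
        Real.one_le_rpow_of_pos_of_le_one_of_nonpos (hy0 j0) hz1.le (by linarith)
      rw [mm, min_eq_left (f1.trans f2)]
      exact Real.rpow_le_rpow_of_exponent_ge (hy0 j0) hz1.le hεp
    have e3 : X ^ (-(1 / p)) ≤ CC2 * ∏ j ∈ Finset.univ.erase j0, mm ε (y j) := by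
      rw [hX, ← Real.finsetProd_rpow _ _ (fun j _ => (hx0 j).le)]
      calc ∏ j ∈ Finset.univ.erase j0, x j ^ (-(1 / p))
          ≤ ∏ j ∈ Finset.univ.erase j0, (C2 j * mm ε (y j)) := by
            apply Finset.prod_le_prod
            · intro j _
              have := hx0 j
              positivity
            · intro j hj
              rw [hyx j (Finset.mem_erase.1 hj).1]
              exact hCp j _ (hxb j)
        _ = (∏ j ∈ Finset.univ.erase j0, C2 j) * ∏ j ∈ Finset.univ.erase j0, mm ε (y j) :=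
            Finset.prod_mul_distrib
        _ ≤ _ := by
            have f1 : ∏ j ∈ Finset.univ.erase j0, C2 j ≤ CC2 := by
              rw [hCC2, ← Finset.mul_prod_erase _ _ (Finset.mem_univ j0)]
              have f2 : 0 < ∏ j ∈ Finset.univ.erase j0, C2 j :=
                Finset.prod_pos fun j _ => lt_of_lt_of_le one_pos (hC2 j)
              exact le_mul_of_one_le_left f2.le (hC2 j0)
            have f3 : 0 < ∏ j ∈ Finset.univ.erase j0, mm ε (y j) :=
              Finset.prod_pos fun j _ => mm_pos (hy0 j)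
            gcongr
    have hmz : 0 < mm ε (y j0) := mm_pos (hy0 j0)
    calc N * (KK3 * (x j0 * δ)) = KK3 * (N * (x j0 * δ)) := by ring
      _ = KK3 * (T * (y j0 ^ (1 - 1 / p) * X ^ (-(1 / p)))) := by rw [e1]
      _ ≤ KK3 * (T * (mm ε (y j0) * (CC2 * ∏ j ∈ Finset.univ.erase j0, mm ε (y j)))) := by
          gcongr
      _ = (KK3 * CC2) * T * ∏ j, mm ε (y j) := by
          rw [← Finset.mul_prod_erase _ _ (Finset.mem_univ j0)]
          ring
      _ ≤ _ := by
          have : 0 < K1 * CC1 := by positivity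
          gcongr
          linarith

end

end Pool.Agent.Helper37.Pt
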