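import Pool.Agent.Helper37.Pt.Fun2
import Pool.Agent.Helper37.Pt.Fun3

set_option autoImplicit false
set_option linter.unusedSectionVars false

/-!
The tube inequality tested on functions of product type.
-/

open MeasureTheory Set Filter Topology ENNReal NNReal Metric

namespace Pool.Agent.Helper37.Pt

section

variable {m : ℕ} {d : Fin m → ℕ}

/-- Some component is long. -/
theorem exists_long (hm : 1 ≤ m) {e : PiLp 2 (fun j : Fin m => E (d j))} (he : ‖e‖ = 1) :
    ∃ j, 1 ≤ m * ‖e j‖ := by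
  have hm1 : (1:ℝ) ≤ m := by exact_mod_cast hm
  have hm0 : (0:ℝ) < m := by linarith
  by_contra hcon
  push Not at hcon
  have h1 : ‖e‖ ^ 2 = ∑ j, ‖e j‖ ^ 2 := PiLp.norm_sq_eq_of_L2 _ _
  rw [he] at h1
  have h2 : ∀ j, ‖e j‖ ^ 2 < 1 / m := by
    intro j
    have h3 := hcon j
    have h4 : ‖e j‖ < 1 / m := by
      rw [lt_div_iff₀ hm0]
      linarith
    have h5 : 1 / (m:ℝ) ≤ 1 := by rw [div_le_one hm0]; exact hm1
    have := norm_nonneg (e j)
    nlinarith
  have h6 : ∑ j, ‖e j‖ ^ 2 < ∑ j : Fin m, 1 / (m:ℝ) := by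
    apply Finset.sum_lt_sum_of_nonempty
    · exact ⟨⟨0, hm⟩, Finset.mem_univ _⟩
    · exact fun j _ => h2 j
  rw [Finset.sum_const, Finset.card_univ, Fintype.card_fin, nsmul_eq_mul,
    mul_one_div_cancel hm0.ne'] at h6
  linarith

/-- One tube: the decomposition into level sets. -/
theorem one_tube {δ : ℝ} (hδ : 0 < δ) (hδ1 : δ < 1)
    {a e : PiLp 2 (fun j : Fin m => E (d j))} (he : ‖e‖ = 1) {f : ∀ j, E (d j) → ℝ≥0∞}
    (hf : ∀ j, Measurable (f j)) (hfin : ∀ j x, ∫⁻ y in closedBall x (2 * δ), f j y ≠ ∞) :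
    ENNReal.ofReal δ * ∫⁻ x in tube δ a e, ∏ j, f j (x j) ≤
      ∑' k : Fin m → ℤ, ENNReal.ofReal (∏ j, (2:ℝ) ^ (k j + 1)) *
        (volume (tsetP (fun j => levf (f j) δ (k j)) (a + (1 / 2 : ℝ) • e) e) +
        volume (tsetP (fun j => levf (f j) δ (k j)) (a - (1 / 2 : ℝ) • e) e)) := by
  refine (upper_f hδ hδ1 he hf).trans ?_
  have hTm : ∀ k : Fin m → ℤ, MeasurableSet {t : ℝ | ∀ j, a j + t • e j ∈ levf (f j) δ (k j)} := by
    intro k
    have e1 : {t : ℝ | ∀ j, a j + t • e j ∈ levf (f j) δ (k j)} =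
        ⋂ j, (fun t : ℝ => a j + t • e j) ⁻¹' levf (f j) δ (k j) := by
      ext t
      simp
    rw [e1]
    refine MeasurableSet.iInter fun j => ?_
    have h1 : Continuous (fun t : ℝ => a j + t • e j) := by fun_prop
    exact h1.measurable (measurableSet_levf (hf j) δ (k j))
  calc ∫⁻ t in Icc (-1:ℝ) 1, ∏ j, ∫⁻ y in closedBall (a j + t • e j) (2 * δ), f j y
      ≤ ∫⁻ t in Icc (-1:ℝ) 1, ∑' k : Fin m → ℤ, ENNReal.ofReal (∏ j, (2:ℝ) ^ (k j + 1)) *
          {t : ℝ | ∀ j, a j + t • e j ∈ levf (f j) δ (k j)}.indicator (fun _ => (1:ℝ≥0∞)) t := by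
        apply lintegral_mono
        intro t
        exact prod_le_tsum_f f (fun j => a j + t • e j) (fun j => hfin j _)
    _ = ∑' k : Fin m → ℤ, ∫⁻ t in Icc (-1:ℝ) 1, ENNReal.ofReal (∏ j, (2:ℝ) ^ (k j + 1)) *
          {t : ℝ | ∀ j, a j + t • e j ∈ levf (f j) δ (k j)}.indicator (fun _ => (1:ℝ≥0∞)) t := by
        apply lintegral_tsum
        intro k
        exact ((measurable_const.indicator (hTm k)).const_mul _).aemeasurable
    _ ≤ _ := by
        apply ENNReal.tsum_le_tsum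
        intro k
        rw [lintegral_const_mul _ (measurable_const.indicator (hTm k)),
          lintegral_indicator (hTm k), setLIntegral_one, Measure.restrict_apply' measurableSet_Icc]
        refine mul_le_mul' le_rfl ?_
        refine le_trans (measure_mono ?_) (split_le (fun j => levf (f j) δ (k j)) a e)
        rintro t ⟨ht1, ht2⟩
        exact ⟨ht2, ht1⟩

/-- **The tube inequality tested on functions of product type.** -/
theorem main_f (hm : 1 ≤ m) (hd : ∀ j, 1 ≤ d j) {κ κ' : ℝ}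
    (hκ0 : 0 < κ) (hκκ : κ < κ') (hκ1 : κ' < 1)
    (hP : ∀ j, ∃ C : ℝ, 0 < C ∧ PP (d j) κ' C) {p n : ℝ}
    (hn : n = ∑ j, (d j : ℝ)) (hn1 : 1 < n) (hp : p = 1 + κ * (n - 1)) :
    ∃ K : ℝ, 0 < K ∧ ∀ δ : ℝ, 0 < δ → δ < 1 → ∀ (ι : Type) [Fintype ι]
      (a e : ι → PiLp 2 (fun j : Fin m => E (d j))), (∀ i, ‖e i‖ = 1) →
      (∀ i i', i ≠ i' → δ ≤ ‖e i - e i'‖) →
      ∀ f : ∀ j, E (d j) → ℝ≥0∞, (∀ j, Measurable (f j)) →
      ∑ i, ∫⁻ x in tube δ (a i) (e i), ∏ j, f j (x j) ≤
        ENNReal.ofReal (K * δ ^ ((n - 1) * (1 - 1 / p)) * (Fintype.card ι : ℝ) ^ (1 - κ / p)) *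
          ∏ j, (∫⁻ y, f j y ^ p) ^ (1 / p) := by
  have hm0 : (0:ℝ) < m := by exact_mod_cast hm
  obtain ⟨K0, ε, hK0, hε0, href⟩ := refined hm hd hκ0 hκκ hκ1 hP hn hn1 hp
  have hn0 : 0 < n - 1 := by linarith
  have hp1 : 1 < p := by rw [hp]; nlinarith [mul_pos hκ0 hn0]
  have hp0 : 0 < p := by linarith
  have hip : 0 < 1 / p := by positivity
  obtain ⟨Cg, hCg, hgeom⟩ := geom_int hp0 hε0
  set Q : Fin m → ℝ := fun j => 2 * (3 ^ d j * vb (d j)) with hQ
  have hQ0 : ∀ j, 0 < Q j := fun j => by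
    have := vb_pos (d j)
    rw [hQ]
    positivity
  set CQ : ℝ := ∏ j, Q j with hCQ
  have hCQ0 : 0 < CQ := Finset.prod_pos fun j _ => hQ0 j
  refine ⟨2 * m * K0 * CQ * Cg ^ m, by positivity, ?_⟩
  intro δ hδ hδ1 ι _ a e he hsep f hf
  classical
  rcases isEmpty_or_nonempty ι with hι | hι
  · simp
  have hN0 : (0:ℝ) < Fintype.card ι := Nat.cast_pos.2 Fintype.card_pos
  set N : ℝ := (Fintype.card ι : ℝ) with hN
  by_cases hz : ∃ j, ∫⁻ y, f j y ^ p = 0
  · obtain ⟨j1, hj1⟩ := hz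
    rw [lintegral_eq_zero_iff ((hf j1).pow_const p)] at hj1
    have h1 : ∫⁻ y, f j1 y = 0 := by
      rw [lintegral_eq_zero_iff (hf j1)]
      filter_upwards [hj1] with y hy
      rw [Pi.zero_apply] at hy ⊢
      exact (ENNReal.rpow_eq_zero_iff_of_pos hp0).1 hy
    have h2 : ∀ i, ∫⁻ x in tube δ (a i) (e i), ∏ j, f j (x j) = 0 := by
      intro i
      have h3 : ∫⁻ x : PiLp 2 (fun j : Fin m => E (d j)), ∏ j, f j (x j) = 0 := by
        rw [lint_prod hf]
        exact Finset.prod_eq_zero (Finset.mem_univ j1) h1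
      exact le_antisymm ((setLIntegral_le_lintegral _ _).trans h3.le) zero_le
    rw [Finset.sum_eq_zero fun i _ => h2 i]
    exact zero_le
  push Not at hz
  by_cases ht : ∃ j, ∫⁻ y, f j y ^ p = ∞
  · obtain ⟨j1, hj1⟩ := ht
    have h1 : ∏ j, (∫⁻ y, f j y ^ p) ^ (1 / p) = ∞ := by
      rw [← Finset.mul_prod_erase _ _ (Finset.mem_univ j1), hj1, ENNReal.top_rpow_of_pos hip]
      apply ENNReal.top_mul
      rw [Finset.prod_ne_zero_iff]
      intro j _ h0
      rw [ENNReal.rpow_eq_zero_iff_of_pos hip] at h0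
      exact hz j h0
    rw [h1, ENNReal.mul_top]
    · exact le_top
    · rw [ne_eq, ENNReal.ofReal_eq_zero, not_le]
      positivity
  push Not at ht
  set φ : Fin m → ℝ := fun j => (∫⁻ y, f j y ^ p).toReal with hφ
  have hφ0 : ∀ j, 0 < φ j := fun j => ENNReal.toReal_pos (hz j) (ht j)
  have hfφ : ∀ j, ∫⁻ y, f j y ^ p = ENNReal.ofReal (φ j) := fun j =>
    (ENNReal.ofReal_toReal (ht j)).symm
  set B : (Fin m → ℤ) → ∀ j, Set (E (d j)) := fun k j => levf (f j) δ (k j) with hB
  have hBm : ∀ k j, MeasurableSet (B k j) := fun k j => measurableSet_levf (hf j) _ _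
  set v : (Fin m → ℤ) → Fin m → ℝ := fun k j =>
    ((3 * δ) ^ d j * vb (d j)) ^ p * φ j * ((2:ℝ) ^ k j) ^ (-p) with hv
  have hv0 : ∀ k j, 0 < v k j := fun k j => by
    have := hφ0 j
    have := vb_pos (d j)
    rw [hv]
    positivity
  have hBv : ∀ k j, volume (thickening δ (B k j)) ≤ ENNReal.ofReal (v k j) := fun k j =>
    vol_levf (hd j) (hf j) hδ hp1 (k j) (hφ0 j).le (hfφ j)
  set c : (Fin m → ℤ) → ℝ := fun k => ∏ j, (2:ℝ) ^ (k j + 1) with hc
  have hc0 : ∀ k, 0 < c k := fun k => Finset.prod_pos fun j _ => by positivity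
  set Y : Fin m → ℝ := fun j => ((3 * δ) ^ d j * vb (d j)) ^ p * φ j / δ ^ d j with hY
  have hY0 : ∀ j, 0 < Y j := fun j => by
    have := hφ0 j
    have := vb_pos (d j)
    rw [hY]
    positivity
  have hvY : ∀ k j, v k j / δ ^ d j = Y j * ((2:ℝ) ^ k j) ^ (-p) := by
    intro k j
    rw [hv, hY]
    ring
  set s : Fin m → Fin m → ℝ := fun j0 j => if j = j0 then δ * N ^ (1 / (n - 1)) else 1 with hs
  have hs0 : ∀ j0 j, 0 < s j0 j := by
    intro j0 j
    rw [hs]
    simp only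
    split_ifs <;> positivity
  set T : (Fin m → ℤ) → ℝ := fun k => N ^ (1 - κ / p) * (δ * ∏ j, v k j / δ ^ d j) ^ (1 / p) with hT
  have hT0 : ∀ k, 0 < T k := by
    intro k
    have : 0 < ∏ j, v k j / δ ^ d j := Finset.prod_pos fun j _ => by
      have := hv0 k j
      positivity
    rw [hT]
    positivity
  set R : (Fin m → ℤ) → Fin m → ℝ := fun k j0 =>
    ∏ j, mm ε (s j0 j * Y j * ((2:ℝ) ^ k j) ^ (-p)) with hR
  have hR0 : ∀ k j0, 0 < R k j0 := fun k j0 => Finset.prod_pos fun j _ => mm_pos (by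
    have := hs0 j0 j
    have := hY0 j
    positivity)
  -- the families with a fixed apex
  choose J hJ using fun i => exists_long hm (he i)
  have hfam : ∀ (k : Fin m → ℤ) (a' : ι → PiLp 2 (fun j : Fin m => E (d j))),
      ∑ i, volume (tsetP (B k) (a' i) (e i)) ≤ ∑ j0, ENNReal.ofReal (K0 * T k * R k j0) := by
    intro k a'
    rw [← Finset.sum_fiberwise Finset.univ J]
    apply Finset.sum_le_sum
    intro j0 _
    rw [Finset.sum_subtype (p := fun i => J i = j0) (Finset.univ.filter fun i => J i = j0)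
      (fun i => by simp)]
    have h1 := href δ hδ hδ1 {i // J i = j0} (fun i => a' i) (fun i => e i) (fun i => he i)
      (fun i i' hii => hsep i i' (fun h => hii (Subtype.ext h))) j0
      (fun i => by
        have := hJ i
        rwa [i.2] at this) N hN0 (by
        rw [hN]
        exact_mod_cast Fintype.card_subtype_le _) (B k) (hBm k) (v k) (hv0 k) (hBv k)
    refine h1.trans (le_of_eq ?_)
    congr 1
    rw [hR, hT]
    simp only
    congr 1
    apply Finset.prod_congr rfl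
    intro j _
    rw [hvY, hs]
    simp only
    rw [mul_assoc]
  -- all the tubes
  have hall : ENNReal.ofReal δ * ∑ i, ∫⁻ x in tube δ (a i) (e i), ∏ j, f j (x j) ≤
      ∑' k, ∑ j0, ENNReal.ofReal (2 * K0 * (c k * T k) * R k j0) := by
    rw [Finset.mul_sum]
    calc ∑ i, ENNReal.ofReal δ * ∫⁻ x in tube δ (a i) (e i), ∏ j, f j (x j)
        ≤ ∑ i, ∑' k, ENNReal.ofReal (c k) *
            (volume (tsetP (B k) (a i + (1 / 2 : ℝ) • e i) (e i)) +
              volume (tsetP (B k) (a i - (1 / 2 : ℝ) • e i) (e i))) := by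
          apply Finset.sum_le_sum
          intro i _
          exact one_tube hδ hδ1 (he i) hf (fun j x => ball_int_lt_top (hf j) hp1 (ht j) x _)
      _ = ∑' k, ∑ i, ENNReal.ofReal (c k) *
            (volume (tsetP (B k) (a i + (1 / 2 : ℝ) • e i) (e i)) +
              volume (tsetP (B k) (a i - (1 / 2 : ℝ) • e i) (e i))) :=
          (Summable.tsum_finsetSum fun i _ => ENNReal.summable).symm
      _ ≤ _ := by
          apply ENNReal.tsum_le_tsum
          intro k
          rw [← Finset.mul_sum, Finset.sum_add_distrib]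
          refine (mul_le_mul' le_rfl (add_le_add (hfam k _) (hfam k _))).trans (le_of_eq ?_)
          rw [← Finset.sum_add_distrib, Finset.mul_sum]
          apply Finset.sum_congr rfl
          intro j0 _
          have := hT0 k
          have := hR0 k j0
          have := hc0 k
          rw [← ENNReal.ofReal_add (by positivity) (by positivity), ← ENNReal.ofReal_mul (hc0 k).le]
          congr 1
          ring
  -- `c k * T k` does not depend on `k`
  set G : ℝ := CQ * N ^ (1 - κ / p) * δ ^ (1 / p) * δ ^ (n * (1 - 1 / p)) * ∏ j, φ j ^ (1 / p)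
    with hG
  have hG0 : 0 < G := by
    have : 0 < ∏ j, φ j ^ (1 / p) := Finset.prod_pos fun j _ => by
      have := hφ0 j
      positivity
    positivity
  have hterm : ∀ k, c k * T k = G := by
    intro k
    have hVk : 0 < ∏ j, v k j / δ ^ d j := Finset.prod_pos fun j _ => by
      have := hv0 k j
      positivity
    have e1 : (∏ j, v k j / δ ^ d j) ^ (1 / p) = ∏ j, (v k j / δ ^ d j) ^ (1 / p) :=
      (Real.finsetProd_rpow _ _ (fun j _ => by have := hv0 k j; positivity) _).symm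
    have e3 : δ ^ (n * (1 - 1 / p)) = ∏ j, δ ^ ((d j : ℝ) * (1 - 1 / p)) := by
      rw [← Real.rpow_sum_of_pos hδ, ← Finset.sum_mul, hn]
    have e4 : ∀ j, (2:ℝ) ^ (k j + 1) * (v k j / δ ^ d j) ^ (1 / p) =
        Q j * δ ^ ((d j : ℝ) * (1 - 1 / p)) * φ j ^ (1 / p) := by
      intro j
      have hφj := hφ0 j
      have hvb := vb_pos (d j)
      have h2k : (0:ℝ) < 2 ^ k j := by positivity
      have f1 : (v k j / δ ^ d j) ^ (1 / p) =
          ((3 * δ) ^ d j * vb (d j)) * φ j ^ (1 / p) * ((2:ℝ) ^ k j)⁻¹ *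
            δ ^ (-((d j : ℝ) * (1 / p))) := by
        rw [hv]
        simp only
        rw [Real.div_rpow (by positivity) (by positivity),
          Real.mul_rpow (x := ((3 * δ) ^ d j * vb (d j)) ^ p * φ j) (by positivity) (by positivity),
          Real.mul_rpow (x := ((3 * δ) ^ d j * vb (d j)) ^ p) (by positivity) hφj.le,
          ← Real.rpow_mul (by positivity), ← Real.rpow_mul h2k.le, mul_one_div_cancel hp0.ne',
          neg_mul, mul_one_div_cancel hp0.ne', Real.rpow_one, Real.rpow_neg h2k.le,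
          Real.rpow_one, div_eq_mul_inv,
          ← Real.rpow_natCast δ (d j), ← Real.rpow_mul hδ.le, ← Real.rpow_neg hδ.le]
      have f2 : δ ^ ((d j : ℝ) * (1 - 1 / p)) = δ ^ d j * δ ^ (-((d j : ℝ) * (1 / p))) := by
        rw [← Real.rpow_natCast, ← Real.rpow_add hδ]
        congr 1
        ring
      rw [f1, f2, hQ, zpow_add₀ (by norm_num), zpow_one]
      simp only
      rw [mul_pow]
      field_simp
    calc c k * T k
        = N ^ (1 - κ / p) * δ ^ (1 / p) * ∏ j, ((2:ℝ) ^ (k j + 1) * (v k j / δ ^ d j) ^ (1 / p)) := by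
          rw [hT]
          simp only
          rw [Real.mul_rpow hδ.le hVk.le, e1, Finset.prod_mul_distrib]
          ring
      _ = N ^ (1 - κ / p) * δ ^ (1 / p) * ∏ j,
            (Q j * δ ^ ((d j : ℝ) * (1 - 1 / p)) * φ j ^ (1 / p)) := by
          rw [Finset.prod_congr rfl fun j _ => e4 j]
      _ = _ := by
          rw [Finset.prod_mul_distrib, Finset.prod_mul_distrib, ← e3, hG]
          ring
  -- the sum over the levels
  have hsumR : ∀ j0, ∑' k, ENNReal.ofReal (R k j0) ≤ ENNReal.ofReal (Cg ^ m) := by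
    intro j0
    calc ∑' k, ENNReal.ofReal (R k j0)
        = ∑' k : Fin m → ℤ, ∏ j, ENNReal.ofReal (mm ε (s j0 j * Y j * ((2:ℝ) ^ k j) ^ (-p))) := by
          apply tsum_congr
          intro k
          rw [hR]
          simp only
          rw [ENNReal.ofReal_prod_of_nonneg]
          intro j _
          have := hs0 j0 j
          have := hY0 j
          exact (mm_pos (by positivity)).le
      _ ≤ ∏ j, ∑' k : ℤ, ENNReal.ofReal (mm ε (s j0 j * Y j * ((2:ℝ) ^ k) ^ (-p))) :=
          tsum_prod_le (fun j k => ENNReal.ofReal (mm ε (s j0 j * Y j * ((2:ℝ) ^ k) ^ (-p))))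
      _ ≤ ∏ _j : Fin m, ENNReal.ofReal Cg := by
          apply Finset.prod_le_prod'
          intro j _
          exact hgeom (s j0 j * Y j) (mul_pos (hs0 j0 j) (hY0 j))
      _ = _ := by
          rw [Finset.prod_const, Finset.card_univ, Fintype.card_fin, ENNReal.ofReal_pow hCg.le]
  have hfin : ENNReal.ofReal δ * ∑ i, ∫⁻ x in tube δ (a i) (e i), ∏ j, f j (x j) ≤
      ENNReal.ofReal (m * (2 * K0 * G * Cg ^ m)) := by
    refine hall.trans ?_
    calc ∑' k, ∑ j0, ENNReal.ofReal (2 * K0 * (c k * T k) * R k j0)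
        = ∑' k, ∑ j0, ENNReal.ofReal (2 * K0 * G) * ENNReal.ofReal (R k j0) := by
          apply tsum_congr
          intro k
          apply Finset.sum_congr rfl
          intro j0 _
          rw [hterm, ENNReal.ofReal_mul (by positivity)]
      _ = ∑ j0, ∑' k, ENNReal.ofReal (2 * K0 * G) * ENNReal.ofReal (R k j0) :=
          Summable.tsum_finsetSum fun j0 _ => ENNReal.summable
      _ ≤ ∑ _j0 : Fin m, ENNReal.ofReal (2 * K0 * G * Cg ^ m) := by
          apply Finset.sum_le_sum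
          intro j0 _
          have hKG : 0 ≤ 2 * K0 * G := by positivity
          rw [ENNReal.tsum_mul_left, ENNReal.ofReal_mul (p := 2 * K0 * G) hKG]
          exact mul_le_mul' le_rfl (hsumR j0)
      _ = _ := by
          rw [Finset.sum_const, Finset.card_univ, Fintype.card_fin, nsmul_eq_mul,
            ENNReal.ofReal_mul (p := (m:ℝ)) (Nat.cast_nonneg _), ENNReal.ofReal_natCast]
  have hprod : ∏ j, (∫⁻ y, f j y ^ p) ^ (1 / p) = ENNReal.ofReal (∏ j, φ j ^ (1 / p)) := by
    rw [ENNReal.ofReal_prod_of_nonneg (fun j _ => by have := hφ0 j; positivity)]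
    apply Finset.prod_congr rfl
    intro j _
    rw [hfφ j, ENNReal.ofReal_rpow_of_pos (hφ0 j)]
  rw [hprod, ← ENNReal.ofReal_mul (by positivity)]
  refine (ENNReal.mul_le_mul_iff_right (a := ENNReal.ofReal δ) (by
    rw [ne_eq, ENNReal.ofReal_eq_zero, not_le]; exact hδ) ENNReal.ofReal_ne_top).1 ?_
  refine hfin.trans (le_of_eq ?_)
  rw [← ENNReal.ofReal_mul hδ.le]
  congr 1
  have e5 : δ ^ (1 / p) * δ ^ (n * (1 - 1 / p)) = δ * δ ^ ((n - 1) * (1 - 1 / p)) := by
    nth_rewrite 3 [← Real.rpow_one δ]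
    rw [← Real.rpow_add hδ, ← Real.rpow_add hδ]
    congr 1
    ring
  rw [hG]
  calc m * (2 * K0 * (CQ * N ^ (1 - κ / p) * δ ^ (1 / p) * δ ^ (n * (1 - 1 / p)) *
        ∏ j, φ j ^ (1 / p)) * Cg ^ m)
      = 2 * m * K0 * CQ * Cg ^ m * N ^ (1 - κ / p) * (δ ^ (1 / p) * δ ^ (n * (1 - 1 / p))) *
        ∏ j, φ j ^ (1 / p) := by ring
    _ = _ := by rw [e5]; ring

end

end Pool.Agent.Helper37.Pt
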