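import Pool.Agent.Helper37.Pt.Meas

set_option autoImplicit false
set_option linter.unusedSectionVars false

/-!
Tubes and products: averages and level sets.
-/

open MeasureTheory Set Filter Topology ENNReal NNReal Metric

namespace Pool.Agent.Helper37.Pt

/-- The volume of the intersection of a tube and a product is controlled by the local densities
along the axis. -/
theorem upper {m : ℕ} {d : Fin m → ℕ} {δ : ℝ} (hδ : 0 < δ) (hδ1 : δ < 1)
    {a e : PiLp 2 (fun j : Fin m => E (d j))} (he : ‖e‖ = 1) {A : ∀ j, Set (E (d j))}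
    (hA : ∀ j, MeasurableSet (A j)) :
    ENNReal.ofReal δ * volume (tube δ a e ∩ {x | ∀ j, x j ∈ A j}) ≤
      ∫⁻ t in Icc (-1:ℝ) 1, ∏ j, volume (A j ∩ closedBall (a j + t • e j) (2 * δ)) := by
  set P : Set (PiLp 2 (fun j : Fin m => E (d j))) := {x | ∀ j, x j ∈ A j} with hP
  have hPm : MeasurableSet P := by
    have e1 : P = ⋂ j, (fun x : PiLp 2 (fun j : Fin m => E (d j)) => x j) ⁻¹' A j := by
      ext x
      simp [hP]
    rw [e1]
    refine MeasurableSet.iInter fun j => ?_
    have h1 : Continuous (fun x : PiLp 2 (fun j : Fin m => E (d j)) => x j) := by fun_prop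
    exact h1.measurable (hA j)
  set U : Set (PiLp 2 (fun j : Fin m => E (d j))) := tube δ a e ∩ P with hU
  have hUm : MeasurableSet U := (isClosed_tube δ a e).measurableSet.inter hPm
  set H : Set (PiLp 2 (fun j : Fin m => E (d j))) := closedBall 0 (2 * δ) with hH
  have hHm : MeasurableSet H := measurableSet_closedBall
  have hjm : Measurable (fun p : PiLp 2 (fun j : Fin m => E (d j)) × ℝ =>
      U.indicator (fun _ => (1:ℝ≥0∞)) p.1 * H.indicator (fun _ => (1:ℝ≥0∞)) (p.1 - (a + p.2 • e))) := by
    refine Measurable.mul ?_ ?_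
    · exact (measurable_const.indicator hUm).comp measurable_fst
    · refine (measurable_const.indicator hHm).comp ?_
      fun_prop
  calc ENNReal.ofReal δ * volume U
      = ∫⁻ y, U.indicator (fun _ => ENNReal.ofReal δ) y := by
        rw [lintegral_indicator hUm, setLIntegral_const]
    _ ≤ ∫⁻ y, ∫⁻ t in Icc (-1:ℝ) 1, U.indicator (fun _ => (1:ℝ≥0∞)) y *
          H.indicator (fun _ => (1:ℝ≥0∞)) (y - (a + t • e)) := by
        apply lintegral_mono
        intro y
        show U.indicator (fun _ => ENNReal.ofReal δ) y ≤ ∫⁻ t in Icc (-1:ℝ) 1,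
          U.indicator (fun _ => (1:ℝ≥0∞)) y * H.indicator (fun _ => (1:ℝ≥0∞)) (y - (a + t • e))
        by_cases hy : y ∈ U
        · rw [indicator_of_mem hy, indicator_of_mem hy]
          simp only [one_mul]
          set s : ℝ := inner ℝ (y - a) e with hs
          have hs1 : |s| ≤ 1 / 2 := hy.1.1
          have hperp : ‖(y - a) - s • e‖ ≤ δ := hy.1.2
          obtain ⟨s0, hs0, hsub⟩ : ∃ s0 : ℝ, (∀ t ∈ Icc s0 (s0 + δ), |t - s| ≤ δ) ∧
              Icc s0 (s0 + δ) ⊆ Icc (-1:ℝ) 1 := by
            rw [abs_le] at hs1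
            rcases le_total 0 s with h | h
            · refine ⟨s - δ, ?_, ?_⟩
              · rintro t ⟨h1, h2⟩
                rw [abs_le]
                constructor <;> linarith
              · rintro t ⟨h1, h2⟩
                constructor <;> linarith
            · refine ⟨s, ?_, ?_⟩
              · rintro t ⟨h1, h2⟩
                rw [abs_le]
                constructor <;> linarith
              · rintro t ⟨h1, h2⟩
                constructor <;> linarith
          calc ENNReal.ofReal δ = ∫⁻ t in Icc s0 (s0 + δ), (1:ℝ≥0∞) := by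
                rw [setLIntegral_one, Real.volume_Icc]
                congr 1
                ring
            _ ≤ ∫⁻ t in Icc s0 (s0 + δ), H.indicator (fun _ => (1:ℝ≥0∞)) (y - (a + t • e)) := by
                apply setLIntegral_mono' measurableSet_Icc
                intro t ht
                have hmem : y - (a + t • e) ∈ H := by
                  rw [hH, mem_closedBall_zero_iff]
                  have e1 : y - (a + t • e) = ((y - a) - s • e) + (s - t) • e := by
                    rw [sub_smul]; abel
                  rw [e1]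
                  refine (norm_add_le _ _).trans ?_
                  rw [norm_smul, he, mul_one, Real.norm_eq_abs, abs_sub_comm]
                  have := hs0 t ht
                  linarith
                rw [indicator_of_mem hmem]
            _ ≤ ∫⁻ t in Icc (-1:ℝ) 1, H.indicator (fun _ => (1:ℝ≥0∞)) (y - (a + t • e)) :=
                lintegral_mono_set hsub
        · rw [indicator_of_notMem hy]
          exact zero_le
    _ = ∫⁻ t in Icc (-1:ℝ) 1, ∫⁻ y, U.indicator (fun _ => (1:ℝ≥0∞)) y *
          H.indicator (fun _ => (1:ℝ≥0∞)) (y - (a + t • e)) :=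
        lintegral_lintegral_swap hjm.aemeasurable
    _ ≤ _ := by
        apply lintegral_mono
        intro t
        show ∫⁻ y, U.indicator (fun _ => (1:ℝ≥0∞)) y *
          H.indicator (fun _ => (1:ℝ≥0∞)) (y - (a + t • e)) ≤
          ∏ j, volume (A j ∩ closedBall (a j + t • e j) (2 * δ))
        have hBm : ∀ j, MeasurableSet (A j ∩ closedBall (a j + t • e j) (2 * δ)) := fun j =>
          (hA j).inter measurableSet_closedBall
        rw [← vol_prod hBm, ← lintegral_indicator_one (by
          have e1 : {x : PiLp 2 (fun j : Fin m => E (d j)) | ∀ j, x j ∈ A j ∩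
              closedBall (a j + t • e j) (2 * δ)} = ⋂ j, (fun x : PiLp 2
              (fun j : Fin m => E (d j)) => x j) ⁻¹' (A j ∩ closedBall (a j + t • e j) (2 * δ)) := by
            ext x
            simp
          rw [e1]
          refine MeasurableSet.iInter fun j => ?_
          have h1 : Continuous (fun x : PiLp 2 (fun j : Fin m => E (d j)) => x j) := by fun_prop
          exact h1.measurable (hBm j))]
        apply lintegral_mono
        intro y
        show U.indicator (fun _ => (1:ℝ≥0∞)) y * H.indicator (fun _ => (1:ℝ≥0∞)) (y - (a + t • e)) ≤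
          {x : PiLp 2 (fun j : Fin m => E (d j)) | ∀ j, x j ∈ A j ∩
              closedBall (a j + t • e j) (2 * δ)}.indicator (fun _ => (1:ℝ≥0∞)) y
        by_cases hy : y ∈ U
        · by_cases hy2 : y - (a + t • e) ∈ H
          · have hmem : y ∈ {x : PiLp 2 (fun j : Fin m => E (d j)) | ∀ j, x j ∈ A j ∩
                closedBall (a j + t • e j) (2 * δ)} := by
              intro j
              refine ⟨hy.2 j, ?_⟩
              rw [mem_closedBall, dist_eq_norm]
              rw [hH, mem_closedBall_zero_iff] at hy2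
              refine le_trans ?_ hy2
              exact PiLp.norm_apply_le (y - (a + t • e)) j
            rw [indicator_of_mem hy, indicator_of_mem hy2, indicator_of_mem hmem, one_mul]
          · rw [indicator_of_notMem hy2, mul_zero]
            exact zero_le
        · rw [indicator_of_notMem hy, zero_mul]
          exact zero_le

/-- The level sets of the local densities. -/
def lev {d : ℕ} (A : Set (E d)) (δ : ℝ) (k : ℕ) : Set (E d) :=
  {x | ENNReal.ofReal ((2 * δ) ^ d * vb d * (1 / 2) ^ (k + 1)) < volume (A ∩ closedBall x (2 * δ))}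

theorem vol_cball {d : ℕ} (hd : 1 ≤ d) (x : E d) {ρ : ℝ} (hρ : 0 < ρ) :
    volume (closedBall x ρ) = ENNReal.ofReal (ρ ^ d * vb d) := by
  have : Nontrivial (E d) := by
    have : Nonempty (Fin d) := ⟨⟨0, hd⟩⟩
    infer_instance
  rw [Measure.addHaar_closedBall_eq_addHaar_ball, vol_ball x hρ]

theorem measurable_dens {d : ℕ} {A : Set (E d)} (hA : MeasurableSet A) (r : ℝ) :
    Measurable (fun x : E d => volume (A ∩ closedBall x r)) := by
  have h1 : MeasurableSet {p : E d × E d | p.2 ∈ A ∧ dist p.2 p.1 ≤ r} := by
    have h2 : MeasurableSet {p : E d × E d | p.2 ∈ A} := measurable_snd hA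
    have h3 : MeasurableSet {p : E d × E d | dist p.2 p.1 ≤ r} :=
      (isClosed_le (by fun_prop) continuous_const).measurableSet
    exact h2.inter h3
  exact measurable_measure_prodMk_left h1

theorem measurableSet_lev {d : ℕ} {A : Set (E d)} (hA : MeasurableSet A) (δ : ℝ) (k : ℕ) :
    MeasurableSet (lev A δ k) :=
  measurableSet_lt measurable_const (measurable_dens hA _)

/-- The neighbourhoods of the level sets are not large. -/
theorem vol_lev {d : ℕ} (hd : 1 ≤ d) {A : Set (E d)} (hA : MeasurableSet A) {δ : ℝ} (hδ : 0 < δ)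
    (k : ℕ) {α : ℝ} (hα : 0 ≤ α) (hAα : volume A = ENNReal.ofReal α) :
    volume (thickening δ (lev A δ k)) ≤ ENNReal.ofReal (2 * (3 / 2) ^ d * α * 2 ^ k) := by
  have hvb := vb_pos d
  set c : ℝ := (2 * δ) ^ d * vb d * (1 / 2) ^ (k + 1) with hc
  have hc0 : 0 < c := by positivity
  have h1 : thickening δ (lev A δ k) ⊆
      {y | ENNReal.ofReal c ≤ volume (A ∩ closedBall y (3 * δ))} := by
    intro y hy
    rw [mem_thickening_iff] at hy
    obtain ⟨x, hx, hxy⟩ := hy
    have h2 : A ∩ closedBall x (2 * δ) ⊆ A ∩ closedBall y (3 * δ) := by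
      rintro z ⟨hz1, hz2⟩
      refine ⟨hz1, ?_⟩
      rw [mem_closedBall] at hz2 ⊢
      rw [dist_comm] at hxy
      calc dist z y ≤ dist z x + dist x y := dist_triangle _ _ _
        _ ≤ _ := by linarith
    exact (le_of_lt hx).trans (measure_mono h2)
  have hint : ∫⁻ y : E d, volume (A ∩ closedBall y (3 * δ)) =
      ENNReal.ofReal (α * ((3 * δ) ^ d * vb d)) := by
    have hm : Measurable (fun p : E d × E d =>
        A.indicator (fun _ => (1:ℝ≥0∞)) p.2 * (closedBall (0 : E d) (3 * δ)).indicator
          (fun _ => (1:ℝ≥0∞)) (p.2 - p.1)) := by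
      refine Measurable.mul ?_ ?_
      · exact (measurable_const.indicator hA).comp measurable_snd
      · refine (measurable_const.indicator measurableSet_closedBall).comp ?_
        fun_prop
    calc ∫⁻ y : E d, volume (A ∩ closedBall y (3 * δ))
        = ∫⁻ y : E d, ∫⁻ x : E d, A.indicator (fun _ => (1:ℝ≥0∞)) x *
            (closedBall (0 : E d) (3 * δ)).indicator (fun _ => (1:ℝ≥0∞)) (x - y) := by
          apply lintegral_congr
          intro y
          rw [← lintegral_indicator_one (hA.inter measurableSet_closedBall)]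
          apply lintegral_congr
          intro x
          show (A ∩ closedBall y (3 * δ)).indicator (fun _ => (1:ℝ≥0∞)) x = _
          by_cases h2 : x ∈ A
          · by_cases h3 : x ∈ closedBall y (3 * δ)
            · have h4 : x ∈ A ∩ closedBall y (3 * δ) := ⟨h2, h3⟩
              have h5 : x - y ∈ closedBall (0 : E d) (3 * δ) := by
                rw [mem_closedBall_zero_iff, ← dist_eq_norm]; exact h3
              rw [indicator_of_mem h4, indicator_of_mem h2, indicator_of_mem h5, one_mul]
            · have h4 : x ∉ A ∩ closedBall y (3 * δ) := fun h => h3 h.2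
              have h5 : x - y ∉ closedBall (0 : E d) (3 * δ) := by
                rw [mem_closedBall_zero_iff, ← dist_eq_norm]; exact h3
              rw [indicator_of_notMem h4, indicator_of_notMem h5, mul_zero]
          · have h4 : x ∉ A ∩ closedBall y (3 * δ) := fun h => h2 h.1
            rw [indicator_of_notMem h4, indicator_of_notMem h2, zero_mul]
      _ = ∫⁻ x : E d, ∫⁻ y : E d, A.indicator (fun _ => (1:ℝ≥0∞)) x *
            (closedBall (0 : E d) (3 * δ)).indicator (fun _ => (1:ℝ≥0∞)) (x - y) :=
          lintegral_lintegral_swap hm.aemeasurable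
      _ = ∫⁻ x : E d, A.indicator (fun _ => (1:ℝ≥0∞)) x * ENNReal.ofReal ((3 * δ) ^ d * vb d) := by
          apply lintegral_congr
          intro x
          have hmm : Measurable (fun y : E d => (closedBall (0 : E d) (3 * δ)).indicator
              (fun _ => (1:ℝ≥0∞)) (x - y)) :=
            (measurable_const.indicator measurableSet_closedBall).comp (by fun_prop)
          rw [lintegral_const_mul _ hmm]
          congr 1
          rw [lintegral_sub_left_eq_self (fun y => (closedBall (0 : E d) (3 * δ)).indicator
            (fun _ => (1:ℝ≥0∞)) y) x, lintegral_indicator measurableSet_closedBall, setLIntegral_one,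
            vol_cball hd _ (by positivity)]
      _ = _ := by
          rw [lintegral_mul_const _ (measurable_const.indicator hA), lintegral_indicator hA,
            setLIntegral_one, hAα, ENNReal.ofReal_mul hα]
  refine (measure_mono h1).trans ?_
  refine (meas_ge_le_lintegral_div (measurable_dens hA _).aemeasurable
    (ENNReal.ofReal_pos.2 hc0).ne' ENNReal.ofReal_ne_top).trans ?_
  rw [hint, ← ENNReal.ofReal_div_of_pos hc0]
  apply ENNReal.ofReal_le_ofReal
  apply le_of_eq
  rw [hc, mul_pow, mul_pow, pow_succ, one_div, inv_pow, div_pow]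
  field_simp

/-- The pointwise decomposition. -/
theorem prod_le_tsum {m : ℕ} {d : Fin m → ℕ} (hd : ∀ j, 1 ≤ d j) (A : ∀ j, Set (E (d j))) {δ : ℝ}
    (hδ : 0 < δ) (x : ∀ j, E (d j)) :
    ∏ j, volume (A j ∩ closedBall (x j) (2 * δ)) ≤
      ∑' k : Fin m → ℕ, ENNReal.ofReal (∏ j, ((2 * δ) ^ d j * vb (d j) * (1 / 2) ^ k j)) *
        {y : ∀ j, E (d j) | ∀ j, y j ∈ lev (A j) δ (k j)}.indicator (fun _ => 1) x := by
  by_cases h0 : ∃ j, volume (A j ∩ closedBall (x j) (2 * δ)) = 0
  · obtain ⟨j, hj⟩ := h0
    rw [Finset.prod_eq_zero (Finset.mem_univ j) hj]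
    exact zero_le
  push Not at h0
  have hex : ∀ j, ∃ k : ℕ, x j ∈ lev (A j) δ k ∧ volume (A j ∩ closedBall (x j) (2 * δ)) ≤
      ENNReal.ofReal ((2 * δ) ^ d j * vb (d j) * (1 / 2) ^ k) := by
    intro j
    have hvb := vb_pos (d j)
    set w : ℝ := (2 * δ) ^ d j * vb (d j) with hw
    have hw0 : 0 < w := by positivity
    have h1 : volume (A j ∩ closedBall (x j) (2 * δ)) ≤ ENNReal.ofReal w := by
      rw [hw, ← vol_cball (hd j) (x j) (by positivity)]
      exact measure_mono inter_subset_right
    have hfin : volume (A j ∩ closedBall (x j) (2 * δ)) ≠ ∞ :=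
      (h1.trans_lt ENNReal.ofReal_lt_top).ne
    set r : ℝ := (volume (A j ∩ closedBall (x j) (2 * δ))).toReal with hr
    have hr0 : 0 < r := ENNReal.toReal_pos (h0 j) hfin
    have hrv : volume (A j ∩ closedBall (x j) (2 * δ)) = ENNReal.ofReal r :=
      (ENNReal.ofReal_toReal hfin).symm
    have hrw : r ≤ w := by
      rw [hrv, ENNReal.ofReal_le_ofReal_iff hw0.le] at h1
      exact h1
    obtain ⟨k, hk1, hk2⟩ := exists_nat_pow_near_of_lt_one (x := r / w) (y := (1 / 2 : ℝ))
      (by positivity) (by rw [div_le_one hw0]; exact hrw) (by norm_num) (by norm_num)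
    refine ⟨k, ?_, ?_⟩
    · show ENNReal.ofReal ((2 * δ) ^ d j * vb (d j) * (1 / 2) ^ (k + 1)) < _
      rw [hrv, ENNReal.ofReal_lt_ofReal_iff hr0, ← hw]
      rw [lt_div_iff₀ hw0] at hk1
      linarith
    · rw [hrv]
      apply ENNReal.ofReal_le_ofReal
      rw [div_le_iff₀ hw0] at hk2
      linarith
  choose k hk1 hk2 using hex
  refine le_trans ?_ (ENNReal.le_tsum k)
  have hmem : x ∈ {y : ∀ j, E (d j) | ∀ j, y j ∈ lev (A j) δ (k j)} := hk1
  rw [indicator_of_mem hmem, mul_one, ENNReal.ofReal_prod_of_nonneg (fun j _ => by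
    have := vb_pos (d j)
    positivity)]
  exact Finset.prod_le_prod' fun j _ => hk2 j

/-- A geometric sum over `ℕ^m`. -/
theorem tsum_pi_le {m : ℕ} {r : ℝ} (h0 : 0 < r) (h1 : r < 1) :
    ∑' k : Fin m → ℕ, ENNReal.ofReal (∏ j, r ^ k j) ≤ ENNReal.ofReal ((1 / (1 - r)) ^ m) := by
  classical
  rw [ENNReal.tsum_eq_iSup_sum]
  apply iSup_le
  intro s
  set L : ℕ := (s.sup fun k => Finset.univ.sup fun j => k j) + 1 with hL
  have hs : s ⊆ Fintype.piFinset (fun _ : Fin m => Finset.range L) := by
    intro k hk
    rw [Fintype.mem_piFinset]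
    intro j
    rw [Finset.mem_range, hL, Nat.lt_succ_iff]
    exact (Finset.le_sup (f := fun j => k j) (Finset.mem_univ j)).trans
      (Finset.le_sup (f := fun k : Fin m → ℕ => Finset.univ.sup fun j => k j) hk)
  calc ∑ k ∈ s, ENNReal.ofReal (∏ j, r ^ k j)
      ≤ ∑ k ∈ Fintype.piFinset (fun _ : Fin m => Finset.range L), ENNReal.ofReal (∏ j, r ^ k j) :=
        Finset.sum_le_sum_of_subset hs
    _ = ENNReal.ofReal (∑ k ∈ Fintype.piFinset (fun _ : Fin m => Finset.range L), ∏ j, r ^ k j) :=
        (ENNReal.ofReal_sum_of_nonneg (fun k _ => Finset.prod_nonneg fun j _ => by positivity)).symm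
    _ = ENNReal.ofReal (∏ _j : Fin m, ∑ k ∈ Finset.range L, r ^ k) := by
        rw [Finset.prod_univ_sum]
    _ ≤ _ := by
        apply ENNReal.ofReal_le_ofReal
        rw [Finset.prod_const, Finset.card_univ, Fintype.card_fin]
        exact pow_le_pow_left₀ (Finset.sum_nonneg fun k _ => by positivity) (geom_le h0 h1 L) m

end Pool.Agent.Helper37.Pt
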