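import Pool.Agent.Helper37.Pt.Basic

set_option autoImplicit false
set_option linter.unusedSectionVars false

/-!
Segments with a large intersection with a set.
-/

open MeasureTheory Set Filter Topology ENNReal NNReal Metric

namespace Pool.Agent.Helper37.Pt

section defs

variable {X : Type} [NormedAddCommGroup X] [InnerProductSpace ℝ X]

/-- The tube. -/
def tube (δ : ℝ) (a e : X) : Set X :=
  {y | |inner ℝ (y - a) e| ≤ 1 / 2 ∧ ‖(y - a) - (inner ℝ (y - a) e) • e‖ ≤ δ}

/-- The set of the parameters `t`, `|t| ≤ 1/2`, with `a + t e ∈ A`. -/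
def tset (A : Set X) (a e : X) : Set ℝ := {t | |t| ≤ 1 / 2 ∧ a + t • e ∈ A}

theorem tset_mono {A B : Set X} (h : A ⊆ B) (a e : X) : tset A a e ⊆ tset B a e :=
  fun _ ht => ⟨ht.1, h ht.2⟩

theorem tset_sub (A : Set X) (a e : X) : tset A a e ⊆ Icc (-(1 / 2)) (1 / 2) :=
  fun _ ht => abs_le.1 ht.1

theorem volume_tset_le (A : Set X) (a e : X) : volume (tset A a e) ≤ 1 := by
  refine (measure_mono (tset_sub A a e)).trans ?_
  rw [Real.volume_Icc]
  norm_num

variable [MeasurableSpace X] [BorelSpace X]

theorem measurableSet_tset {A : Set X} (hA : MeasurableSet A) (a e : X) :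
    MeasurableSet (tset A a e) := by
  have h1 : Continuous (fun t : ℝ => a + t • e) := by fun_prop
  have h2 : MeasurableSet {t : ℝ | |t| ≤ 1 / 2} :=
    (isClosed_le continuous_abs continuous_const).measurableSet
  have h3 : MeasurableSet ((fun t : ℝ => a + t • e) ⁻¹' A) := h1.measurable hA
  exact h2.inter h3

theorem isClosed_tube (δ : ℝ) (a e : X) : IsClosed (tube δ a e) := by
  have h1 : IsClosed {y : X | |(inner ℝ (y - a) e : ℝ)| ≤ 1 / 2} :=
    isClosed_le (by fun_prop) continuous_const
  have h2 : IsClosed {y : X | ‖(y - a) - (inner ℝ (y - a) e : ℝ) • e‖ ≤ δ} :=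
    isClosed_le (by fun_prop) continuous_const
  exact h1.inter h2

end defs

theorem perp_le {X : Type} [NormedAddCommGroup X] [InnerProductSpace ℝ X] {e : X} (he : ‖e‖ = 1)
    (w : X) : ‖w - (inner ℝ w e : ℝ) • e‖ ≤ ‖w‖ := by
  have h1 : ‖w - (inner ℝ w e : ℝ) • e‖ ^ 2 ≤ ‖w‖ ^ 2 := by
    rw [norm_sub_sq_real, inner_smul_right, norm_smul, he, mul_one, Real.norm_eq_abs, sq_abs]
    nlinarith [sq_nonneg (inner ℝ w e : ℝ)]
  exact le_of_sq_le_sq h1 (norm_nonneg _)

/-- One half of the lower bound. -/
theorem low_half {d : ℕ} {δ : ℝ} (hδ : 0 < δ) (hδ1 : δ ≤ 1) {a e : E d} (he : ‖e‖ = 1)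
    {A : Set (E d)} (hA : MeasurableSet A) {σ : ℝ} (hσ : |σ| = 1) :
    volume {w : E d | ‖w‖ < δ / 2 ∧ σ * inner ℝ w e ≤ 0} *
      volume (tset A a e ∩ {t | 0 ≤ σ * t}) ≤
      ENNReal.ofReal δ * volume (tube δ a e ∩ thickening δ A) := by
  set H : Set (E d) := {w : E d | ‖w‖ < δ / 2 ∧ σ * inner ℝ w e ≤ 0} with hH
  set S : Set ℝ := tset A a e ∩ {t | 0 ≤ σ * t} with hS
  have hHm : MeasurableSet H := by
    have h1 : MeasurableSet {w : E d | ‖w‖ < δ / 2} :=
      (isOpen_lt continuous_norm continuous_const).measurableSet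
    have h2 : MeasurableSet {w : E d | σ * inner ℝ w e ≤ 0} :=
      (isClosed_le (by fun_prop) continuous_const).measurableSet
    exact h1.inter h2
  have hSm : MeasurableSet S :=
    (measurableSet_tset hA a e).inter (measurableSet_le measurable_const (by fun_prop))
  have hUm : MeasurableSet (tube δ a e ∩ thickening δ A) :=
    (isClosed_tube δ a e).measurableSet.inter isOpen_thickening.measurableSet
  have hjm : Measurable (fun p : ℝ × E d => H.indicator (fun _ => (1:ℝ≥0∞)) (p.2 - (a + p.1 • e))) := by
    refine (measurable_const.indicator hHm).comp ?_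
    fun_prop
  calc volume H * volume S
      = ∫⁻ t in S, ∫⁻ y, H.indicator (fun _ => (1:ℝ≥0∞)) (y - (a + t • e)) := by
        have h1 : ∀ t : ℝ, ∫⁻ y, H.indicator (fun _ => (1:ℝ≥0∞)) (y - (a + t • e)) = volume H := by
          intro t
          rw [lintegral_sub_right_eq_self (fun y => H.indicator (fun _ => (1:ℝ≥0∞)) y) (a + t • e),
            lintegral_indicator hHm, setLIntegral_one]
        simp only [h1, lintegral_const, Measure.restrict_apply MeasurableSet.univ, univ_inter]
    _ = ∫⁻ y, ∫⁻ t in S, H.indicator (fun _ => (1:ℝ≥0∞)) (y - (a + t • e)) :=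
        lintegral_lintegral_swap hjm.aemeasurable
    _ ≤ ∫⁻ y, (tube δ a e ∩ thickening δ A).indicator (fun _ => ENNReal.ofReal δ) y := by
        apply lintegral_mono
        intro y
        by_cases hy : ∃ t ∈ S, y - (a + t • e) ∈ H
        · obtain ⟨t, ht, hw⟩ := hy
          have hmem : y ∈ tube δ a e ∩ thickening δ A := by
            set w : E d := y - (a + t • e) with hwdef
            have hya : y - a = t • e + w := by rw [hwdef]; abel
            have hwn : ‖w‖ < δ / 2 := hw.1
            have hwe : |(inner ℝ w e : ℝ)| < δ / 2 := by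
              refine (abs_real_inner_le_norm w e).trans_lt ?_
              rw [he, mul_one]; exact hwn
            have hin : (inner ℝ (y - a) e : ℝ) = t + inner ℝ w e := by
              rw [hya, inner_add_left, inner_smul_left, real_inner_self_eq_norm_sq, he]
              simp
            refine ⟨⟨?_, ?_⟩, ?_⟩
            · rw [hin]
              have ht1 : |t| ≤ 1 / 2 := ht.1.1
              have ht2 : 0 ≤ σ * t := ht.2
              have hw2 : σ * inner ℝ w e ≤ 0 := hw.2
              rw [abs_le] at ht1 ⊢
              rw [abs_lt] at hwe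
              rcases le_or_gt 0 σ with h | h
              · rw [abs_of_nonneg h] at hσ
                subst hσ
                constructor <;> linarith
              · rw [abs_of_neg h] at hσ
                have : σ = -1 := by linarith
                subst this
                constructor <;> linarith
            · rw [hin, hya]
              have e1 : t • e + w - (t + (inner ℝ w e : ℝ)) • e = w - (inner ℝ w e : ℝ) • e := by
                rw [add_smul]; abel
              rw [e1]
              refine (perp_le he w).trans ?_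
              linarith
            · rw [mem_thickening_iff]
              refine ⟨a + t • e, ht.1.2, ?_⟩
              rw [dist_eq_norm, ← hwdef]
              linarith
          rw [indicator_of_mem hmem]
          set s : ℝ := inner ℝ (y - a) e with hs
          calc ∫⁻ t in S, H.indicator (fun _ => (1:ℝ≥0∞)) (y - (a + t • e))
              ≤ ∫⁻ t, (Icc (s - δ / 2) (s + δ / 2)).indicator (fun _ => (1:ℝ≥0∞)) t := by
                refine (setLIntegral_le_lintegral _ _).trans (lintegral_mono ?_)
                intro t'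
                show H.indicator (fun _ => (1:ℝ≥0∞)) (y - (a + t' • e)) ≤
                  (Icc (s - δ / 2) (s + δ / 2)).indicator (fun _ => (1:ℝ≥0∞)) t'
                by_cases hw' : y - (a + t' • e) ∈ H
                · have hmem' : t' ∈ Icc (s - δ / 2) (s + δ / 2) := by
                    have h2 : |s - t'| ≤ δ / 2 := by
                      have h3 : s - t' = inner ℝ (y - (a + t' • e)) e := by
                        have e2 : y - (a + t' • e) = (y - a) - t' • e := by abel
                        rw [e2, inner_sub_left, inner_smul_left, real_inner_self_eq_norm_sq, he]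
                        simp [hs]
                      rw [h3]
                      refine (abs_real_inner_le_norm _ _).trans ?_
                      rw [he, mul_one]
                      exact hw'.1.le
                    rw [abs_le] at h2
                    constructor <;> linarith
                  rw [indicator_of_mem hw', indicator_of_mem hmem']
                · rw [indicator_of_notMem hw']
                  exact zero_le
            _ = ENNReal.ofReal δ := by
                rw [lintegral_indicator measurableSet_Icc, setLIntegral_one, Real.volume_Icc]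
                congr 1
                ring
        · push Not at hy
          have h0 : ∫⁻ t in S, H.indicator (fun _ => (1:ℝ≥0∞)) (y - (a + t • e)) = 0 := by
            have h2 : ∫⁻ t in S, H.indicator (fun _ => (1:ℝ≥0∞)) (y - (a + t • e))
                = ∫⁻ t in S, (0:ℝ≥0∞) := by
              apply setLIntegral_congr_fun hSm
              intro t ht
              exact indicator_of_notMem (hy t ht) _
            rw [h2, lintegral_zero]
          refine le_trans (le_of_eq h0) ?_
          exact zero_le
    _ = ENNReal.ofReal δ * volume (tube δ a e ∩ thickening δ A) := by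
        rw [lintegral_indicator hUm, setLIntegral_const]

/-- The volume of the unit ball, as a real number. -/
noncomputable def vb (d : ℕ) : ℝ := (volume (ball (0 : E d) 1)).toReal

theorem vb_pos (d : ℕ) : 0 < vb d :=
  ENNReal.toReal_pos (measure_ball_pos _ _ one_pos).ne' measure_ball_lt_top.ne

theorem vol_ball {d : ℕ} (x : E d) {ρ : ℝ} (hρ : 0 < ρ) :
    volume (ball x ρ) = ENNReal.ofReal (ρ ^ d * vb d) := by
  have := Measure.addHaar_ball_of_pos (volume : Measure (E d)) x hρ
  rw [finrank_euclideanSpace_fin] at this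
  rw [this, ENNReal.ofReal_mul (by positivity), vb, ENNReal.ofReal_toReal measure_ball_lt_top.ne]

/-- The lower bound for the intersection of a tube and of the neighbourhood of a set. -/
theorem low {d : ℕ} (hd : 1 ≤ d) {δ : ℝ} (hδ : 0 < δ) (hδ1 : δ ≤ 1) {a e : E d} (he : ‖e‖ = 1)
    {A : Set (E d)} (hA : MeasurableSet A) {lam : ℝ}
    (h : ENNReal.ofReal lam ≤ volume (tset A a e)) :
    ENNReal.ofReal (vb d / 2 ^ (d + 2) * (lam * δ ^ (d - 1))) ≤
      volume (tube δ a e ∩ thickening δ A) := by
  have hvb := vb_pos d
  set Hp : Set (E d) := {w : E d | ‖w‖ < δ / 2 ∧ (1:ℝ) * inner ℝ w e ≤ 0} with hHp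
  set Hm : Set (E d) := {w : E d | ‖w‖ < δ / 2 ∧ (-1:ℝ) * inner ℝ w e ≤ 0} with hHm
  set V := volume (tube δ a e ∩ thickening δ A) with hV
  have h1 := low_half hδ hδ1 (a := a) he hA (σ := 1) (by simp)
  have h2 := low_half hδ hδ1 (a := a) he hA (σ := -1) (by simp)
  rw [← hHp, ← hV] at h1
  rw [← hHm, ← hV] at h2
  have hneg : volume Hm = volume Hp := by
    have e1 : Hm = (fun w => -w) ⁻¹' Hp := by
      ext w
      simp only [hHm, hHp, mem_ofPred_eq, mem_preimage, norm_neg, inner_neg_left]
      constructor
      · rintro ⟨h, h'⟩; exact ⟨h, by linarith⟩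
      · rintro ⟨h, h'⟩; exact ⟨h, by linarith⟩
    rw [e1]
    exact Measure.measure_preimage_neg volume Hp
  have hB : volume (ball (0 : E d) (δ / 2)) ≤ volume Hp + volume Hp := by
    nth_rewrite 2 [← hneg]
    refine le_trans (measure_mono ?_) (measure_union_le _ _)
    intro w hw
    rw [mem_ball_zero_iff] at hw
    rcases le_total (inner ℝ w e : ℝ) 0 with h | h
    · exact Or.inl ⟨hw, by linarith⟩
    · exact Or.inr ⟨hw, by linarith⟩
  have hS : volume (tset A a e) ≤ volume (tset A a e ∩ {t | 0 ≤ (1:ℝ) * t}) +
      volume (tset A a e ∩ {t | 0 ≤ (-1:ℝ) * t}) := by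
    refine le_trans (measure_mono ?_) (measure_union_le _ _)
    intro t ht
    rcases le_total 0 t with h | h
    · exact Or.inl ⟨ht, by simpa using h⟩
    · exact Or.inr ⟨ht, by simpa using h⟩
  rw [hneg] at h2
  have h3 : volume Hp * volume (tset A a e) ≤ 2 * (ENNReal.ofReal δ * V) := by
    calc volume Hp * volume (tset A a e)
        ≤ volume Hp * (volume (tset A a e ∩ {t | 0 ≤ (1:ℝ) * t}) +
          volume (tset A a e ∩ {t | 0 ≤ (-1:ℝ) * t})) := by gcongr
      _ = volume Hp * volume (tset A a e ∩ {t | 0 ≤ (1:ℝ) * t}) +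
          volume Hp * volume (tset A a e ∩ {t | 0 ≤ (-1:ℝ) * t}) := mul_add _ _ _
      _ ≤ ENNReal.ofReal δ * V + ENNReal.ofReal δ * V := add_le_add h1 h2
      _ = _ := by ring
  have h4 : ENNReal.ofReal ((δ / 2) ^ d * vb d) * ENNReal.ofReal lam ≤
      4 * (ENNReal.ofReal δ * V) := by
    calc ENNReal.ofReal ((δ / 2) ^ d * vb d) * ENNReal.ofReal lam
        ≤ (volume Hp + volume Hp) * volume (tset A a e) := by
          rw [← vol_ball (0 : E d) (by positivity : 0 < δ / 2)]
          gcongr
      _ = 2 * (volume Hp * volume (tset A a e)) := by ring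
      _ ≤ 2 * (2 * (ENNReal.ofReal δ * V)) := by gcongr
      _ = _ := by ring
  have h5 : ENNReal.ofReal (4 * δ) * ENNReal.ofReal (vb d / 2 ^ (d + 2) * (lam * δ ^ (d - 1))) ≤
      ENNReal.ofReal (4 * δ) * V := by
    rw [← ENNReal.ofReal_mul (by positivity)]
    rw [← ENNReal.ofReal_mul (by positivity)] at h4
    have e2 : 4 * δ * (vb d / 2 ^ (d + 2) * (lam * δ ^ (d - 1))) = (δ / 2) ^ d * vb d * lam := by
      obtain ⟨k, rfl⟩ : ∃ k, d = k + 1 := ⟨d - 1, by omega⟩
      rw [Nat.add_sub_cancel, div_pow, pow_succ, pow_succ, pow_succ, pow_succ]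
      field_simp
      ring
    rw [e2]
    refine h4.trans (le_of_eq ?_)
    rw [ENNReal.ofReal_mul (by norm_num : (0:ℝ) ≤ 4)]
    have : ENNReal.ofReal 4 = 4 := by simp
    rw [this, mul_assoc]
  exact (ENNReal.mul_le_mul_iff_right (by
    rw [ne_eq, ENNReal.ofReal_eq_zero, not_le]; positivity) ENNReal.ofReal_ne_top).1 h5

end Pool.Agent.Helper37.Pt
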