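import Pool.Agent.Helper37.Pt.Levels
import Pool.Agent.Helper37.Pt.Discrete

set_option autoImplicit false
set_option linter.unusedSectionVars false

/-!
The tube inequality tested on products.
-/

open MeasureTheory Set Filter Topology ENNReal NNReal Metric

namespace Pool.Agent.Helper37.Pt

section

variable {m : ℕ} {d : Fin m → ℕ}

/-- The parameters `t`, `|t| ≤ 1/2`, for which `a + t e` belongs to the product of the sets. -/
def tsetP (B : ∀ j, Set (E (d j))) (a e : PiLp 2 (fun j : Fin m => E (d j))) : Set ℝ :=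
  {t | |t| ≤ 1 / 2 ∧ ∀ j, a j + t • e j ∈ B j}

theorem tsetP_sub (B : ∀ j, Set (E (d j))) (a e : PiLp 2 (fun j : Fin m => E (d j))) (j : Fin m) :
    tsetP B a e ⊆ tset (B j) (a j) (e j) := fun _ ht => ⟨ht.1, ht.2 j⟩

theorem tsetP_fin (B : ∀ j, Set (E (d j))) (a e : PiLp 2 (fun j : Fin m => E (d j))) :
    volume (tsetP B a e) ≠ ∞ := by
  have h1 : tsetP B a e ⊆ Icc (-(1 / 2)) (1 / 2) := fun t ht => abs_le.1 ht.1
  refine ((measure_mono h1).trans_lt ?_).ne
  rw [Real.volume_Icc]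
  exact ENNReal.ofReal_lt_top

theorem sumset (hm : 1 ≤ m) (hd : ∀ j, 1 ≤ d j) {κ : ℝ}
    (hκ0 : 0 < κ) (hκ1 : κ < 1) (hP : ∀ j, ∃ C : ℝ, 0 < C ∧ PP (d j) κ C) {p : ℝ}
    (hp : p = 1 + κ * ((∑ j, (d j : ℝ)) - 1)) :
    ∃ K : ℝ, 0 < K ∧ ∀ δ : ℝ, 0 < δ → δ < 1 → ∀ (ι : Type) [Fintype ι]
      (a e : ι → PiLp 2 (fun j : Fin m => E (d j))), (∀ i, ‖e i‖ = 1) →
      (∀ i i', i ≠ i' → δ ≤ ‖e i - e i'‖) →
      ∀ B : ∀ j, Set (E (d j)), (∀ j, MeasurableSet (B j)) →
      ∀ v : Fin m → ℝ, (∀ j, 0 < v j) → (∀ j, volume (thickening δ (B j)) ≤ ENNReal.ofReal (v j)) →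
      ∑ i, volume (tsetP B (a i) (e i)) ≤
        ENNReal.ofReal (K * (Fintype.card ι : ℝ) ^ (1 - κ / p) *
          (δ * ∏ j, v j / δ ^ d j) ^ (1 / p)) := by
  obtain ⟨C, hC, hdis⟩ := discrete hm hd hκ0 hκ1 hP
  have hn : (1:ℝ) ≤ ∑ j, (d j : ℝ) := by
    have h1 : (1:ℝ) ≤ d ⟨0, hm⟩ := by exact_mod_cast hd ⟨0, hm⟩
    exact h1.trans (Finset.single_le_sum (f := fun j => (d j : ℝ))
      (fun j _ => Nat.cast_nonneg _) (Finset.mem_univ _))
  set n : ℝ := ∑ j, (d j : ℝ) with hndef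
  have hp1 : 1 ≤ p := by
    rw [hp]
    nlinarith
  have hp0 : 0 < p := by linarith
  have hθ0 : 0 ≤ κ / p := by positivity
  have hθ1 : κ / p < 1 := by rw [div_lt_one hp0]; linarith
  have h1θ : 0 < 1 - κ / p := by linarith
  refine ⟨C ^ (1 / p) / (1 - κ / p), by positivity, ?_⟩
  intro δ hδ hδ1 ι _ a e he hsep B hB v hv0 hv
  classical
  have hV0 : 0 < δ * ∏ j, v j / δ ^ d j := by
    have : 0 < ∏ j, v j / δ ^ d j := Finset.prod_pos fun j _ => by have := hv0 j; positivity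
    positivity
  set V : ℝ := δ * ∏ j, v j / δ ^ d j with hV
  set μ : ι → ℝ := fun i => (volume (tsetP B (a i) (e i))).toReal with hμ
  have hμv : ∀ i, volume (tsetP B (a i) (e i)) = ENNReal.ofReal (μ i) := fun i =>
    (ENNReal.ofReal_toReal (tsetP_fin _ _ _)).symm
  have hμ0 : ∀ i, 0 ≤ μ i := fun i => ENNReal.toReal_nonneg
  have h1 := slem (μ := μ) (D := (C * V) ^ (1 / p)) hθ0 hθ1 (by positivity) Finset.univ (by
    intro S _ hSne
    obtain ⟨i0, hi0, hmin⟩ := S.exists_min_image μ hSne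
    refine ⟨i0, hi0, ?_⟩
    rcases (hμ0 i0).eq_or_lt with h0 | h0
    · rw [← h0]
      exact mul_nonneg (Real.rpow_nonneg (mul_pos hC hV0).le _)
        (Real.rpow_nonneg (Nat.cast_nonneg _) _)
    set lam : ℝ := μ i0 with hlam
    have hne : Nonempty S := ⟨⟨i0, hi0⟩⟩
    have h2 := hdis δ hδ hδ1 S (fun i => a i) (fun i => e i) (fun i => he i)
      (fun i i' hii => hsep i i' (fun h => hii (Subtype.ext h))) B hB lam h0
      (fun i j => by
        refine (ENNReal.ofReal_le_ofReal (hmin i i.2)).trans ?_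
        rw [← hμv]
        exact measure_mono (tsetP_sub B _ _ j)) v hv
    rw [Fintype.card_coe] at h2
    have hS0 : (0:ℝ) < S.card := Nat.cast_pos.2 (Finset.card_pos.2 hSne)
    generalize (S.card : ℝ) = sc at h2 hS0 ⊢
    have e1 : (∏ j, lam ^ (κ * d j)) * lam ^ (1 - κ) = lam ^ p := by
      rw [← Real.rpow_sum_of_pos h0, ← Real.rpow_add h0]
      congr 1
      rw [← Finset.mul_sum, hp]
      ring
    have h3 : sc ^ κ * lam ^ p ≤ C * V := by
      rw [← e1, hV]
      calc sc ^ κ * ((∏ j, lam ^ (κ * d j)) * lam ^ (1 - κ))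
          = (sc ^ κ * (∏ j, lam ^ (κ * d j)) * (lam ^ (1 - κ) * δ⁻¹)) * δ := by
            field_simp
        _ ≤ (C * ∏ j, v j / δ ^ d j) * δ := by gcongr
        _ = _ := by ring
    have h4 : lam ^ p ≤ C * V * sc ^ (-κ) := by
      calc lam ^ p = (sc ^ κ * lam ^ p) * sc ^ (-κ) := by
            have : sc ^ κ * sc ^ (-κ) = 1 := by
              rw [← Real.rpow_add hS0]; simp
            calc lam ^ p = lam ^ p * (sc ^ κ * sc ^ (-κ)) := by
                  rw [this, mul_one]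
              _ = _ := by ring
        _ ≤ _ := by gcongr
    have h5 := Real.rpow_le_rpow (by positivity) h4 (by positivity : 0 ≤ 1 / p)
    rw [← Real.rpow_mul h0.le, mul_one_div_cancel hp0.ne', Real.rpow_one,
      Real.mul_rpow (by positivity) (by positivity), ← Real.rpow_mul hS0.le] at h5
    refine h5.trans (le_of_eq ?_)
    congr 2
    ring)
  have h6 : ∑ i, volume (tsetP B (a i) (e i)) = ENNReal.ofReal (∑ i, μ i) := by
    rw [ENNReal.ofReal_sum_of_nonneg (fun i _ => hμ0 i)]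
    exact Finset.sum_congr rfl fun i _ => hμv i
  rw [h6]
  apply ENNReal.ofReal_le_ofReal
  refine h1.trans (le_of_eq ?_)
  rw [Finset.card_univ, Real.mul_rpow hC.le hV0.le]
  ring

/-- Splitting the interval `[-1, 1]`. -/
theorem split_le (B : ∀ j, Set (E (d j))) (a e : PiLp 2 (fun j : Fin m => E (d j))) :
    volume {t : ℝ | t ∈ Icc (-1:ℝ) 1 ∧ ∀ j, a j + t • e j ∈ B j} ≤
      volume (tsetP B (a + (1 / 2 : ℝ) • e) e) + volume (tsetP B (a - (1 / 2 : ℝ) • e) e) := by
  have h1 : {t : ℝ | t ∈ Icc (-1:ℝ) 1 ∧ ∀ j, a j + t • e j ∈ B j} ⊆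
      (fun t => t + (-(1 / 2) : ℝ)) ⁻¹' (tsetP B (a + (1 / 2 : ℝ) • e) e) ∪
      (fun t => t + (1 / 2 : ℝ)) ⁻¹' (tsetP B (a - (1 / 2 : ℝ) • e) e) := by
    rintro t ⟨⟨ht1, ht2⟩, htB⟩
    rcases le_total 0 t with h | h
    · left
      refine ⟨?_, ?_⟩
      · rw [abs_le]
        constructor <;> linarith
      · intro j
        have e1 : (a + (1 / 2 : ℝ) • e) j + (t + (-(1 / 2) : ℝ)) • e j = a j + t • e j := by
          rw [PiLp.add_apply, PiLp.smul_apply, add_smul, neg_smul]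
          abel
        rw [e1]
        exact htB j
    · right
      refine ⟨?_, ?_⟩
      · rw [abs_le]
        constructor <;> linarith
      · intro j
        have e1 : (a - (1 / 2 : ℝ) • e) j + (t + (1 / 2 : ℝ)) • e j = a j + t • e j := by
          rw [PiLp.sub_apply, PiLp.smul_apply, add_smul]
          abel
        rw [e1]
        exact htB j
  refine (measure_mono h1).trans ((measure_union_le _ _).trans ?_)
  rw [measure_preimage_add_right, measure_preimage_add_right]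

/-- **The tube inequality tested on products.** -/
theorem main_pi (hm : 1 ≤ m) (hd : ∀ j, 1 ≤ d j) {κ : ℝ}
    (hκ0 : 0 < κ) (hκ1 : κ < 1) (hP : ∀ j, ∃ C : ℝ, 0 < C ∧ PP (d j) κ C) {p n : ℝ}
    (hn : n = ∑ j, (d j : ℝ)) (hn1 : 1 < n) (hp : p = 1 + κ * (n - 1)) :
    ∃ K : ℝ, 0 < K ∧ ∀ δ : ℝ, 0 < δ → δ < 1 → ∀ (ι : Type) [Fintype ι]
      (a e : ι → PiLp 2 (fun j : Fin m => E (d j))), (∀ i, ‖e i‖ = 1) →
      (∀ i i', i ≠ i' → δ ≤ ‖e i - e i'‖) →
      ∀ A : ∀ j, Set (E (d j)), (∀ j, MeasurableSet (A j)) →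
      ∑ i, volume (tube δ (a i) (e i) ∩ {x | ∀ j, x j ∈ A j}) ≤
        ENNReal.ofReal (K * δ ^ ((n - 1) * (1 - 1 / p)) * (Fintype.card ι : ℝ) ^ (1 - κ / p)) *
          (∏ j, volume (A j)) ^ (1 / p) := by
  obtain ⟨K0, hK0, hsum⟩ := sumset hm hd hκ0 hκ1 hP (p := p) (by rw [hp, hn])
  have hp1 : 1 < p := by
    rw [hp]
    have : 0 < κ * (n - 1) := mul_pos hκ0 (by linarith)
    linarith
  have hp0 : 0 < p := by linarith
  have hip : 0 < 1 / p := by positivity
  have hip1 : 1 / p < 1 := by rw [div_lt_one hp0]; exact hp1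
  set r : ℝ := 1 / 2 * 2 ^ (1 / p) with hr
  have hr0 : 0 < r := by positivity
  have hr1 : r < 1 := by
    have : (2:ℝ) ^ (1 / p) < 2 := by
      calc (2:ℝ) ^ (1 / p) < 2 ^ (1:ℝ) := Real.rpow_lt_rpow_of_exponent_lt (by norm_num) hip1
        _ = 2 := Real.rpow_one 2
    rw [hr]
    linarith
  have hr1' : 0 < 1 - r := by linarith
  set Q : Fin m → ℝ := fun j => 2 ^ d j * vb (d j) * (2 * (3 / 2) ^ d j) ^ (1 / p) with hQ
  have hQ0 : ∀ j, 0 < Q j := fun j => by
    have := vb_pos (d j)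
    rw [hQ]
    positivity
  set CQ : ℝ := ∏ j, Q j with hCQ
  have hCQ0 : 0 < CQ := Finset.prod_pos fun j _ => hQ0 j
  refine ⟨2 * K0 * CQ * (1 / (1 - r)) ^ m, by positivity, ?_⟩
  intro δ hδ hδ1 ι _ a e he hsep A hA
  classical
  set P : Set (PiLp 2 (fun j : Fin m => E (d j))) := {x | ∀ j, x j ∈ A j} with hPdef
  rcases isEmpty_or_nonempty ι with hι | hι
  · simp
  have hN0 : (0:ℝ) < Fintype.card ι := Nat.cast_pos.2 Fintype.card_pos
  set N : ℝ := (Fintype.card ι : ℝ) with hN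
  by_cases hz : ∏ j, volume (A j) = 0
  · have h1 : ∀ i, volume (tube δ (a i) (e i) ∩ P) = 0 := by
      intro i
      have h2 : volume P = 0 := by rw [hPdef, vol_prod hA, hz]
      exact measure_mono_null inter_subset_right h2
    rw [Finset.sum_eq_zero fun i _ => h1 i]
    exact zero_le
  by_cases ht : ∏ j, volume (A j) = ∞
  · rw [ht, ENNReal.top_rpow_of_pos hip, ENNReal.mul_top]
    · exact le_top
    · rw [ne_eq, ENNReal.ofReal_eq_zero, not_le]
      positivity
  have hz' : ∀ j, volume (A j) ≠ 0 := fun j h => hz (Finset.prod_eq_zero (Finset.mem_univ j) h)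
  have ht' : ∀ j, volume (A j) ≠ ∞ := by
    intro j h
    apply ht
    rw [← Finset.mul_prod_erase _ _ (Finset.mem_univ j), h]
    apply ENNReal.top_mul
    rw [Finset.prod_ne_zero_iff]
    exact fun j _ => hz' j
  set α : Fin m → ℝ := fun j => (volume (A j)).toReal with hα
  have hα0 : ∀ j, 0 < α j := fun j => ENNReal.toReal_pos (hz' j) (ht' j)
  have hAα : ∀ j, volume (A j) = ENNReal.ofReal (α j) := fun j =>
    (ENNReal.ofReal_toReal (ht' j)).symm
  set B : (Fin m → ℕ) → ∀ j, Set (E (d j)) := fun k j => lev (A j) δ (k j) with hB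
  have hBm : ∀ k j, MeasurableSet (B k j) := fun k j => measurableSet_lev (hA j) _ _
  set v : (Fin m → ℕ) → Fin m → ℝ := fun k j => 2 * (3 / 2) ^ d j * α j * 2 ^ k j with hv
  have hv0 : ∀ k j, 0 < v k j := fun k j => by
    have := hα0 j
    rw [hv]
    positivity
  have hBv : ∀ k j, volume (thickening δ (B k j)) ≤ ENNReal.ofReal (v k j) := fun k j =>
    vol_lev (hd j) (hA j) hδ (k j) (hα0 j).le (hAα j)
  set c : (Fin m → ℕ) → ℝ := fun k => ∏ j, ((2 * δ) ^ d j * vb (d j) * (1 / 2) ^ k j) with hc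
  have hc0 : ∀ k, 0 ≤ c k := fun k => Finset.prod_nonneg fun j _ => by
    have := vb_pos (d j)
    positivity
  -- one tube
  have hone : ∀ i, ENNReal.ofReal δ * volume (tube δ (a i) (e i) ∩ P) ≤
      ∑' k, ENNReal.ofReal (c k) * (volume (tsetP (B k) (a i + (1 / 2 : ℝ) • e i) (e i)) +
        volume (tsetP (B k) (a i - (1 / 2 : ℝ) • e i) (e i))) := by
    intro i
    refine (upper hδ hδ1 (he i) hA).trans ?_
    have hTm : ∀ k, MeasurableSet {t : ℝ | ∀ j, a i j + t • e i j ∈ B k j} := by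
      intro k
      have e1 : {t : ℝ | ∀ j, a i j + t • e i j ∈ B k j} =
          ⋂ j, (fun t : ℝ => a i j + t • e i j) ⁻¹' B k j := by
        ext t
        simp
      rw [e1]
      refine MeasurableSet.iInter fun j => ?_
      have h1 : Continuous (fun t : ℝ => a i j + t • e i j) := by fun_prop
      exact h1.measurable (hBm k j)
    calc ∫⁻ t in Icc (-1:ℝ) 1, ∏ j, volume (A j ∩ closedBall (a i j + t • e i j) (2 * δ))
        ≤ ∫⁻ t in Icc (-1:ℝ) 1, ∑' k, ENNReal.ofReal (c k) *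
            {t : ℝ | ∀ j, a i j + t • e i j ∈ B k j}.indicator (fun _ => (1:ℝ≥0∞)) t := by
          apply lintegral_mono
          intro t
          exact prod_le_tsum hd A hδ (fun j => a i j + t • e i j)
      _ = ∑' k, ∫⁻ t in Icc (-1:ℝ) 1, ENNReal.ofReal (c k) *
            {t : ℝ | ∀ j, a i j + t • e i j ∈ B k j}.indicator (fun _ => (1:ℝ≥0∞)) t := by
          apply lintegral_tsum
          intro k
          exact ((measurable_const.indicator (hTm k)).const_mul _).aemeasurable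
      _ ≤ _ := by
          apply ENNReal.tsum_le_tsum
          intro k
          rw [lintegral_const_mul _ (measurable_const.indicator (hTm k)),
            lintegral_indicator (hTm k), setLIntegral_one, Measure.restrict_apply' measurableSet_Icc]
          refine mul_le_mul' le_rfl ?_
          refine le_trans (measure_mono ?_) (split_le (B k) (a i) (e i))
          rintro t ⟨ht1, ht2⟩
          exact ⟨ht2, ht1⟩
  -- all the tubes
  have hall : ENNReal.ofReal δ * ∑ i, volume (tube δ (a i) (e i) ∩ P) ≤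
      ∑' k, ENNReal.ofReal (c k) * ENNReal.ofReal (2 * (K0 * N ^ (1 - κ / p) *
          (δ * ∏ j, v k j / δ ^ d j) ^ (1 / p))) := by
    rw [Finset.mul_sum]
    calc ∑ i, ENNReal.ofReal δ * volume (tube δ (a i) (e i) ∩ P)
        ≤ ∑ i, ∑' k, ENNReal.ofReal (c k) *
            (volume (tsetP (B k) (a i + (1 / 2 : ℝ) • e i) (e i)) +
              volume (tsetP (B k) (a i - (1 / 2 : ℝ) • e i) (e i))) :=
          Finset.sum_le_sum fun i _ => hone i
      _ = ∑' k, ∑ i, ENNReal.ofReal (c k) *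
            (volume (tsetP (B k) (a i + (1 / 2 : ℝ) • e i) (e i)) +
              volume (tsetP (B k) (a i - (1 / 2 : ℝ) • e i) (e i))) :=
          (Summable.tsum_finsetSum fun i _ => ENNReal.summable).symm
      _ ≤ _ := by
          apply ENNReal.tsum_le_tsum
          intro k
          rw [← Finset.mul_sum, Finset.sum_add_distrib]
          refine mul_le_mul' le_rfl ?_
          have h1 := hsum δ hδ hδ1 ι (fun i => a i + (1 / 2 : ℝ) • e i) e he hsep (B k) (hBm k)
            (v k) (hv0 k) (hBv k)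
          have h2 := hsum δ hδ hδ1 ι (fun i => a i - (1 / 2 : ℝ) • e i) e he hsep (B k) (hBm k)
            (v k) (hv0 k) (hBv k)
          refine (add_le_add h1 h2).trans (le_of_eq ?_)
          rw [← ENNReal.ofReal_add]
          · congr 1
            ring
          · have : 0 < ∏ j, v k j / δ ^ d j := Finset.prod_pos fun j _ => by
              have := hv0 k j
              positivity
            positivity
          · have : 0 < ∏ j, v k j / δ ^ d j := Finset.prod_pos fun j _ => by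
              have := hv0 k j
              positivity
            positivity
  -- the sum over the levels
  have hterm : ∀ k, c k * (2 * (K0 * N ^ (1 - κ / p) * (δ * ∏ j, v k j / δ ^ d j) ^ (1 / p))) =
      2 * K0 * CQ * N ^ (1 - κ / p) * δ ^ (1 / p) * δ ^ (n * (1 - 1 / p)) * (∏ j, α j) ^ (1 / p) *
        ∏ j, r ^ k j := by
    intro k
    have hVk : 0 < ∏ j, v k j / δ ^ d j := Finset.prod_pos fun j _ => by
      have := hv0 k j
      positivity
    have e1 : (∏ j, v k j / δ ^ d j) ^ (1 / p) = ∏ j, (v k j / δ ^ d j) ^ (1 / p) :=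
      (Real.finsetProd_rpow _ _ (fun j _ => by have := hv0 k j; positivity) _).symm
    have e2 : (∏ j, α j) ^ (1 / p) = ∏ j, α j ^ (1 / p) :=
      (Real.finsetProd_rpow _ _ (fun j _ => (hα0 j).le) _).symm
    have e3 : δ ^ (n * (1 - 1 / p)) = ∏ j, δ ^ ((d j : ℝ) * (1 - 1 / p)) := by
      rw [← Real.rpow_sum_of_pos hδ, ← Finset.sum_mul, hn]
    have e4 : ∀ j, ((2 * δ) ^ d j * vb (d j) * (1 / 2) ^ k j) * (v k j / δ ^ d j) ^ (1 / p) =
        Q j * δ ^ ((d j : ℝ) * (1 - 1 / p)) * α j ^ (1 / p) * r ^ k j := by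
      intro j
      have hαj := hα0 j
      have hvb := vb_pos (d j)
      have f1 : (v k j / δ ^ d j) ^ (1 / p) =
          (2 * (3 / 2) ^ d j) ^ (1 / p) * α j ^ (1 / p) * ((2:ℝ) ^ (1 / p)) ^ k j *
            δ ^ (-((d j : ℝ) * (1 / p))) := by
        rw [hv]
        simp only
        rw [Real.div_rpow (by positivity) (by positivity),
          Real.mul_rpow (x := 2 * (3 / 2) ^ d j * α j) (by positivity) (by positivity),
          Real.mul_rpow (x := 2 * (3 / 2) ^ d j) (by positivity) hαj.le, div_eq_mul_inv,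
          ← Real.rpow_natCast 2 (k j), ← Real.rpow_mul (by norm_num),
          ← Real.rpow_natCast δ (d j), ← Real.rpow_mul hδ.le, ← Real.rpow_neg hδ.le,
          ← Real.rpow_natCast ((2:ℝ) ^ (1 / p)) (k j), ← Real.rpow_mul (by norm_num),
          mul_comm (k j : ℝ) (1 / p)]
      have f2 : δ ^ ((d j : ℝ) * (1 - 1 / p)) = δ ^ d j * δ ^ (-((d j : ℝ) * (1 / p))) := by
        rw [← Real.rpow_natCast, ← Real.rpow_add hδ]
        congr 1
        ring
      rw [f1, f2, hQ, hr]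
      simp only
      rw [mul_pow, mul_pow (1 / 2 : ℝ)]
      ring
    calc c k * (2 * (K0 * N ^ (1 - κ / p) * (δ * ∏ j, v k j / δ ^ d j) ^ (1 / p)))
        = 2 * K0 * N ^ (1 - κ / p) * δ ^ (1 / p) * ∏ j,
            (((2 * δ) ^ d j * vb (d j) * (1 / 2) ^ k j) * (v k j / δ ^ d j) ^ (1 / p)) := by
          rw [Real.mul_rpow hδ.le hVk.le, e1, Finset.prod_mul_distrib]
          ring
      _ = 2 * K0 * N ^ (1 - κ / p) * δ ^ (1 / p) * ∏ j,
            (Q j * δ ^ ((d j : ℝ) * (1 - 1 / p)) * α j ^ (1 / p) * r ^ k j) := by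
          rw [Finset.prod_congr rfl fun j _ => e4 j]
      _ = _ := by
          rw [Finset.prod_mul_distrib, Finset.prod_mul_distrib, Finset.prod_mul_distrib, ← e2,
            ← e3]
          ring
  have hαp : 0 < (∏ j, α j) ^ (1 / p) := by
    have : 0 < ∏ j, α j := Finset.prod_pos fun j _ => hα0 j
    positivity
  have hfin : ENNReal.ofReal δ * ∑ i, volume (tube δ (a i) (e i) ∩ P) ≤
      ENNReal.ofReal (2 * K0 * CQ * N ^ (1 - κ / p) * δ ^ (1 / p) * δ ^ (n * (1 - 1 / p)) *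
        (∏ j, α j) ^ (1 / p) * (1 / (1 - r)) ^ m) := by
    refine hall.trans ?_
    calc ∑' k, ENNReal.ofReal (c k) * ENNReal.ofReal (2 * (K0 * N ^ (1 - κ / p) *
          (δ * ∏ j, v k j / δ ^ d j) ^ (1 / p)))
        = ∑' k : Fin m → ℕ, ENNReal.ofReal (2 * K0 * CQ * N ^ (1 - κ / p) * δ ^ (1 / p) *
            δ ^ (n * (1 - 1 / p)) * (∏ j, α j) ^ (1 / p)) * ENNReal.ofReal (∏ j, r ^ k j) := by
          apply tsum_congr
          intro k
          rw [← ENNReal.ofReal_mul (hc0 k), hterm k, ENNReal.ofReal_mul (by positivity)]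
      _ = ENNReal.ofReal (2 * K0 * CQ * N ^ (1 - κ / p) * δ ^ (1 / p) *
            δ ^ (n * (1 - 1 / p)) * (∏ j, α j) ^ (1 / p)) *
            ∑' k : Fin m → ℕ, ENNReal.ofReal (∏ j, r ^ k j) := ENNReal.tsum_mul_left
      _ ≤ ENNReal.ofReal (2 * K0 * CQ * N ^ (1 - κ / p) * δ ^ (1 / p) *
            δ ^ (n * (1 - 1 / p)) * (∏ j, α j) ^ (1 / p)) *
            ENNReal.ofReal ((1 / (1 - r)) ^ m) := by
          gcongr
          exact tsum_pi_le hr0 hr1
      _ = _ := by rw [← ENNReal.ofReal_mul (by positivity)]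
  have hprod : (∏ j, volume (A j)) ^ (1 / p) = ENNReal.ofReal ((∏ j, α j) ^ (1 / p)) := by
    rw [Finset.prod_congr rfl fun j _ => hAα j,
      ← ENNReal.ofReal_prod_of_nonneg (fun j _ => (hα0 j).le),
      ENNReal.ofReal_rpow_of_nonneg (Finset.prod_nonneg fun j _ => (hα0 j).le) hip.le]
  rw [hprod, ← ENNReal.ofReal_mul (by positivity)]
  refine (ENNReal.mul_le_mul_iff_right (a := ENNReal.ofReal δ) (by
    rw [ne_eq, ENNReal.ofReal_eq_zero, not_le]; exact hδ) ENNReal.ofReal_ne_top).1 ?_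
  refine hfin.trans (le_of_eq ?_)
  rw [← ENNReal.ofReal_mul hδ.le]
  congr 1
  have e5 : δ ^ (1 / p) * δ ^ (n * (1 - 1 / p)) = δ * δ ^ ((n - 1) * (1 - 1 / p)) := by
    nth_rewrite 3 [← Real.rpow_one δ]
    rw [← Real.rpow_add hδ, ← Real.rpow_add hδ]
    congr 1
    ring
  calc 2 * K0 * CQ * N ^ (1 - κ / p) * δ ^ (1 / p) * δ ^ (n * (1 - 1 / p)) *
        (∏ j, α j) ^ (1 / p) * (1 / (1 - r)) ^ m
      = 2 * K0 * CQ * N ^ (1 - κ / p) * (δ ^ (1 / p) * δ ^ (n * (1 - 1 / p))) *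
        (∏ j, α j) ^ (1 / p) * (1 / (1 - r)) ^ m := by ring
    _ = _ := by rw [e5]; ring

end

end Pool.Agent.Helper37.Pt
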