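import Pool.Agent.Helper37.Pt.Low

set_option autoImplicit false
set_option linter.unusedSectionVars false

/-!
The volume of products.
-/

open MeasureTheory Set Filter Topology ENNReal NNReal Metric
open Module

namespace Pool.Agent.Helper37.Pt

theorem map_toLp {m : ℕ} (d : Fin m → ℕ) :
    Measure.map (WithLp.toLp 2 : (∀ j, E (d j)) → PiLp 2 (fun j => E (d j)))
      (Measure.pi fun j => (volume : Measure (E (d j)))) = volume := by
  set L : (∀ j, E (d j)) ≃L[ℝ] PiLp 2 (fun j => E (d j)) :=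
    (PiLp.continuousLinearEquiv 2 ℝ (fun j => E (d j))).symm with hL
  have hL' : (WithLp.toLp 2 : (∀ j, E (d j)) → PiLp 2 (fun j => E (d j))) = ⇑L := rfl
  rw [hL']
  set b : OrthonormalBasis ((j : Fin m) × Fin (d j)) ℝ (PiLp 2 (fun j => E (d j))) :=
    Pi.orthonormalBasis (fun j => EuclideanSpace.basisFun (Fin (d j)) ℝ) with hb
  rw [← b.addHaar_eq_volume]
  symm
  rw [Basis.addHaar_eq_iff, Basis.coe_parallelepiped, parallelepiped_basis_eq]
  have hm : MeasurableSet {x : PiLp 2 (fun j => E (d j)) | ∀ i, b.toBasis.repr x i ∈ Icc (0:ℝ) 1} := by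
    have e1 : {x : PiLp 2 (fun j => E (d j)) | ∀ i, b.toBasis.repr x i ∈ Icc (0:ℝ) 1} =
        ⋂ i, (fun x => b.repr x i) ⁻¹' Icc (0:ℝ) 1 := by
      ext x
      simp
    rw [e1]
    refine MeasurableSet.iInter fun i => ?_
    have h1 : Continuous (fun x : PiLp 2 (fun j => E (d j)) => b.repr x i) := by fun_prop
    exact h1.measurable measurableSet_Icc
  rw [Measure.map_apply L.continuous.measurable hm]
  have e2 : L ⁻¹' {x : PiLp 2 (fun j => E (d j)) | ∀ i, b.toBasis.repr x i ∈ Icc (0:ℝ) 1} =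
      Set.pi univ (fun j => {z : E (d j) | ∀ k,
        (EuclideanSpace.basisFun (Fin (d j)) ℝ).toBasis.repr z k ∈ Icc (0:ℝ) 1}) := by
    ext y
    constructor
    · intro h j _ k
      have := h ⟨j, k⟩
      exact this
    · rintro h ⟨j, k⟩
      exact h j (mem_univ _) k
  rw [e2, Measure.pi_pi]
  apply Finset.prod_eq_one
  intro j _
  rw [← parallelepiped_basis_eq]
  exact (EuclideanSpace.basisFun (Fin (d j)) ℝ).volume_parallelepiped

/-- The volume of a product. -/
theorem vol_prod {m : ℕ} {d : Fin m → ℕ} {B : ∀ j, Set (E (d j))} (hB : ∀ j, MeasurableSet (B j)) :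
    volume {x : PiLp 2 (fun j => E (d j)) | ∀ j, x j ∈ B j} = ∏ j, volume (B j) := by
  have hm : MeasurableSet {x : PiLp 2 (fun j => E (d j)) | ∀ j, x j ∈ B j} := by
    have e1 : {x : PiLp 2 (fun j => E (d j)) | ∀ j, x j ∈ B j} =
        ⋂ j, (fun x : PiLp 2 (fun j => E (d j)) => x j) ⁻¹' B j := by
      ext x
      simp
    rw [e1]
    refine MeasurableSet.iInter fun j => ?_
    have h1 : Continuous (fun x : PiLp 2 (fun j => E (d j)) => x j) := by fun_prop
    exact h1.measurable (hB j)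
  rw [← map_toLp, Measure.map_apply (WithLp.measurable_toLp 2 _) hm]
  have e2 : (WithLp.toLp 2 : (∀ j, E (d j)) → PiLp 2 (fun j => E (d j))) ⁻¹'
      {x : PiLp 2 (fun j => E (d j)) | ∀ j, x j ∈ B j} = Set.pi univ B := by
    ext y
    constructor
    · intro h j _
      exact h j
    · intro h j
      exact h j (mem_univ _)
  rw [e2, Measure.pi_pi]

end Pool.Agent.Helper37.Pt
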