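import Pool.Agent.Helper37.Pt.Low
import Pool.Graph.R_pool_sql_team_seeded_5cf16337.K3h46.TMC.Geo
import Pool.Graph.R_seed8.Y254.Geo
import Pool.Graph.R_seed8.Y254.Hair

set_option autoImplicit false
set_option linter.unusedSectionVars false

/-!
The number of segments with a large intersection with a set: the line, the plane, and the
consequences of the tube inequality.
-/

open MeasureTheory Set Filter Topology ENNReal NNReal Metric

namespace Pool.Agent.Helper37.Pt

/-- The estimate for the number of the unit segments with a large intersection with a set. -/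
def PP (d : ℕ) (κ C : ℝ) : Prop :=
  ∀ δ : ℝ, 0 < δ → δ < 1 → ∀ (ι : Type) [Fintype ι] [Nonempty ι] (a e : ι → E d),
    (∀ i, ‖e i‖ = 1) → (∀ i j, i ≠ j → δ ≤ ‖e i - e j‖) →
    ∀ A : Set (E d), MeasurableSet A → ∀ lam : ℝ, 0 < lam →
    (∀ i, ENNReal.ofReal lam ≤ volume (tset A (a i) (e i))) →
    ∀ v : ℝ, volume (thickening δ A) ≤ ENNReal.ofReal v →
    (Fintype.card ι : ℝ) ^ κ * lam ^ (1 + κ * ((d:ℝ) - 1)) * δ ^ ((d:ℝ) - 1) ≤ C * v

theorem low_v {d : ℕ} (hd : 1 ≤ d) {δ : ℝ} (hδ : 0 < δ) (hδ1 : δ ≤ 1) {a e : E d} (he : ‖e‖ = 1)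
    {A : Set (E d)} (hA : MeasurableSet A) {lam : ℝ} (hlam : 0 < lam)
    (h : ENNReal.ofReal lam ≤ volume (tset A a e)) {v : ℝ}
    (hv : volume (thickening δ A) ≤ ENNReal.ofReal v) :
    vb d / 2 ^ (d + 2) * (lam * δ ^ (d - 1)) ≤ v := by
  have hvb := vb_pos d
  have h1 := (low hd hδ hδ1 he hA h).trans ((measure_mono inter_subset_right).trans hv)
  have h2 : 0 < v := by
    by_contra hcon
    rw [ENNReal.ofReal_of_nonpos (not_lt.1 hcon), nonpos_iff_eq_zero, ENNReal.ofReal_eq_zero] at h1
    have : 0 < vb d / 2 ^ (d + 2) * (lam * δ ^ (d - 1)) := by positivity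
    linarith
  exact (ENNReal.ofReal_le_ofReal_iff h2.le).1 h1

theorem lam_le_one {d : ℕ} {a e : E d} {A : Set (E d)} {lam : ℝ}
    (h : ENNReal.ofReal lam ≤ volume (tset A a e)) : lam ≤ 1 := by
  have h1 := h.trans (volume_tset_le A a e)
  rwa [← ENNReal.ofReal_one, ENNReal.ofReal_le_ofReal_iff zero_le_one] at h1

theorem pp_one {κ : ℝ} (hκ : 0 ≤ κ) : ∃ C : ℝ, 0 < C ∧ PP 1 κ C := by
  have hvb := vb_pos 1
  refine ⟨2 ^ κ * (8 / vb 1), by positivity, ?_⟩
  intro δ hδ hδ1 ι _ _ a e he hsep A hA lam hlam hden v hv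
  obtain ⟨i0⟩ := ‹Nonempty ι›
  have h1 := low_v le_rfl hδ hδ1.le (he i0) hA hlam (hden i0) hv
  have hcard : (Fintype.card ι : ℝ) ≤ 2 := by
    have hinj : Function.Injective (fun i => decide (0 ≤ e i 0)) := by
      intro i j hij
      by_contra hne
      have h2 := hsep i j hne
      have h3 : ∀ i, |e i 0| = 1 := by
        intro i
        have := he i
        rw [EuclideanSpace.norm_eq] at this
        simpa [Real.sqrt_sq_eq_abs] using this
      have h4 : e i 0 = e j 0 := by
        simp only [decide_eq_decide] at hij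
        have hi := h3 i
        have hj := h3 j
        rcases le_or_gt 0 (e i 0) with h | h
        · have h' := hij.1 h
          rw [abs_of_nonneg h] at hi
          rw [abs_of_nonneg h'] at hj
          rw [hi, hj]
        · have h' : e j 0 < 0 := by
            by_contra hc
            exact absurd (hij.2 (not_lt.1 hc)) (not_le.2 h)
          rw [abs_of_neg h] at hi
          rw [abs_of_neg h'] at hj
          linarith
      have h5 : e i = e j := by
        ext k
        fin_cases k
        exact h4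
      rw [h5, sub_self, norm_zero] at h2
      linarith
    have := Fintype.card_le_of_injective _ hinj
    rw [Fintype.card_bool] at this
    exact_mod_cast this
  have h2 : (Fintype.card ι : ℝ) ^ κ ≤ 2 ^ κ :=
    Real.rpow_le_rpow (by positivity) hcard hκ
  have h3 : lam ≤ 8 / vb 1 * v := by
    have e1 : vb 1 / 2 ^ (1 + 2) * (lam * δ ^ (1 - 1)) = vb 1 / 8 * lam := by norm_num
    rw [e1] at h1
    calc lam = 8 / vb 1 * (vb 1 / 8 * lam) := by field_simp
      _ ≤ _ := by gcongr
  calc (Fintype.card ι : ℝ) ^ κ * lam ^ (1 + κ * (((1:ℕ):ℝ) - 1)) * δ ^ (((1:ℕ):ℝ) - 1)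
      = (Fintype.card ι : ℝ) ^ κ * lam := by simp
    _ ≤ 2 ^ κ * (8 / vb 1 * v) := by gcongr
    _ = _ := by ring

/-- Cordoba's estimate, for directions in a cap. -/
theorem pp_two_cap {κ : ℝ} (hκ : 0 < κ) (hκ1 : κ < 1) : ∃ C : ℝ, 0 < C ∧
    ∀ δ : ℝ, 0 < δ → δ < 1 → ∀ (ι : Type) [Fintype ι] [Nonempty ι] (a e : ι → E 2),
    (∀ i, ‖e i‖ = 1) → (∀ i j, i ≠ j → δ ≤ ‖e i - e j‖) → (∀ i j, ‖e i - e j‖ ≤ 1) →
    ∀ A : Set (E 2), MeasurableSet A → ∀ lam : ℝ, 0 < lam →
    (∀ i, ENNReal.ofReal lam ≤ volume (tset A (a i) (e i))) →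
    ∀ v : ℝ, volume (thickening δ A) ≤ ENNReal.ofReal v →
    (Fintype.card ι : ℝ) ^ κ * lam ^ (1 + κ) * δ ≤ C * v := by
  obtain ⟨Cp, hCp, hpack⟩ := Pool.Agent.K3h46.TMC.cap_packing 1
  have hvb := vb_pos 2
  have hCv := Pool.Agent.Y254.Cv_pos 2
  set c0 : ℝ := vb 2 / 2 ^ 4 with hc0
  have hc00 : 0 < c0 := by positivity
  set C1 : ℝ := Pool.Agent.Y254.Cv 2 * 12 with hC1
  have hC10 : 0 < C1 := by positivity
  set C2 : ℝ := c0 ^ (1 - κ) * C1 ^ κ with hC2
  set D : ℝ := (2 * Cp) ^ κ with hD
  set C3 : ℝ := c0 + C2 * (D / (1 - κ)) with hC3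
  have h1κ : 0 < 1 - κ := by linarith
  have hC30 : 0 < C3 := by positivity
  refine ⟨C3 / c0 ^ 2, by positivity, ?_⟩
  intro δ hδ hδ1 ι _ _ a e he hsep hcap A hA lam hlam hden v hv
  classical
  obtain ⟨i0⟩ := ‹Nonempty ι›
  have hlam1 : lam ≤ 1 := lam_le_one (hden i0)
  have hv0 : 0 < v := by
    have h1 := low_v (by norm_num) hδ hδ1.le (he i0) hA hlam (hden i0) hv
    have : 0 < vb 2 / 2 ^ (2 + 2) * (lam * δ ^ (2 - 1)) := by positivity
    linarith
  have hN0 : (0:ℝ) < Fintype.card ι := Nat.cast_pos.2 (Fintype.card_pos_iff.2 ⟨i0⟩)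
  have hN1 : (1:ℝ) ≤ Fintype.card ι := by
    have : 0 < Fintype.card ι := Fintype.card_pos_iff.2 ⟨i0⟩
    exact_mod_cast this
  set N : ℝ := (Fintype.card ι : ℝ) with hN
  set U : Set (E 2) := thickening δ A with hU
  have hUm : MeasurableSet U := isOpen_thickening.measurableSet
  set T : ι → Set (E 2) := fun i => tube δ (a i) (e i) with hT
  have hTm : ∀ i, MeasurableSet (T i) := fun i => (isClosed_tube _ _ _).measurableSet
  set V : ι → ℝ≥0∞ := fun i => volume (T i ∩ U) with hV
  set β : ℝ := c0 * (lam * δ) with hβ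
  have hβ0 : 0 < β := by positivity
  have hVβ : ∀ i, ENNReal.ofReal β ≤ V i := by
    intro i
    have := low (d := 2) (by norm_num) hδ hδ1.le (he i) hA (hden i)
    simpa [hβ, hc0] using this
  have hV0 : ∀ i, V i ≠ 0 := fun i => ((ENNReal.ofReal_pos.2 hβ0).trans_le (hVβ i)).ne'
  have hVt : ∀ i, V i ≠ ∞ := fun i =>
    ((measure_mono inter_subset_right).trans_lt (hv.trans_lt ENNReal.ofReal_lt_top)).ne
  set w : ι → ℝ≥0∞ := fun i => ENNReal.ofReal β / V i with hw
  have hw1 : ∀ i, w i ≤ 1 := fun i => ENNReal.div_le_of_le_mul (by rw [one_mul]; exact hVβ i)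
  have hwV : ∀ i, w i * V i = ENNReal.ofReal β := fun i => ENNReal.div_mul_cancel (hV0 i) (hVt i)
  set F : E 2 → ℝ≥0∞ := fun x => ∑ i, w i * (T i ∩ U).indicator (fun _ => 1) x with hF
  have hTUm : ∀ i, MeasurableSet (T i ∩ U) := fun i => (hTm i).inter hUm
  have hFm : Measurable F := by
    refine Finset.measurable_sum _ fun i _ => ?_
    exact (measurable_const.indicator (hTUm i)).const_mul _
  have hint : ∫⁻ x, F x * U.indicator (fun _ => 1) x = ENNReal.ofReal (N * β) := by
    have e1 : ∀ x, F x * U.indicator (fun _ => 1) x = F x := by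
      intro x
      by_cases hx : x ∈ U
      · rw [indicator_of_mem hx, mul_one]
      · have : F x = 0 := by
          rw [hF]
          apply Finset.sum_eq_zero
          intro i _
          rw [indicator_of_notMem (fun h => hx h.2), mul_zero]
        rw [this, zero_mul]
    simp only [e1]
    rw [hF, lintegral_finsetSum _ (fun i _ => (measurable_const.indicator (hTUm i)).const_mul _)]
    have e2 : ∀ i, ∫⁻ x, w i * (T i ∩ U).indicator (fun _ => (1:ℝ≥0∞)) x = ENNReal.ofReal β := by
      intro i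
      rw [lintegral_const_mul _ (measurable_const.indicator (hTUm i)),
        lintegral_indicator (hTUm i), setLIntegral_one]
      exact hwV i
    rw [Finset.sum_congr rfl (fun i _ => e2 i), Finset.sum_const, Finset.card_univ, nsmul_eq_mul,
      ENNReal.ofReal_mul hN0.le, hN, ENNReal.ofReal_natCast]
  have hcs := Pool.Agent.Y254.cs_sq volume hFm
    (measurable_const.indicator hUm : Measurable (U.indicator (fun _ => (1:ℝ≥0∞))))
  rw [hint] at hcs
  have hU2 : ∫⁻ x, U.indicator (fun _ => (1:ℝ≥0∞)) x ^ 2 = volume U := by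
    have e1 : ∀ x, U.indicator (fun _ => (1:ℝ≥0∞)) x ^ 2 = U.indicator (fun _ => (1:ℝ≥0∞)) x := by
      intro x
      by_cases hx : x ∈ U
      · rw [indicator_of_mem hx, one_pow]
      · rw [indicator_of_notMem hx]; simp
    simp only [e1]
    rw [lintegral_indicator hUm, setLIntegral_one]
  rw [hU2] at hcs
  -- the pairs
  set μ : ι → ι → ℝ := fun i j => (δ / ‖e i - e j‖) ^ κ with hμ
  have hpair : ∀ i j, i ≠ j → w i * w j * volume (T i ∩ U ∩ (T j ∩ U)) ≤
      ENNReal.ofReal (C2 * (δ * lam ^ (1 - κ)) * μ i j) := by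
    intro i j hij
    have hr : δ ≤ ‖e i - e j‖ := hsep i j hij
    have hr0 : 0 < ‖e i - e j‖ := by linarith
    have h1 : w i * w j * volume (T i ∩ U ∩ (T j ∩ U)) ≤ ENNReal.ofReal β := by
      calc w i * w j * volume (T i ∩ U ∩ (T j ∩ U)) ≤ w i * 1 * V i := by
            gcongr
            · exact hw1 j
            · exact measure_mono inter_subset_left
        _ = ENNReal.ofReal β := by rw [mul_one, hwV]
    have h2 : w i * w j * volume (T i ∩ U ∩ (T j ∩ U)) ≤
        ENNReal.ofReal (C1 * δ * (δ / ‖e i - e j‖)) := by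
      calc w i * w j * volume (T i ∩ U ∩ (T j ∩ U)) ≤ 1 * 1 * volume (T i ∩ T j) := by
            gcongr
            · exact hw1 i
            · exact hw1 j
            · exact inter_subset_left
            · exact inter_subset_left
        _ ≤ _ := by
            rw [one_mul, one_mul]
            refine (Pool.Agent.Y254.vol_inter' (n := 2) (by norm_num) hδ (a := a i) (a' := a j)
              (he i) (he j) (hcap i j) hr0).trans (le_of_eq ?_)
            congr 1
            rw [hC1]
            norm_num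
            ring
    have h3 : w i * w j * volume (T i ∩ U ∩ (T j ∩ U)) ≤
        ENNReal.ofReal (min β (C1 * δ * (δ / ‖e i - e j‖))) := by
      rcases min_choice β (C1 * δ * (δ / ‖e i - e j‖)) with h | h
      · rw [h]; exact h1
      · rw [h]; exact h2
    refine h3.trans (ENNReal.ofReal_le_ofReal ?_)
    set γ : ℝ := C1 * δ * (δ / ‖e i - e j‖) with hγ
    have hγ0 : 0 < γ := by positivity
    have hm0 : 0 < min β γ := lt_min hβ0 hγ0
    calc min β γ = (min β γ) ^ (1 - κ) * (min β γ) ^ κ := by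
          rw [← Real.rpow_add hm0, sub_add_cancel, Real.rpow_one]
      _ ≤ β ^ (1 - κ) * γ ^ κ := by
          apply mul_le_mul
          · exact Real.rpow_le_rpow hm0.le (min_le_left _ _) h1κ.le
          · exact Real.rpow_le_rpow hm0.le (min_le_right _ _) hκ.le
          · positivity
          · positivity
      _ = C2 * (δ * lam ^ (1 - κ)) * μ i j := by
          rw [hβ, hγ, hC2, hμ, Real.mul_rpow (x := c0) (by positivity) (by positivity),
            Real.mul_rpow (x := lam) (by positivity) (by positivity),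
            Real.mul_rpow (x := C1 * δ) (by positivity) (by positivity),
            Real.mul_rpow (x := C1) (by positivity) (by positivity)]
          have e1 : δ = δ ^ (1 - κ) * δ ^ κ := by
            rw [← Real.rpow_add hδ, sub_add_cancel, Real.rpow_one]
          simp only
          nth_rewrite 4 [e1]
          ring
  have hrow : ∀ i, ∑ j ∈ Finset.univ.erase i, μ i j ≤ D / (1 - κ) * N ^ (1 - κ) := by
    intro i
    have h1 := slem (μ := μ i) (D := D) hκ.le hκ1 (by positivity) (Finset.univ.erase i) (by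
      intro S hS hSne
      obtain ⟨j, hj, hmax⟩ := S.exists_max_image (fun j => ‖e i - e j‖) hSne
      refine ⟨j, hj, ?_⟩
      have hij : i ≠ j := by
        have := hS hj
        rw [Finset.mem_erase] at this
        exact this.1.symm
      have hr : δ ≤ ‖e i - e j‖ := hsep i j hij
      have hr0 : 0 < ‖e i - e j‖ := by linarith
      have h2 := hpack δ ‖e i - e j‖ hδ hδ1.le hr0.le ι S e (e i) (he i) (fun l _ => he l)
        (fun l _ l' _ hne => hsep l l' hne) (fun l hl => by
          rw [norm_sub_rev]; exact hmax l hl)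
      have hS0 : (0:ℝ) < S.card := Nat.cast_pos.2 (Finset.card_pos.2 hSne)
      have h3 : (S.card : ℝ) ≤ 2 * Cp * (‖e i - e j‖ / δ) := by
        rw [pow_one] at h2
        refine h2.trans ?_
        have : (δ + ‖e i - e j‖) / δ ≤ 2 * (‖e i - e j‖ / δ) := by
          rw [← mul_div_assoc]
          gcongr
          linarith
        calc Cp * ((δ + ‖e i - e j‖) / δ) ≤ Cp * (2 * (‖e i - e j‖ / δ)) := by gcongr
          _ = _ := by ring
      have h4 : δ / ‖e i - e j‖ ≤ 2 * Cp * (S.card : ℝ)⁻¹ := by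
        rw [div_le_iff₀ hr0]
        have h5 : (S.card : ℝ) * δ ≤ 2 * Cp * ‖e i - e j‖ := by
          calc (S.card : ℝ) * δ ≤ 2 * Cp * (‖e i - e j‖ / δ) * δ := by gcongr
            _ = _ := by field_simp
        calc δ = (S.card : ℝ) * δ * (S.card : ℝ)⁻¹ := by field_simp
          _ ≤ 2 * Cp * ‖e i - e j‖ * (S.card : ℝ)⁻¹ := by gcongr
          _ = _ := by ring
      show (δ / ‖e i - e j‖) ^ κ ≤ D * (S.card : ℝ) ^ (-κ)
      calc (δ / ‖e i - e j‖) ^ κ ≤ (2 * Cp * (S.card : ℝ)⁻¹) ^ κ :=
            Real.rpow_le_rpow (by positivity) h4 hκ.le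
        _ = _ := by
            rw [Real.mul_rpow (by positivity) (by positivity), Real.inv_rpow (by positivity),
              ← Real.rpow_neg (by positivity)])
    refine h1.trans ?_
    have h2 : ((Finset.univ.erase i).card : ℝ) ≤ N := by
      rw [hN, ← Finset.card_univ]
      exact_mod_cast Finset.card_le_card (Finset.erase_subset _ _)
    have h3 : ((Finset.univ.erase i).card : ℝ) ^ (1 - κ) ≤ N ^ (1 - κ) :=
      Real.rpow_le_rpow (by positivity) h2 h1κ.le
    gcongr
  have hF2 : ∫⁻ x, F x ^ 2 ≤ ENNReal.ofReal (N * (C3 * (δ * (lam * N) ^ (1 - κ)))) := by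
    have e1 : ∀ x, F x ^ 2 = ∑ i, ∑ j, w i * w j *
        (T i ∩ U ∩ (T j ∩ U)).indicator (fun _ => (1:ℝ≥0∞)) x := by
      intro x
      rw [hF, sq, Finset.sum_mul_sum]
      apply Finset.sum_congr rfl
      intro i _
      apply Finset.sum_congr rfl
      intro j _
      by_cases h1 : x ∈ T i ∩ U
      · by_cases h2 : x ∈ T j ∩ U
        · have h3 : x ∈ T i ∩ U ∩ (T j ∩ U) := ⟨h1, h2⟩
          rw [indicator_of_mem h1, indicator_of_mem h2, indicator_of_mem h3]
          ring
        · have h3 : x ∉ T i ∩ U ∩ (T j ∩ U) := fun h => h2 h.2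
          rw [indicator_of_notMem h2, indicator_of_notMem h3]
          ring
      · have h3 : x ∉ T i ∩ U ∩ (T j ∩ U) := fun h => h1 h.1
        rw [indicator_of_notMem h1, indicator_of_notMem h3]
        ring
    simp only [e1]
    rw [lintegral_finsetSum _ (fun i _ => Finset.measurable_sum _ fun j _ =>
      (measurable_const.indicator ((hTUm i).inter (hTUm j))).const_mul _)]
    calc ∑ i, ∫⁻ x, ∑ j, w i * w j * (T i ∩ U ∩ (T j ∩ U)).indicator (fun _ => (1:ℝ≥0∞)) x
        ≤ ∑ i : ι, ENNReal.ofReal (C3 * (δ * (lam * N) ^ (1 - κ))) := by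
          apply Finset.sum_le_sum
          intro i _
          rw [lintegral_finsetSum _ (fun j _ =>
            (measurable_const.indicator ((hTUm i).inter (hTUm j))).const_mul _)]
          have e2 : ∀ j, ∫⁻ x, w i * w j * (T i ∩ U ∩ (T j ∩ U)).indicator (fun _ => (1:ℝ≥0∞)) x
              = w i * w j * volume (T i ∩ U ∩ (T j ∩ U)) := by
            intro j
            rw [lintegral_const_mul _ (measurable_const.indicator ((hTUm i).inter (hTUm j))),
              lintegral_indicator ((hTUm i).inter (hTUm j)), setLIntegral_one]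
          rw [Finset.sum_congr rfl (fun j _ => e2 j),
            ← Finset.add_sum_erase _ _ (Finset.mem_univ i)]
          have h1 : w i * w i * volume (T i ∩ U ∩ (T i ∩ U)) ≤ ENNReal.ofReal β := by
            rw [inter_self]
            calc w i * w i * volume (T i ∩ U) ≤ w i * 1 * V i := by
                  gcongr
                  exact hw1 i
              _ = _ := by rw [mul_one, hwV]
          have h2 : ∑ j ∈ Finset.univ.erase i, w i * w j * volume (T i ∩ U ∩ (T j ∩ U)) ≤
              ENNReal.ofReal (C2 * (δ * lam ^ (1 - κ)) * (D / (1 - κ) * N ^ (1 - κ))) := by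
            calc ∑ j ∈ Finset.univ.erase i, w i * w j * volume (T i ∩ U ∩ (T j ∩ U))
                ≤ ∑ j ∈ Finset.univ.erase i, ENNReal.ofReal (C2 * (δ * lam ^ (1 - κ)) * μ i j) := by
                  apply Finset.sum_le_sum
                  intro j hj
                  exact hpair i j (Finset.mem_erase.1 hj).1.symm
              _ = ENNReal.ofReal (∑ j ∈ Finset.univ.erase i, C2 * (δ * lam ^ (1 - κ)) * μ i j) :=
                  (ENNReal.ofReal_sum_of_nonneg (fun j _ => by positivity)).symm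
              _ ≤ _ := by
                  apply ENNReal.ofReal_le_ofReal
                  rw [← Finset.mul_sum]
                  exact mul_le_mul_of_nonneg_left (hrow i) (by positivity)
          refine (add_le_add h1 h2).trans ?_
          rw [← ENNReal.ofReal_add hβ0.le (by positivity)]
          apply ENNReal.ofReal_le_ofReal
          rw [Real.mul_rpow hlam.le hN0.le, hβ, hC3]
          have h3 : lam ≤ lam ^ (1 - κ) * N ^ (1 - κ) := by
            have h4 : lam ≤ lam ^ (1 - κ) := by
              nth_rewrite 1 [← Real.rpow_one lam]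
              exact Real.rpow_le_rpow_of_exponent_ge hlam hlam1 (by linarith)
            have h5 : 1 ≤ N ^ (1 - κ) := Real.one_le_rpow hN1 h1κ.le
            calc lam = lam * 1 := (mul_one _).symm
              _ ≤ _ := by gcongr
          have h6 : c0 * (lam * δ) ≤ c0 * ((lam ^ (1 - κ) * N ^ (1 - κ)) * δ) := by gcongr
          nlinarith [h6]
      _ = _ := by
          rw [Finset.sum_const, Finset.card_univ, nsmul_eq_mul, ENNReal.ofReal_mul hN0.le, hN,
            ENNReal.ofReal_natCast]
  -- conclusion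
  have hfin : (N * β) ^ 2 ≤ N * (C3 * (δ * (lam * N) ^ (1 - κ))) * v := by
    have h1 : ENNReal.ofReal (N * β) ^ 2 ≤
        ENNReal.ofReal (N * (C3 * (δ * (lam * N) ^ (1 - κ)))) * ENNReal.ofReal v :=
      hcs.trans (mul_le_mul' hF2 hv)
    rw [← ENNReal.ofReal_pow (by positivity), ← ENNReal.ofReal_mul (by positivity),
      ENNReal.ofReal_le_ofReal_iff (by positivity)] at h1
    exact h1
  have hlN : 0 < (lam * N) ^ (1 - κ) := by positivity
  have e3 : N ^ κ * lam ^ (1 + κ) * (lam * N) ^ (1 - κ) = N * lam ^ 2 := by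
    rw [Real.mul_rpow hlam.le hN0.le]
    have h1 : N ^ κ * N ^ (1 - κ) = N := by
      rw [← Real.rpow_add hN0]
      simp
    have h2 : lam ^ (1 + κ) * lam ^ (1 - κ) = lam ^ 2 := by
      rw [← Real.rpow_add hlam, ← Real.rpow_natCast]
      norm_num
    calc N ^ κ * lam ^ (1 + κ) * (lam ^ (1 - κ) * N ^ (1 - κ))
        = (N ^ κ * N ^ (1 - κ)) * (lam ^ (1 + κ) * lam ^ (1 - κ)) := by ring
      _ = _ := by rw [h1, h2]
  have h7 : (N ^ κ * lam ^ (1 + κ) * δ) * ((lam * N) ^ (1 - κ) * (N * δ * c0 ^ 2)) ≤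
      C3 / c0 ^ 2 * v * ((lam * N) ^ (1 - κ) * (N * δ * c0 ^ 2)) := by
    calc (N ^ κ * lam ^ (1 + κ) * δ) * ((lam * N) ^ (1 - κ) * (N * δ * c0 ^ 2))
        = (N ^ κ * lam ^ (1 + κ) * (lam * N) ^ (1 - κ)) * (N * δ ^ 2 * c0 ^ 2) := by ring
      _ = (N * β) ^ 2 := by rw [e3, hβ]; ring
      _ ≤ _ := hfin
      _ = _ := by field_simp
  exact le_of_mul_le_mul_right h7 (by positivity)

end Pool.Agent.Helper37.Pt
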