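import Pool.Agent.Helper37.Pt.PP

set_option autoImplicit false
set_option linter.unusedSectionVars false

/-!
The number of segments with a large intersection with a set, continued.
-/

open MeasureTheory Set Filter Topology ENNReal NNReal Metric

namespace Pool.Agent.Helper37.Pt

/-- Cordoba's estimate. -/
theorem pp_two {κ : ℝ} (hκ : 0 < κ) (hκ1 : κ < 1) : ∃ C : ℝ, 0 < C ∧ PP 2 κ C := by
  obtain ⟨C, hC, h⟩ := pp_two_cap hκ hκ1
  refine ⟨25 ^ κ * C, by positivity, ?_⟩
  intro δ hδ hδ1 ι _ _ a e he hsep A hA lam hlam hden v hv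
  classical
  obtain ⟨i0⟩ := ‹Nonempty ι›
  have hv0 : 0 < v := by
    have hvb := vb_pos 2
    have h1 := low_v (by norm_num) hδ hδ1.le (he i0) hA hlam (hden i0) hv
    have : 0 < vb 2 / 2 ^ (2 + 2) * (lam * δ ^ (2 - 1)) := by positivity
    linarith
  obtain ⟨S, hS1, hS2⟩ := exists_sep e (r := 1 / 2) (by norm_num)
  choose s hs1 hs2 using hS2
  have hScard : (S.card : ℝ) ≤ 25 := by
    have h1 := card_sep_le S e (r := 1 / 2) (R := 1) (by norm_num) (by norm_num)
      (fun i hi j hj hij => by rw [← dist_eq_norm]; exact (hS1 i hi j hj hij).le)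
      (fun i _ => (he i).le)
    refine h1.trans (le_of_eq (by norm_num))
  have hSne : S.Nonempty := ⟨s i0, hs1 i0⟩
  obtain ⟨s0, hs0, hmax⟩ := S.exists_max_image
    (fun t => (Finset.univ.filter (fun i => s i = t)).card) hSne
  have hcount : (Fintype.card ι : ℝ) ≤ 25 * (Fintype.card {i // s i = s0} : ℝ) := by
    have h1 : Fintype.card ι = ∑ t ∈ S, (Finset.univ.filter (fun i => s i = t)).card := by
      rw [← Finset.card_univ]
      exact Finset.card_eq_sum_card_fiberwise (fun i _ => hs1 i)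
    have h2 : ∑ t ∈ S, (Finset.univ.filter (fun i => s i = t)).card ≤
        S.card * (Finset.univ.filter (fun i => s i = s0)).card := by
      rw [← smul_eq_mul]
      exact Finset.sum_le_card_nsmul _ _ _ (fun t ht => hmax t ht)
    have h3 : Fintype.card {i // s i = s0} = (Finset.univ.filter (fun i => s i = s0)).card := by
      rw [Fintype.card_subtype]
    rw [h3, h1]
    calc ((∑ t ∈ S, (Finset.univ.filter (fun i => s i = t)).card : ℕ) : ℝ)
        ≤ ((S.card * (Finset.univ.filter (fun i => s i = s0)).card : ℕ) : ℝ) := by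
          exact_mod_cast h2
      _ = (S.card : ℝ) * ((Finset.univ.filter (fun i => s i = s0)).card : ℝ) := by push_cast; ring
      _ ≤ _ := by gcongr
  have hne : Nonempty {i // s i = s0} := by
    by_contra hemp
    rw [not_nonempty_iff] at hemp
    have h1 : (Fintype.card {i // s i = s0} : ℝ) = 0 := by
      rw [Nat.cast_eq_zero]
      exact Fintype.card_eq_zero_iff.2 hemp
    rw [h1, mul_zero] at hcount
    have h2 : (0:ℝ) < Fintype.card ι := Nat.cast_pos.2 (Fintype.card_pos_iff.2 ⟨i0⟩)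
    linarith
  have h1 := h δ hδ hδ1 {i // s i = s0} (fun i => a i) (fun i => e i) (fun i => he i)
    (fun i j hij => hsep i j (fun h => hij (Subtype.ext h))) (by
      rintro ⟨i, hi⟩ ⟨j, hj⟩
      have h2 := hs2 i
      have h3 := hs2 j
      rw [hi] at h2
      rw [hj] at h3
      rw [← dist_eq_norm]
      refine (dist_triangle_right _ _ (e s0)).trans ?_
      linarith) A hA lam hlam (fun i => hden i) v hv
  have e1 : (1 + κ * (((2:ℕ):ℝ) - 1)) = 1 + κ := by push_cast; ring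
  have e2 : (((2:ℕ):ℝ) - 1) = 1 := by push_cast; ring
  rw [e1, e2, Real.rpow_one]
  have h4 : (Fintype.card ι : ℝ) ^ κ ≤ 25 ^ κ * (Fintype.card {i // s i = s0} : ℝ) ^ κ := by
    rw [← Real.mul_rpow (by norm_num) (by positivity)]
    exact Real.rpow_le_rpow (by positivity) hcount hκ.le
  calc (Fintype.card ι : ℝ) ^ κ * lam ^ (1 + κ) * δ
      ≤ 25 ^ κ * (Fintype.card {i // s i = s0} : ℝ) ^ κ * lam ^ (1 + κ) * δ := by gcongr
    _ = 25 ^ κ * ((Fintype.card {i // s i = s0} : ℝ) ^ κ * lam ^ (1 + κ) * δ) := by ring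
    _ ≤ 25 ^ κ * (C * v) := by gcongr
    _ = _ := by ring

/-- The inequality of the problem in `ℝ^d`, for the exponent `Q`. -/
def Tub (d : ℕ) (Q : ℝ) : Prop :=
  ∃ C : ℝ, 0 < C ∧ ∀ δ : ℝ, 0 < δ → δ < 1 → ∀ (ι : Type) [Fintype ι]
    (a e : ι → E d), (∀ i, ‖e i‖ = 1) →
    (∀ i j, i ≠ j → δ ≤ ‖e i - e j‖) →
    eLpNorm (fun x => ∑ i, (tube δ (a i) (e i)).indicator (fun _ => (1 : ℝ)) x)
        (ENNReal.ofReal Q) volume ≤
      ENNReal.ofReal (C * δ ^ (((d : ℝ) - 1) / Q) *
        (Fintype.card ι : ℝ) ^ (1 - 1 / (Q * ((d : ℝ) - 1))))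

/-- The consequence of the tube inequality. -/
theorem pp_of_tub {d : ℕ} (hd : 2 ≤ d) {Q : ℝ} (hQ : 1 < Q) (h : Tub d Q) :
    ∃ C : ℝ, 0 < C ∧ PP d (1 / ((Q - 1) * ((d:ℝ) - 1))) C := by
  obtain ⟨C0, hC0, h⟩ := h
  have hd1 : (0:ℝ) < (d:ℝ) - 1 := by
    have : (2:ℝ) ≤ d := by exact_mod_cast hd
    linarith
  have hQ0 : 0 < Q := by linarith
  have hQ1 : 0 < Q - 1 := by linarith
  have hvb := vb_pos d
  set c : ℝ := vb d / 2 ^ (d + 2) with hc
  have hc0 : 0 < c := by positivity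
  set P : ℝ := Q / (Q - 1) with hP
  have hP0 : 0 < P := by positivity
  refine ⟨(C0 / c) ^ P, by positivity, ?_⟩
  intro δ hδ hδ1 ι _ _ a e he hsep A hA lam hlam hden v hv
  have hv0 : 0 < v := by
    obtain ⟨i0⟩ := ‹Nonempty ι›
    have h1 := low_v (by omega) hδ hδ1.le (he i0) hA hlam (hden i0) hv
    have : 0 < vb d / 2 ^ (d + 2) * (lam * δ ^ (d - 1)) := by positivity
    linarith
  have hN0 : (0:ℝ) < Fintype.card ι := Nat.cast_pos.2 Fintype.card_pos
  set N : ℝ := (Fintype.card ι : ℝ) with hN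
  set U : Set (E d) := thickening δ A with hU
  have hUm : MeasurableSet U := isOpen_thickening.measurableSet
  have hTm : ∀ i, MeasurableSet (tube δ (a i) (e i)) := fun i => (isClosed_tube _ _ _).measurableSet
  set F : E d → ℝ≥0∞ := fun x => ∑ i, (tube δ (a i) (e i)).indicator (fun _ => (1:ℝ≥0∞)) x with hF
  have hFm : Measurable F := Finset.measurable_sum _ fun i _ => measurable_const.indicator (hTm i)
  have hpq : Real.HolderConjugate Q P := by
    rw [Real.holderConjugate_iff]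
    refine ⟨hQ, ?_⟩
    rw [hP]
    field_simp
    ring
  -- the norm
  have hnorm : (∫⁻ x, F x ^ Q) ^ (1 / Q) ≤
      ENNReal.ofReal (C0 * δ ^ (((d : ℝ) - 1) / Q) * N ^ (1 - 1 / (Q * ((d : ℝ) - 1)))) := by
    have h1 := h δ hδ hδ1 ι a e he hsep
    rw [eLpNorm_eq_lintegral_rpow_enorm_toReal (by
      rw [ne_eq, ENNReal.ofReal_eq_zero, not_le]; exact hQ0) ENNReal.ofReal_ne_top,
      ENNReal.toReal_ofReal hQ0.le] at h1
    refine le_trans (le_of_eq ?_) h1
    congr 1
    apply lintegral_congr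
    intro x
    congr 1
    rw [Real.enorm_of_nonneg (Finset.sum_nonneg fun i _ =>
      Set.indicator_nonneg (fun _ _ => zero_le_one) _),
      ENNReal.ofReal_sum_of_nonneg fun i _ => Set.indicator_nonneg (fun _ _ => zero_le_one) _]
    rw [hF]
    refine Finset.sum_congr rfl fun i _ => ?_
    by_cases hx : x ∈ tube δ (a i) (e i)
    · rw [Set.indicator_of_mem hx, Set.indicator_of_mem hx, ENNReal.ofReal_one]
    · rw [Set.indicator_of_notMem hx, Set.indicator_of_notMem hx, ENNReal.ofReal_zero]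
  -- Hölder
  have hhol := ENNReal.lintegral_mul_le_Lp_mul_Lq volume hpq hFm.aemeasurable
    (measurable_const.indicator hUm : Measurable (U.indicator (fun _ => (1:ℝ≥0∞)))).aemeasurable
  have hU2 : ∫⁻ x, U.indicator (fun _ => (1:ℝ≥0∞)) x ^ P = volume U := by
    have e1 : ∀ x, U.indicator (fun _ => (1:ℝ≥0∞)) x ^ P = U.indicator (fun _ => (1:ℝ≥0∞)) x := by
      intro x
      by_cases hx : x ∈ U
      · rw [indicator_of_mem hx, ENNReal.one_rpow]
      · rw [indicator_of_notMem hx, ENNReal.zero_rpow_of_pos hP0]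
    simp only [e1]
    rw [lintegral_indicator hUm, setLIntegral_one]
  rw [hU2] at hhol
  have hlow : ENNReal.ofReal (N * (c * (lam * δ ^ (d - 1)))) ≤
      ∫⁻ x, (F * U.indicator (fun _ => (1:ℝ≥0∞))) x := by
    have e1 : ∀ x, (F * U.indicator (fun _ => (1:ℝ≥0∞))) x =
        ∑ i, (tube δ (a i) (e i) ∩ U).indicator (fun _ => (1:ℝ≥0∞)) x := by
      intro x
      rw [Pi.mul_apply, hF, Finset.sum_mul]
      apply Finset.sum_congr rfl
      intro i _
      by_cases h1 : x ∈ tube δ (a i) (e i)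
      · by_cases h2 : x ∈ U
        · have h3 : x ∈ tube δ (a i) (e i) ∩ U := ⟨h1, h2⟩
          rw [indicator_of_mem h1, indicator_of_mem h2, indicator_of_mem h3, one_mul]
        · have h3 : x ∉ tube δ (a i) (e i) ∩ U := fun h => h2 h.2
          rw [indicator_of_notMem h2, indicator_of_notMem h3, mul_zero]
      · have h3 : x ∉ tube δ (a i) (e i) ∩ U := fun h => h1 h.1
        rw [indicator_of_notMem h1, indicator_of_notMem h3, zero_mul]
    simp only [e1]
    rw [lintegral_finsetSum _ (fun i _ => measurable_const.indicator ((hTm i).inter hUm))]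
    calc ENNReal.ofReal (N * (c * (lam * δ ^ (d - 1))))
        = ∑ i : ι, ENNReal.ofReal (c * (lam * δ ^ (d - 1))) := by
          rw [Finset.sum_const, Finset.card_univ, nsmul_eq_mul, ENNReal.ofReal_mul hN0.le, hN,
            ENNReal.ofReal_natCast]
      _ ≤ _ := by
          apply Finset.sum_le_sum
          intro i _
          rw [lintegral_indicator ((hTm i).inter hUm), setLIntegral_one]
          exact low (by omega) hδ hδ1.le (he i) hA (hden i)
  have h5 : ENNReal.ofReal (N * (c * (lam * δ ^ (d - 1)))) ≤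
      ENNReal.ofReal (C0 * δ ^ (((d : ℝ) - 1) / Q) * N ^ (1 - 1 / (Q * ((d : ℝ) - 1)))
        * v ^ (1 / P)) := by
    refine hlow.trans (hhol.trans ?_)
    rw [ENNReal.ofReal_mul (by positivity)]
    refine mul_le_mul' hnorm ?_
    rw [← ENNReal.ofReal_rpow_of_nonneg hv0.le (by positivity)]
    exact ENNReal.rpow_le_rpow hv (by positivity)
  rw [ENNReal.ofReal_le_ofReal_iff (by positivity)] at h5
  -- real computation
  have hδd : δ ^ (d - 1) = δ ^ ((d:ℝ) - 1) := by
    rw [← Real.rpow_natCast, Nat.cast_sub (by omega), Nat.cast_one]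
  have h6 : N ^ (1 / (Q * ((d:ℝ) - 1))) * lam * δ ^ (((d:ℝ) - 1) / P) ≤ C0 / c * v ^ (1 / P) := by
    have e1 : N = N ^ (1 / (Q * ((d:ℝ) - 1))) * N ^ (1 - 1 / (Q * ((d:ℝ) - 1))) := by
      rw [← Real.rpow_add hN0]
      simp
    have e2 : δ ^ ((d:ℝ) - 1) = δ ^ (((d:ℝ) - 1) / P) * δ ^ (((d:ℝ) - 1) / Q) := by
      rw [← Real.rpow_add hδ]
      congr 1
      rw [hP]
      field_simp
      ring
    rw [hδd, e2] at h5
    nth_rewrite 1 [e1] at h5
    have hK : 0 < N ^ (1 - 1 / (Q * ((d:ℝ) - 1))) * δ ^ (((d:ℝ) - 1) / Q) * c := by positivity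
    refine le_of_mul_le_mul_right ?_ hK
    calc N ^ (1 / (Q * ((d:ℝ) - 1))) * lam * δ ^ (((d:ℝ) - 1) / P) *
          (N ^ (1 - 1 / (Q * ((d:ℝ) - 1))) * δ ^ (((d:ℝ) - 1) / Q) * c)
        = N ^ (1 / (Q * ((d:ℝ) - 1))) * N ^ (1 - 1 / (Q * ((d:ℝ) - 1))) *
          (c * (lam * (δ ^ (((d:ℝ) - 1) / P) * δ ^ (((d:ℝ) - 1) / Q)))) := by ring
      _ ≤ _ := h5
      _ = _ := by field_simp
  have h7 := Real.rpow_le_rpow (by positivity) h6 hP0.le
  rw [Real.mul_rpow (by positivity) (by positivity), Real.mul_rpow (by positivity) (by positivity),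
    Real.mul_rpow (by positivity) (by positivity), ← Real.rpow_mul hN0.le, ← Real.rpow_mul hδ.le,
    ← Real.rpow_mul hv0.le] at h7
  have e3 : 1 / (Q * ((d:ℝ) - 1)) * P = 1 / ((Q - 1) * ((d:ℝ) - 1)) := by
    rw [hP]; field_simp
  have e4 : ((d:ℝ) - 1) / P * P = (d:ℝ) - 1 := by field_simp
  have e5 : 1 / P * P = 1 := by field_simp
  have e6 : 1 + 1 / ((Q - 1) * ((d:ℝ) - 1)) * ((d:ℝ) - 1) = P := by
    rw [hP]; field_simp; ring
  rw [e3, e4, e5, Real.rpow_one] at h7
  rw [e6]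
  exact h7

end Pool.Agent.Helper37.Pt
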