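import Pool.Agent.Helper37.Pt.PP2

set_option autoImplicit false
set_option linter.unusedSectionVars false

/-!
The tube inequality is equivalent to its version tested on sets.
-/

open MeasureTheory Set Filter Topology ENNReal NNReal Metric

namespace Pool.Agent.Helper37.Pt

theorem lint_rpow {s N : ℝ} (hs : 0 < s) (hN : 0 ≤ N) :
    ∫⁻ t in Ioc 0 N, ENNReal.ofReal (t ^ (s - 1)) = ENNReal.ofReal (N ^ s / s) := by
  have h1 : IntervalIntegrable (fun t : ℝ => t ^ (s - 1)) volume 0 N :=
    intervalIntegral.intervalIntegrable_rpow' (by linarith)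
  rw [← ofReal_integral_eq_lintegral_ofReal]
  · rw [← intervalIntegral.integral_of_le hN, integral_rpow (Or.inl (by linarith))]
    congr 1
    rw [sub_add_cancel, Real.zero_rpow hs.ne', sub_zero]
  · exact (intervalIntegrable_iff_integrableOn_Ioc_of_le hN).1 h1
  · rw [Filter.EventuallyLE, ae_restrict_iff' measurableSet_Ioc]
    exact Filter.Eventually.of_forall fun t ht => Real.rpow_nonneg ht.1.le _

/-- From the tests on sets at `q₁` to the inequality at `q > q₁`. -/
theorem tub_of_tests {n : ℕ} (hn : 2 ≤ n) {q1 q C : ℝ} (h1 : 1 < q1) (hq : q1 < q) (hC : 0 < C)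
    (h : ∀ W : Set (E n), MeasurableSet W → ∀ δ : ℝ, 0 < δ → δ < 1 → ∀ (ι : Type) [Fintype ι]
      (a e : ι → E n), (∀ i, ‖e i‖ = 1) → (∀ i j, i ≠ j → δ ≤ ‖e i - e j‖) →
      ∑ i, volume (tube δ (a i) (e i) ∩ W) ≤
        ENNReal.ofReal (C * δ ^ (((n : ℝ) - 1) / q1) *
          (Fintype.card ι : ℝ) ^ (1 - 1 / (q1 * ((n : ℝ) - 1)))) * volume W ^ (1 - 1 / q1)) :
    Tub n q := by
  have hn1 : (0:ℝ) < (n:ℝ) - 1 := by
    have : (2:ℝ) ≤ n := by exact_mod_cast hn
    linarith
  have hq10 : 0 < q1 := by linarith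
  have hq0 : 0 < q := by linarith
  have hqq : 0 < q - q1 := by linarith
  refine ⟨(q * C ^ q1 / (q - q1)) ^ (1 / q), by positivity, ?_⟩
  intro δ hδ hδ1 ι _ a e he hsep
  rcases isEmpty_or_nonempty ι with hι | hι
  · simp
  have hN0 : (0:ℝ) < Fintype.card ι := Nat.cast_pos.2 Fintype.card_pos
  set N : ℝ := (Fintype.card ι : ℝ) with hN
  have hTm : ∀ i, MeasurableSet (tube δ (a i) (e i)) := fun i => (isClosed_tube _ _ _).measurableSet
  set F : E n → ℝ := fun x => ∑ i, (tube δ (a i) (e i)).indicator (fun _ => (1:ℝ)) x with hF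
  have hF0 : ∀ x, 0 ≤ F x := fun x =>
    Finset.sum_nonneg fun i _ => indicator_nonneg (fun _ _ => zero_le_one) _
  have hFN : ∀ x, F x ≤ N := by
    intro x
    calc F x ≤ ∑ i : ι, (1:ℝ) := by
          apply Finset.sum_le_sum
          intro i _
          by_cases hx : x ∈ tube δ (a i) (e i)
          · rw [indicator_of_mem hx]
          · rw [indicator_of_notMem hx]; exact zero_le_one
      _ = N := by rw [Finset.sum_const, Finset.card_univ, nsmul_eq_mul, mul_one]
  have hFm : Measurable F := Finset.measurable_sum _ fun i _ => measurable_const.indicator (hTm i)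
  set M : ℝ := C * δ ^ (((n : ℝ) - 1) / q1) * N ^ (1 - 1 / (q1 * ((n : ℝ) - 1))) with hM
  have hM0 : 0 < M := by positivity
  -- the level sets
  have hlev : ∀ t : ℝ, 0 < t → volume {x | t < F x} ≤ ENNReal.ofReal ((M / t) ^ q1) := by
    intro t ht
    set W : Set (E n) := {x | t < F x} with hW
    have hWm : MeasurableSet W := measurableSet_lt measurable_const hFm
    have h2 := h W hWm δ hδ hδ1 ι a e he hsep
    rw [← hM] at h2
    have h3 : ENNReal.ofReal t * volume W ≤ ∑ i, volume (tube δ (a i) (e i) ∩ W) := by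
      calc ENNReal.ofReal t * volume W = ∫⁻ x in W, ENNReal.ofReal t := by
            rw [setLIntegral_const]
        _ ≤ ∫⁻ x in W, ∑ i, (tube δ (a i) (e i)).indicator (fun _ => (1:ℝ≥0∞)) x := by
            apply setLIntegral_mono' hWm
            intro x hx
            have h4 : ENNReal.ofReal (F x) =
                ∑ i, (tube δ (a i) (e i)).indicator (fun _ => (1:ℝ≥0∞)) x := by
              rw [hF]
              simp only
              rw [ENNReal.ofReal_sum_of_nonneg fun i _ => indicator_nonneg
                (fun _ _ => zero_le_one) _]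
              refine Finset.sum_congr rfl fun i _ => ?_
              by_cases hx : x ∈ tube δ (a i) (e i)
              · rw [indicator_of_mem hx, indicator_of_mem hx, ENNReal.ofReal_one]
              · rw [indicator_of_notMem hx, indicator_of_notMem hx, ENNReal.ofReal_zero]
            rw [← h4]
            exact ENNReal.ofReal_le_ofReal (le_of_lt hx)
        _ = ∑ i, volume (tube δ (a i) (e i) ∩ W) := by
            rw [lintegral_finsetSum _ fun i _ => measurable_const.indicator (hTm i)]
            refine Finset.sum_congr rfl fun i _ => ?_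
            rw [lintegral_indicator (hTm i), setLIntegral_one, Measure.restrict_apply (hTm i)]
    have h5 : ENNReal.ofReal t * volume W ≤ ENNReal.ofReal M * volume W ^ (1 - 1 / q1) :=
      h3.trans h2
    -- finiteness
    have hWfin : volume W ≠ ∞ := by
      intro htop
      have h6 : W ⊆ ⋃ i, tube δ (a i) (e i) := by
        intro x hx
        by_contra hcon
        rw [mem_iUnion] at hcon
        push Not at hcon
        have : F x = 0 := Finset.sum_eq_zero fun i _ => indicator_of_notMem (hcon i) _
        have hx' : t < F x := hx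
        linarith
      have h7 : volume (⋃ i, tube δ (a i) (e i)) < ∞ := by
        have h8 : Bornology.IsBounded (⋃ i, tube δ (a i) (e i)) := by
          rw [Bornology.isBounded_iUnion]
          intro i
          refine (isBounded_iff_subset_closedBall (a i)).2 ⟨2, ?_⟩
          intro x hx
          rw [mem_closedBall, dist_eq_norm]
          have e1 : x - a i = ((x - a i) - (inner ℝ (x - a i) (e i) : ℝ) • e i) +
            (inner ℝ (x - a i) (e i) : ℝ) • e i := by abel
          rw [e1]
          refine (norm_add_le _ _).trans ?_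
          rw [norm_smul, he i, mul_one, Real.norm_eq_abs]
          have := hx.1
          have := hx.2
          linarith
        exact h8.measure_lt_top
      exact (htop ▸ (measure_mono h6).trans_lt h7).ne rfl
    set w : ℝ := (volume W).toReal with hw
    have hww : volume W = ENNReal.ofReal w := (ENNReal.ofReal_toReal hWfin).symm
    have hw0 : 0 ≤ w := ENNReal.toReal_nonneg
    rw [hww]
    apply ENNReal.ofReal_le_ofReal
    rcases hw0.eq_or_lt with h0 | h0
    · rw [← h0]; positivity
    rw [hww, ENNReal.ofReal_rpow_of_pos h0, ← ENNReal.ofReal_mul ht.le,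
      ← ENNReal.ofReal_mul hM0.le, ENNReal.ofReal_le_ofReal_iff (by positivity)] at h5
    have h6 : w ^ (1 / q1) ≤ M / t := by
      rw [le_div_iff₀ ht]
      have e2 : w = w ^ (1 / q1) * w ^ (1 - 1 / q1) := by
        rw [← Real.rpow_add h0]
        simp
      have hwp : 0 < w ^ (1 - 1 / q1) := by positivity
      rw [e2] at h5
      have h7 : (w ^ (1 / q1) * t) * w ^ (1 - 1 / q1) ≤ M * w ^ (1 - 1 / q1) := by
        calc (w ^ (1 / q1) * t) * w ^ (1 - 1 / q1) = t * (w ^ (1 / q1) * w ^ (1 - 1 / q1)) := by ring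
          _ ≤ _ := by
            refine h5.trans (le_of_eq ?_)
            rw [← e2]
      exact le_of_mul_le_mul_right h7 hwp
    have h8 := Real.rpow_le_rpow (by positivity) h6 hq10.le
    rw [← Real.rpow_mul h0.le, one_div_mul_cancel hq10.ne', Real.rpow_one] at h8
    exact h8
  -- the layer cake
  have hcake := lintegral_rpow_eq_lintegral_meas_lt_mul (μ := (volume : Measure (E n)))
    (Filter.Eventually.of_forall hF0) hFm.aemeasurable hq0
  have hint : ∫⁻ x, ENNReal.ofReal (F x ^ q) ≤
      ENNReal.ofReal (q * (M ^ q1 * (N ^ (q - q1) / (q - q1)))) := by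
    rw [hcake, ENNReal.ofReal_mul hq0.le]
    refine mul_le_mul' le_rfl ?_
    calc ∫⁻ t in Ioi 0, volume {x | t < F x} * ENNReal.ofReal (t ^ (q - 1))
        ≤ ∫⁻ t in Ioi 0, (Ioc 0 N).indicator
            (fun t => ENNReal.ofReal (M ^ q1) * ENNReal.ofReal (t ^ (q - q1 - 1))) t := by
          apply setLIntegral_mono' measurableSet_Ioi
          intro t ht
          have ht0 : 0 < t := ht
          by_cases htN : t ≤ N
          · rw [indicator_of_mem (show t ∈ Ioc 0 N from ⟨ht0, htN⟩)]
            calc volume {x | t < F x} * ENNReal.ofReal (t ^ (q - 1))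
                ≤ ENNReal.ofReal ((M / t) ^ q1) * ENNReal.ofReal (t ^ (q - 1)) :=
                  mul_le_mul' (hlev t ht0) le_rfl
              _ = _ := by
                  rw [← ENNReal.ofReal_mul (by positivity), ← ENNReal.ofReal_mul (by positivity)]
                  congr 1
                  rw [Real.div_rpow hM0.le ht0.le, div_mul_eq_mul_div, mul_div_assoc,
                    ← Real.rpow_sub ht0]
                  congr 2
                  ring
          · have h0 : {x | t < F x} = ∅ := by
              apply eq_empty_of_forall_notMem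
              intro x hx
              have hx' : t < F x := hx
              exact htN (hx'.le.trans (hFN x))
            rw [h0, measure_empty, zero_mul]
            exact zero_le
      _ ≤ ∫⁻ t, (Ioc 0 N).indicator
            (fun t => ENNReal.ofReal (M ^ q1) * ENNReal.ofReal (t ^ (q - q1 - 1))) t :=
          setLIntegral_le_lintegral _ _
      _ = _ := by
          rw [lintegral_indicator measurableSet_Ioc, lintegral_const_mul _ (by fun_prop),
            lint_rpow hqq hN0.le, ← ENNReal.ofReal_mul (by positivity)]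
  -- conclusion
  rw [eLpNorm_eq_lintegral_rpow_enorm_toReal (by
    rw [ne_eq, ENNReal.ofReal_eq_zero, not_le]; exact hq0) ENNReal.ofReal_ne_top,
    ENNReal.toReal_ofReal hq0.le]
  have e3 : ∀ x, ‖F x‖ₑ ^ q = ENNReal.ofReal (F x ^ q) := by
    intro x
    rw [Real.enorm_of_nonneg (hF0 x), ENNReal.ofReal_rpow_of_nonneg (hF0 x) hq0.le]
  have e4 : ∫⁻ x, ‖∑ i, (tube δ (a i) (e i)).indicator (fun _ => (1:ℝ)) x‖ₑ ^ q =
      ∫⁻ x, ENNReal.ofReal (F x ^ q) := lintegral_congr fun x => e3 x
  rw [e4]
  refine (ENNReal.rpow_le_rpow hint (by positivity)).trans ?_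
  rw [ENNReal.ofReal_rpow_of_nonneg (by positivity) (by positivity)]
  apply ENNReal.ofReal_le_ofReal
  apply le_of_eq
  have e5 : q * (M ^ q1 * (N ^ (q - q1) / (q - q1))) =
      (q * C ^ q1 / (q - q1)) * δ ^ ((n:ℝ) - 1) * N ^ (q - 1 / ((n:ℝ) - 1)) := by
    rw [hM, Real.mul_rpow (by positivity) (by positivity), Real.mul_rpow hC.le (by positivity),
      ← Real.rpow_mul hδ.le, ← Real.rpow_mul hN0.le, div_mul_cancel₀ _ hq10.ne']
    have e6 : N ^ (q - 1 / ((n:ℝ) - 1)) =
        N ^ ((1 - 1 / (q1 * ((n:ℝ) - 1))) * q1) * N ^ (q - q1) := by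
      rw [← Real.rpow_add hN0]
      congr 1
      field_simp
      ring
    rw [e6]
    ring
  rw [e5, Real.mul_rpow (by positivity) (by positivity), Real.mul_rpow (by positivity)
    (by positivity), ← Real.rpow_mul hδ.le, ← Real.rpow_mul hN0.le]
  have e7 : ((n:ℝ) - 1) * (1 / q) = ((n:ℝ) - 1) / q := by ring
  have e8 : (q - 1 / ((n:ℝ) - 1)) * (1 / q) = 1 - 1 / (q * ((n:ℝ) - 1)) := by
    field_simp
  rw [e7, e8]

/-- Hölder's inequality: the tests on sets. -/
theorem tests_of_tub {n : ℕ} {q : ℝ} (hq : 1 < q) (h : Tub n q) :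
    ∃ C : ℝ, 0 < C ∧ ∀ W : Set (E n), MeasurableSet W → ∀ δ : ℝ, 0 < δ → δ < 1 →
      ∀ (ι : Type) [Fintype ι] (a e : ι → E n), (∀ i, ‖e i‖ = 1) →
      (∀ i j, i ≠ j → δ ≤ ‖e i - e j‖) →
      ∑ i, volume (tube δ (a i) (e i) ∩ W) ≤
        ENNReal.ofReal (C * δ ^ (((n : ℝ) - 1) / q) *
          (Fintype.card ι : ℝ) ^ (1 - 1 / (q * ((n : ℝ) - 1)))) * volume W ^ (1 - 1 / q) := by
  obtain ⟨C, hC, h⟩ := h
  refine ⟨C, hC, ?_⟩
  intro W hW δ hδ hδ1 ι _ a e he hsep
  have hq0 : 0 < q := by linarith
  have hq1 : 0 < q - 1 := by linarith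
  set P : ℝ := q / (q - 1) with hP
  have hP0 : 0 < P := by positivity
  have hpq : Real.HolderConjugate q P := by
    rw [Real.holderConjugate_iff]
    refine ⟨hq, ?_⟩
    rw [hP]
    field_simp
    ring
  have hTm : ∀ i, MeasurableSet (tube δ (a i) (e i)) := fun i => (isClosed_tube _ _ _).measurableSet
  set F : E n → ℝ≥0∞ := fun x => ∑ i, (tube δ (a i) (e i)).indicator (fun _ => (1:ℝ≥0∞)) x with hF
  have hFm : Measurable F := Finset.measurable_sum _ fun i _ => measurable_const.indicator (hTm i)
  have hnorm : (∫⁻ x, F x ^ q) ^ (1 / q) ≤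
      ENNReal.ofReal (C * δ ^ (((n : ℝ) - 1) / q) *
        (Fintype.card ι : ℝ) ^ (1 - 1 / (q * ((n : ℝ) - 1)))) := by
    have h1 := h δ hδ hδ1 ι a e he hsep
    rw [eLpNorm_eq_lintegral_rpow_enorm_toReal (by
      rw [ne_eq, ENNReal.ofReal_eq_zero, not_le]; exact hq0) ENNReal.ofReal_ne_top,
      ENNReal.toReal_ofReal hq0.le] at h1
    refine le_trans (le_of_eq ?_) h1
    congr 1
    apply lintegral_congr
    intro x
    congr 1
    rw [Real.enorm_of_nonneg (Finset.sum_nonneg fun i _ =>
      Set.indicator_nonneg (fun _ _ => zero_le_one) _),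
      ENNReal.ofReal_sum_of_nonneg fun i _ => Set.indicator_nonneg (fun _ _ => zero_le_one) _]
    rw [hF]
    refine Finset.sum_congr rfl fun i _ => ?_
    by_cases hx : x ∈ tube δ (a i) (e i)
    · rw [Set.indicator_of_mem hx, Set.indicator_of_mem hx, ENNReal.ofReal_one]
    · rw [Set.indicator_of_notMem hx, Set.indicator_of_notMem hx, ENNReal.ofReal_zero]
  have hhol := ENNReal.lintegral_mul_le_Lp_mul_Lq volume hpq hFm.aemeasurable
    (measurable_const.indicator hW : Measurable (W.indicator (fun _ => (1:ℝ≥0∞)))).aemeasurable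
  have hU2 : ∫⁻ x, W.indicator (fun _ => (1:ℝ≥0∞)) x ^ P = volume W := by
    have e1 : ∀ x, W.indicator (fun _ => (1:ℝ≥0∞)) x ^ P = W.indicator (fun _ => (1:ℝ≥0∞)) x := by
      intro x
      by_cases hx : x ∈ W
      · rw [indicator_of_mem hx, ENNReal.one_rpow]
      · rw [indicator_of_notMem hx, ENNReal.zero_rpow_of_pos hP0]
    simp only [e1]
    rw [lintegral_indicator hW, setLIntegral_one]
  rw [hU2] at hhol
  have hleft : ∑ i, volume (tube δ (a i) (e i) ∩ W) =
      ∫⁻ x, (F * W.indicator (fun _ => (1:ℝ≥0∞))) x := by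
    have e1 : ∀ x, (F * W.indicator (fun _ => (1:ℝ≥0∞))) x =
        ∑ i, (tube δ (a i) (e i) ∩ W).indicator (fun _ => (1:ℝ≥0∞)) x := by
      intro x
      rw [Pi.mul_apply, hF, Finset.sum_mul]
      apply Finset.sum_congr rfl
      intro i _
      by_cases h1 : x ∈ tube δ (a i) (e i)
      · by_cases h2 : x ∈ W
        · have h3 : x ∈ tube δ (a i) (e i) ∩ W := ⟨h1, h2⟩
          rw [indicator_of_mem h1, indicator_of_mem h2, indicator_of_mem h3, one_mul]
        · have h3 : x ∉ tube δ (a i) (e i) ∩ W := fun h => h2 h.2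
          rw [indicator_of_notMem h2, indicator_of_notMem h3, mul_zero]
      · have h3 : x ∉ tube δ (a i) (e i) ∩ W := fun h => h1 h.1
        rw [indicator_of_notMem h1, indicator_of_notMem h3, zero_mul]
    simp only [e1]
    rw [lintegral_finsetSum _ (fun i _ => measurable_const.indicator ((hTm i).inter hW))]
    refine Finset.sum_congr rfl fun i _ => ?_
    rw [lintegral_indicator ((hTm i).inter hW), setLIntegral_one]
  rw [hleft]
  have e9 : 1 - 1 / q = 1 / P := by
    rw [hP]
    field_simp
  rw [e9]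
  exact hhol.trans (mul_le_mul' hnorm le_rfl)

end Pool.Agent.Helper37.Pt
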